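import Mathlib

/-!
# Project TT: the two type threshold competition model, definitions

`V = ℤ × ℤ`; configurations are functions `V → Fin 3`.
-/

set_option autoImplicit false

namespace Pool.Agent.T5h70.TT

open MeasureTheory ProbabilityTheory

abbrev V := ℤ × ℤ

/-- the four nearest neighbours -/
def nbrs (x : V) : Finset V :=
  {(x.1 + 1, x.2), (x.1 - 1, x.2), (x.1, x.2 + 1), (x.1, x.2 - 1)}

/-- the number of the neighbours of `x` in state `i` -/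
def cnt (i : Fin 3) (ξ : V → Fin 3) (x : V) : ℕ := ((nbrs x).filter fun y => ξ y = i).card

/-- one step of the competition model -/
def step (ξ : V → Fin 3) (x : V) : Fin 3 :=
  if ξ x ≠ 0 then ξ x
  else if 2 ≤ cnt 1 ξ x ∧ ¬ 2 ≤ cnt 2 ξ x then 1
  else if 2 ≤ cnt 2 ξ x ∧ ¬ 2 ≤ cnt 1 ξ x then 2
  else 0

/-- sup distance at most `r` -/
def Nr (r : ℤ) (x y : V) : Prop := |x.1 - y.1| ≤ r ∧ |x.2 - y.2| ≤ r

/-- every site outside of `D` has at most one neighbour in `D` -/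
def Clo (D : Set V) : Prop :=
  ∀ x, x ∉ D → ∀ y ∈ nbrs x, ∀ z ∈ nbrs x, y ∈ D → z ∈ D → y = z

/-- the rectangle `[a,b] × [c,d]` is spanned by 2s: the two columns `i, i+1` and the two rows `j, j+1`
contain a 2 of the rectangle, for all `a - 1 ≤ i ≤ b`, `c - 1 ≤ j ≤ d` -/
def Sp (σ : V → Fin 3) (a b c d : ℤ) : Prop :=
  a ≤ b ∧ c ≤ d ∧
  (∀ i, a - 1 ≤ i → i ≤ b → ∃ z : V, σ z = 2 ∧ a ≤ z.1 ∧ z.1 ≤ b ∧ c ≤ z.2 ∧ z.2 ≤ d ∧
    (z.1 = i ∨ z.1 = i + 1)) ∧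
  (∀ j, c - 1 ≤ j → j ≤ d → ∃ z : V, σ z = 2 ∧ a ≤ z.1 ∧ z.1 ≤ b ∧ c ≤ z.2 ∧ z.2 ≤ d ∧
    (z.2 = j ∨ z.2 = j + 1))

/-- some spanned rectangle in the box of radius `L` has its longer side in `(K, 2 K + 2]` -/
def Big (L K : ℤ) (σ : V → Fin 3) : Prop :=
  ∃ a b c d, -L ≤ a ∧ b ≤ L ∧ -L ≤ c ∧ d ≤ L ∧ Sp σ a b c d ∧
    K < max (b - a) (d - c) ∧ max (b - a) (d - c) ≤ 2 * K + 2

/-- the closure of the 1s in the box of radius `ℓ`, with the sites of `D` blocked -/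
inductive Occ (σ : V → Fin 3) (D : Set V) (ℓ : ℤ) : V → Prop
  | init (x : V) : Nr ℓ x 0 → σ x = 1 → Occ σ D ℓ x
  | grow (x y z : V) : Nr ℓ x 0 → x ∉ D → y ∈ nbrs x → z ∈ nbrs x → y ≠ z →
      Occ σ D ℓ y → Occ σ D ℓ z → Occ σ D ℓ x

/-- `O` is closed under the growth in the box of radius `R` around `c`: it contains the 1s, and the sites
which are not 2s and have two neighbours in `O` -/
def Env (σ : V → Fin 3) (O : Set V) (R : ℤ) (c : V) : Prop :=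
  (∀ x, Nr R x c → σ x = 1 → x ∈ O) ∧
  (∀ x, Nr R x c → σ x ≠ 2 → ∀ y ∈ nbrs x, ∀ z ∈ nbrs x, y ≠ z → y ∈ O → z ∈ O → x ∈ O)

/-- The corner condition. `ρ (i, y)`: column `i`, depth `y ≥ 0` below the corner. `t i` is the loss after
`i` columns. A 2 in column `i` or `i + 1` at a depth `y ≥ t i`, `y ≤ 2 g`, such that column `i + 1` has no 1 at the
depths `t i ≤ y' < y`, must be lost: `y < t (i+1)`. The total loss is at most `g`. -/
def Cor0 (ρ : V → Fin 3) (N g : ℕ) : Prop :=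
  ∃ t : ℕ → ℤ, t 0 = 0 ∧ (∀ i < N, t i ≤ t (i + 1)) ∧ t N ≤ g ∧
    ∀ i : ℕ, i < N → ∀ y : ℤ, t i ≤ y → y ≤ 2 * g →
      (ρ ((i : ℤ) + 1, y) = 2 ∨ ρ ((i : ℤ), y) = 2) →
      (∀ y' : ℤ, t i ≤ y' → y' < y → ρ ((i : ℤ) + 1, y') ≠ 1) → y < t (i + 1)

/-- two adjacent columns of the strip `[0,N] × [0,2g]` contain at most one 2 -/
def One2 (ρ : V → Fin 3) (N g : ℕ) : Prop :=
  ∀ x y : V, ρ x = 2 → ρ y = 2 → 0 ≤ x.1 → x.1 ≤ N → 0 ≤ x.2 → x.2 ≤ 2 * g →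
    0 ≤ y.1 → y.1 ≤ N → 0 ≤ y.2 → y.2 ≤ 2 * g → |x.1 - y.1| ≤ 1 → x = y

/-- the eight frames `(e, f)` -/
def frs : Finset (V × V) :=
  {((1, 0), (0, 1)), ((1, 0), (0, -1)), ((-1, 0), (0, 1)), ((-1, 0), (0, -1)),
    ((0, 1), (1, 0)), ((0, 1), (-1, 0)), ((0, -1), (1, 0)), ((0, -1), (-1, 0))}

/-- the site `c + u e + v f` -/
def fr (c : V) (E : V × V) (u v : ℤ) : V :=
  (c.1 + u * E.1.1 + v * E.2.1, c.2 + u * E.1.2 + v * E.2.2)

/-- the site of index `z`: `100 g z` -/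
def cen (g : ℕ) (z : V) : V := (100 * g * z.1, 100 * g * z.2)

def G0 (g : ℕ) (c : V) (σ : V → Fin 3) : Prop :=
  ∀ y z : V, Nr (125 * g) y c → Nr (125 * g) z c → σ y = 2 → σ z = 2 → Nr 2 y z → y = z

def G1 (g : ℕ) (c : V) (σ : V → Fin 3) : Prop :=
  ∀ y z : V, Nr (104 * g) y c → Nr (104 * g) z c → σ y = 2 → σ z = 2 →
    (|y.1 - z.1| ≤ 1 ∨ |y.2 - z.2| ≤ 1) → y = z

def G2 (g : ℕ) (c : V) (σ : V → Fin 3) : Prop :=
  (∀ x y : ℤ, Nr (104 * g) (x, y) c → Nr (104 * g) (x + g - 1, y) c →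
    ∃ k : ℤ, 0 ≤ k ∧ k < g ∧ σ (x + k, y) = 1) ∧
  (∀ x y : ℤ, Nr (104 * g) (x, y) c → Nr (104 * g) (x, y + g - 1) c →
    ∃ k : ℤ, 0 ≤ k ∧ k < g ∧ σ (x, y + k) = 1)

/-- the 24 corner conditions; `E = (e, f)`, `e` the direction of growth, `f` the direction of the loss -/
def G3 (g : ℕ) (c : V) (σ : V → Fin 3) : Prop :=
  ∀ E ∈ frs,
    Cor0 (fun w => σ (fr c E (3 * g + w.1) (-3 * g + w.2))) (101 * g) g ∧
    Cor0 (fun w => σ (fr c E (2 * g + w.1) (-104 * g + w.2))) g g ∧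
    Cor0 (fun w => σ (fr c E (2 * g + w.1) (-3 * g + w.2))) g g

/-- the block with centre `c` is good -/
def Good (g : ℕ) (c : V) (σ : V → Fin 3) : Prop := G0 g c σ ∧ G1 g c σ ∧ G2 g c σ ∧ G3 g c σ

/-- nucleation at `c` -/
def Nuc (g : ℕ) (c : V) (σ : V → Fin 3) : Prop :=
  (∀ k : ℤ, 0 ≤ k → k < g → σ (c.1 + k, c.2) = 1) ∧ (∀ x, Nr (3 * g) x c → σ x ≠ 2)

/-- the parent of an index (blocks of 16 × 16) -/
def par (x : V) : V := (x.1 / 16, x.2 / 16)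

/-- good blocks of level `j` -/
def Gd (good : V → Prop) : ℕ → V → Prop
  | 0, β => good β
  | j + 1, β => ∀ γ γ' : V, par γ = β → par γ' = β → ¬ Gd good j γ → ¬ Gd good j γ' → Nr 2 γ γ'

/-- all the blocks of level `j < J` close to `x` are good -/
def Clean (good : V → Prop) (J : ℕ) (x : V) : Prop :=
  ∀ j < J, ∀ γ, Nr 2 γ (par^[j] x) → Gd good j γ

/-- paths of good indices in `U` -/
def Rch (good : V → Prop) (U : Set V) : V → V → Prop :=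
  Relation.ReflTransGen fun u v => v ∈ nbrs u ∧ good u ∧ good v ∧ u ∈ U ∧ v ∈ U

/-- `γ` is in the bounding box of the bad children of `β` -/
def InW (good : V → Prop) (j : ℕ) (β γ : V) : Prop :=
  (∃ δ, par δ = β ∧ ¬ Gd good j δ ∧ δ.1 ≤ γ.1) ∧ (∃ δ, par δ = β ∧ ¬ Gd good j δ ∧ γ.1 ≤ δ.1) ∧
  (∃ δ, par δ = β ∧ ¬ Gd good j δ ∧ δ.2 ≤ γ.2) ∧ (∃ δ, par δ = β ∧ ¬ Gd good j δ ∧ γ.2 ≤ δ.2)

/-- the index `x` belongs to the skeleton of the block `β` of level `j` -/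
def Cl (good : V → Prop) : ℕ → V → V → Prop
  | 0, β, x => x = β
  | j + 1, β, x => ∃ γ, par γ = β ∧ ¬ InW good j β γ ∧ Cl good j γ x

/-- the product measure with `P(1) = p`, `P(2) = q` -/
structure Prod3 (μ : Measure (V → Fin 3)) (p q : ℝ) : Prop where
  prob : IsProbabilityMeasure μ
  ind : iIndepFun (fun (x : V) (σ : V → Fin 3) => σ x) μ
  one : ∀ x, μ.real {σ | σ x = 1} = p
  two : ∀ x, μ.real {σ | σ x = 2} = q

/-- `F` depends on the sites of `S` only -/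
def DepOn (S : Set V) (F : (V → Fin 3) → Prop) : Prop :=
  ∀ σ τ : V → Fin 3, (∀ x ∈ S, σ x = τ x) → F σ → F τ

/-- `F` is increasing for the order `2 < 0 < 1` -/
def Inc (F : (V → Fin 3) → Prop) : Prop :=
  ∀ σ τ : V → Fin 3, (∀ x, (σ x = 1 → τ x = 1) ∧ (τ x = 2 → σ x = 2)) → F σ → F τ

/-- the sites on which the goodness of the block `β` of level `j` depends -/
def Sup (g j : ℕ) (β : V) : Set V := {x | ∃ z : V, par^[j] z = β ∧ Nr (125 * g) x (cen g z)}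

/-- the index of the trial in the block `β` of level `J` (`J ≥ 1`) -/
def tri (J : ℕ) (β : V) : V := (16 ^ (J - 1) * (16 * β.1 + 8), 16 ^ (J - 1) * (16 * β.2 + 8))

/-- the trial in the block `β` of level `J` succeeds -/
def Trial (g J : ℕ) (β : V) (σ : V → Fin 3) : Prop :=
  Nuc g (cen g (tri J β)) σ ∧ Clean (fun z => Good g (cen g z) σ) J (tri J β)

/-- The loss process with flags, in the coordinates of `Cor0` (depths are natural numbers). If `τ ≤ g`, the new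
loss is the largest `y + 1`, `τ ≤ y ≤ 2 g`, such that there is a 2 at `(i+1, y)`, or (if the flag is on) at `(i, y)`, and
no 1 at `(i+1, y')`, `τ ≤ y' < y`; it is `τ` if there is no such `y`. -/
noncomputable def nxt (ρ : V → Fin 3) (g i : ℕ) (fl : Prop) (τ : ℕ) : ℕ :=
  open Classical in
  if τ ≤ g then
    max τ (((Finset.Icc τ (2 * g)).filter fun y : ℕ =>
      (ρ ((i : ℤ) + 1, (y : ℤ)) = 2 ∨ (fl ∧ ρ ((i : ℤ), (y : ℤ)) = 2)) ∧
      ∀ y' : ℕ, τ ≤ y' → y' < y → ρ ((i : ℤ) + 1, (y' : ℤ)) ≠ 1).sup (fun y : ℕ => y + 1))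
  else τ

/-- the state after `i` columns: the loss, and the flag (no loss in the last step) -/
noncomputable def proc (ρ : V → Fin 3) (g : ℕ) : ℕ → ℕ × Prop
  | 0 => (0, True)
  | i + 1 => (nxt ρ g i (proc ρ g i).2 (proc ρ g i).1,
      nxt ρ g i (proc ρ g i).2 (proc ρ g i).1 = (proc ρ g i).1)

end Pool.Agent.T5h70.TT
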