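import Pool.Agent.T5h70.TT.Stm

/-!
# SYM: exchange of the two states
-/

set_option autoImplicit false

namespace Pool.Agent.T5h70.TT.SYM

open Pool.Agent.T5h70.TT

lemma sw1 : ∀ a : Fin 3, (sw a = 1 ↔ a = 2) := by
  unfold sw
  decide

lemma sw2 : ∀ a : Fin 3, (sw a = 2 ↔ a = 1) := by
  unfold sw
  decide

lemma cnt1 (ξ : V → Fin 3) (x : V) : cnt 1 (fun y => sw (ξ y)) x = cnt 2 ξ x := by
  unfold cnt
  congr 1
  exact Finset.filter_congr fun y _ => sw1 (ξ y)

lemma cnt2 (ξ : V → Fin 3) (x : V) : cnt 2 (fun y => sw (ξ y)) x = cnt 1 ξ x := by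
  unfold cnt
  congr 1
  exact Finset.filter_congr fun y _ => sw2 (ξ y)

lemma step_sw (ξ : V → Fin 3) (x : V) : step (fun y => sw (ξ y)) x = sw (step ξ x) := by
  unfold step
  rw [cnt1, cnt2]
  have h0 : ∀ a : Fin 3, (sw a ≠ 0 ↔ a ≠ 0) := by
    unfold sw
    decide
  by_cases h : ξ x ≠ 0
  · rw [if_pos h, if_pos ((h0 _).2 h)]
  · rw [if_neg h, if_neg (fun h' => h ((h0 _).1 h'))]
    by_cases a : 2 ≤ cnt 1 ξ x
    · by_cases b : 2 ≤ cnt 2 ξ x
      · simp [a, b, sw]
      · simp [a, b, sw]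
    · by_cases b : 2 ≤ cnt 2 ξ x
      · simp [a, b, sw]
      · simp [a, b, sw]

theorem t_SYM : S_SYM := by
  intro ξ t
  induction t with
  | zero => intro x; rfl
  | succ t ih =>
    intro x
    rw [Function.iterate_succ_apply', Function.iterate_succ_apply',
      show step^[t] (fun y => sw (ξ y)) = fun y => sw (step^[t] ξ y) from funext ih]
    exact step_sw _ x

end Pool.Agent.T5h70.TT.SYM
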