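import Pool.Agent.T5h70.TT.T_TRA
import Pool.Agent.T5h70.TT.T_SYM

/-!
# Project TT: sequences, both parts
-/

set_option autoImplicit false

namespace Pool.Agent.T5h70.TT.Seq

open Pool.Agent.T5h70.TT MeasureTheory ProbabilityTheory Filter Topology

universe u

lemma partA (h : S_TRA.{u}) (Ω : ℕ → Type u) [∀ n, MeasurableSpace (Ω n)]
    (P : ∀ n, Measure (Ω n)) [∀ n, IsProbabilityMeasure (P n)] (ξ : ∀ n, V → Ω n → Fin 3)
    (p q : ℕ → ℝ) (hm : ∀ n x, Measurable (ξ n x)) (hi : ∀ n, iIndepFun (ξ n) (P n))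
    (h1 : ∀ n x, (P n).real {ω | ξ n x ω = 1} = p n)
    (h2 : ∀ n x, (P n).real {ω | ξ n x ω = 2} = q n)
    (hp : Tendsto p atTop (𝓝 0)) (hp0 : ∀ n, 0 < p n)
    (hq : Tendsto (fun n => q n / p n ^ 2) atTop (𝓝 0)) :
    Tendsto (fun n => (P n).real {ω | ∃ t : ℕ, step^[t] (fun x => ξ n x ω) 0 = 1}) atTop (𝓝 1) := by
  rw [Metric.tendsto_atTop]
  intro θ hθ
  obtain ⟨ε, p₀, hε, hp₀, H⟩ := h (θ / 2) (by positivity)
  have e1 : ∀ᶠ n in atTop, p n < p₀ := hp.eventually_lt_const hp₀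
  have e2 : ∀ᶠ n in atTop, q n / p n ^ 2 < ε := hq.eventually_lt_const hε
  obtain ⟨N, hN⟩ := eventually_atTop.1 (e1.and e2)
  refine ⟨N, fun n hn => ?_⟩
  obtain ⟨a1, a2⟩ := hN n hn
  have hpn := hp0 n
  have a3 : q n ≤ ε * p n ^ 2 := by
    rw [div_lt_iff₀ (by positivity)] at a2
    exact a2.le
  have key := H (Ω n) inferInstance (P n) (ξ n) (p n) (q n) inferInstance (hm n) (hi n) (h1 n)
    (h2 n) hpn a1 a3
  have hle : (P n).real {ω | ∃ t : ℕ, step^[t] (fun x => ξ n x ω) 0 = 1} ≤ 1 := measureReal_le_one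
  rw [Real.dist_eq, abs_lt]
  constructor <;> linarith

lemma partB (h : S_TRA.{u}) (Ω : ℕ → Type u) [∀ n, MeasurableSpace (Ω n)]
    (P : ∀ n, Measure (Ω n)) [∀ n, IsProbabilityMeasure (P n)] (ξ : ∀ n, V → Ω n → Fin 3)
    (p q : ℕ → ℝ) (hm : ∀ n x, Measurable (ξ n x)) (hi : ∀ n, iIndepFun (ξ n) (P n))
    (h1 : ∀ n x, (P n).real {ω | ξ n x ω = 1} = p n)
    (h2 : ∀ n x, (P n).real {ω | ξ n x ω = 2} = q n)
    (hq : Tendsto q atTop (𝓝 0)) (hq0 : ∀ n, 0 < q n)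
    (hp : Tendsto (fun n => √(p n) / q n) atTop (𝓝 0)) :
    Tendsto (fun n => (P n).real {ω | ∃ t : ℕ, step^[t] (fun x => ξ n x ω) 0 = 2}) atTop (𝓝 1) := by
  have hs : Measurable sw := measurable_of_countable sw
  have hpp : ∀ n, 0 ≤ p n := fun n => by
    rw [← h1 n 0]
    exact measureReal_nonneg
  have e1 : ∀ a : Fin 3, sw a = 1 ↔ a = 2 := Pool.Agent.T5h70.TT.SYM.sw1
  have e2 : ∀ a : Fin 3, sw a = 2 ↔ a = 1 := Pool.Agent.T5h70.TT.SYM.sw2
  have key := partA h Ω P (fun n x ω => sw (ξ n x ω)) q p (fun n x => hs.comp (hm n x))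
    (fun n => (hi n).comp (fun _ => sw) (fun _ => hs))
    (fun n x => by simp only [e1]; exact h2 n x) (fun n x => by simp only [e2]; exact h1 n x)
    hq hq0 (by
      have h3 := hp.pow 2
      rw [zero_pow two_ne_zero] at h3
      refine h3.congr fun n => ?_
      rw [div_pow, Real.sq_sqrt (hpp n)])
  refine key.congr fun n => ?_
  congr 1
  ext ω
  simp only [Set.mem_ofPred_eq]
  refine exists_congr fun t => ?_
  have := Pool.Agent.T5h70.TT.SYM.t_SYM (fun x => ξ n x ω) t 0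
  rw [this, e1]

end Pool.Agent.T5h70.TT.Seq
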