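import Pool.Agent.T5h70.TT.Stm

/-! ALP -/

set_option autoImplicit false

namespace Pool.Agent.T5h70.TT.ALP

open Pool.Agent.T5h70.TT MeasureTheory

variable {μ : Measure (V → Fin 3)} {p q : ℝ}

theorem q_nonneg (h : Prod3 μ p q) : 0 ≤ q := by
  rw [← h.two (0, 0)]
  exact measureReal_nonneg

theorem one_le (h : Prod3 μ p q) (S : Finset V) :
    μ.real {σ | ∃ z ∈ S, σ z = 2} ≤ S.card * q := by
  have := h.prob
  have h1 : {σ : V → Fin 3 | ∃ z ∈ S, σ z = 2} = ⋃ z ∈ S, {σ | σ z = 2} := by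
    ext σ
    simp
  rw [h1]
  refine (measureReal_biUnion_finset_le _ _).trans ?_
  rw [Finset.sum_congr rfl fun z _ => h.two z, Finset.sum_const, nsmul_eq_mul]

theorem prod_le (h2 : S_MANY) (h : Prod3 μ p q) (S : ℕ → Finset V) (n M : ℕ)
    (hd : ∀ i < n, ∀ j < n, i ≠ j → Disjoint (S i) (S j)) (hc : ∀ i < n, (S i).card ≤ M) :
    μ.real {σ | ∀ k ∈ Finset.range n, ∃ z ∈ S k, σ z = 2} ≤ (M * q) ^ n := by
  have h3 := h2 μ p q h ℕ (Finset.range n) (fun k => (S k : Set V))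
    (fun k σ => ∃ z ∈ S k, σ z = 2) (fun i _ => (S i).finite_toSet)
    (by
      rintro i _ σ τ hστ ⟨z, hz, hz2⟩
      exact ⟨z, hz, (hστ z hz).symm.trans hz2⟩)
    (by
      intro i hi j hj hij
      exact Finset.disjoint_coe.2 (hd i (Finset.mem_range.1 hi) j (Finset.mem_range.1 hj) hij))
  have hq := q_nonneg h
  calc μ.real {σ | ∀ k ∈ Finset.range n, ∃ z ∈ S k, σ z = 2}
      = ∏ k ∈ Finset.range n, μ.real {σ | ∃ z ∈ S k, σ z = 2} := h3
    _ ≤ ∏ _k ∈ Finset.range n, (M * q) := by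
        apply Finset.prod_le_prod
        · intro i _
          exact measureReal_nonneg
        · intro i hi
          refine (one_le h (S i)).trans ?_
          have := hc i (Finset.mem_range.1 hi)
          have h4 : ((S i).card : ℝ) ≤ M := by exact_mod_cast this
          exact mul_le_mul_of_nonneg_right h4 hq
    _ = (M * q) ^ n := by rw [Finset.prod_const, Finset.card_range]

/-- pairs of columns -/
noncomputable def cols (a c : ℤ) (y : ℕ) (k : ℕ) : Finset V :=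
  Finset.Icc (a + 2 * k) (a + 2 * k + 1) ×ˢ Finset.Icc c (c + y)

/-- pairs of rows -/
noncomputable def rows (a c : ℤ) (x : ℕ) (k : ℕ) : Finset V :=
  Finset.Icc a (a + x) ×ˢ Finset.Icc (c + 2 * k) (c + 2 * k + 1)

theorem cols_disj (a c : ℤ) (y : ℕ) (i j : ℕ) (hij : i ≠ j) : Disjoint (cols a c y i) (cols a c y j) := by
  rw [Finset.disjoint_left]
  intro z h1 h2
  simp only [cols, Finset.mem_product, Finset.mem_Icc] at h1 h2
  omega

theorem rows_disj (a c : ℤ) (x : ℕ) (i j : ℕ) (hij : i ≠ j) : Disjoint (rows a c x i) (rows a c x j) := by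
  rw [Finset.disjoint_left]
  intro z h1 h2
  simp only [rows, Finset.mem_product, Finset.mem_Icc] at h1 h2
  omega

theorem cols_card (a c : ℤ) (y k : ℕ) : (cols a c y k).card = 2 * (y + 1) := by
  unfold cols
  rw [Finset.card_product, Int.card_Icc, Int.card_Icc]
  congr 1 <;> omega

theorem rows_card (a c : ℤ) (x k : ℕ) : (rows a c x k).card = 2 * (x + 1) := by
  unfold rows
  rw [Finset.card_product, Int.card_Icc, Int.card_Icc, mul_comm]
  congr 1 <;> omega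

theorem t_ALP (_h1 : S_SITE) (h2 : S_MANY) : S_ALP := by
  intro μ p q h L κ
  have := h.prob
  have hq := q_nonneg h
  set Q : Finset ((ℤ × ℤ) × (ℕ × ℕ)) :=
    (Finset.Icc (-(L : ℤ)) L ×ˢ Finset.Icc (-(L : ℤ)) L) ×ˢ
      (Finset.range (4 * κ + 3) ×ˢ Finset.range (4 * κ + 3)) with hQ
  have hQc : (Q.card : ℝ) = (2 * L + 1) ^ 2 * (4 * κ + 3) ^ 2 := by
    rw [hQ, Finset.card_product, Finset.card_product, Finset.card_product, Int.card_Icc,
      Finset.card_range]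
    have : ((L : ℤ) + 1 - -(L : ℤ)).toNat = 2 * L + 1 := by omega
    rw [this]
    push_cast
    ring
  have hsub : {σ | Big L (2 * κ) σ} ⊆ ⋃ w ∈ Q,
      ({σ | ∀ k ∈ Finset.range (κ + 1), ∃ z ∈ cols w.1.1 w.1.2 w.2.2 k, σ z = 2} ∪
        {σ | ∀ k ∈ Finset.range (κ + 1), ∃ z ∈ rows w.1.1 w.1.2 w.2.1 k, σ z = 2}) := by
    rintro σ ⟨a, b, c, d, ha, hb, hc, hd, ⟨hab, hcd, hs1, hs2⟩, hm1, hm2⟩
    rw [max_le_iff] at hm2
    obtain ⟨x, hx⟩ := Int.eq_ofNat_of_zero_le (show 0 ≤ b - a by omega)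
    obtain ⟨y, hy⟩ := Int.eq_ofNat_of_zero_le (show 0 ≤ d - c by omega)
    have hb' : b = a + x := by omega
    have hd' : d = c + y := by omega
    subst hb' hd'
    rw [Set.mem_iUnion₂]
    refine ⟨((a, c), (x, y)), ?_, ?_⟩
    · rw [hQ]
      simp only [Finset.mem_product, Finset.mem_Icc, Finset.mem_range]
      omega
    · rcases lt_max_iff.1 hm1 with h3 | h3
      · left
        intro k hk
        rw [Finset.mem_range] at hk
        obtain ⟨z, hz, hz1, hz2, hz3, hz4, hz5⟩ := hs1 (a + 2 * k) (by omega) (by omega)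
        refine ⟨z, ?_, hz⟩
        simp only [cols, Finset.mem_product, Finset.mem_Icc]
        omega
      · right
        intro k hk
        rw [Finset.mem_range] at hk
        obtain ⟨z, hz, hz1, hz2, hz3, hz4, hz5⟩ := hs2 (c + 2 * k) (by omega) (by omega)
        refine ⟨z, ?_, hz⟩
        simp only [rows, Finset.mem_product, Finset.mem_Icc]
        omega
  have hcast : ((2 * (4 * κ + 3) : ℕ) : ℝ) = 2 * (4 * κ + 3) := by push_cast; ring
  have hterm : ∀ w ∈ Q,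
      μ.real ({σ | ∀ k ∈ Finset.range (κ + 1), ∃ z ∈ cols w.1.1 w.1.2 w.2.2 k, σ z = 2} ∪
        {σ | ∀ k ∈ Finset.range (κ + 1), ∃ z ∈ rows w.1.1 w.1.2 w.2.1 k, σ z = 2}) ≤
      2 * (2 * (4 * κ + 3) * q) ^ (κ + 1) := by
    intro w hw
    rw [hQ] at hw
    simp only [Finset.mem_product, Finset.mem_range] at hw
    refine (measureReal_union_le _ _).trans ?_
    have e1 := prod_le h2 h (cols w.1.1 w.1.2 w.2.2) (κ + 1) (2 * (4 * κ + 3))
      (fun i _ j _ hij => cols_disj _ _ _ _ _ hij) (fun i _ => by rw [cols_card]; omega)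
    have e2 := prod_le h2 h (rows w.1.1 w.1.2 w.2.1) (κ + 1) (2 * (4 * κ + 3))
      (fun i _ j _ hij => rows_disj _ _ _ _ _ hij) (fun i _ => by rw [rows_card]; omega)
    rw [hcast] at e1 e2
    linarith
  calc μ.real {σ | Big L (2 * κ) σ}
      ≤ μ.real (⋃ w ∈ Q,
        ({σ | ∀ k ∈ Finset.range (κ + 1), ∃ z ∈ cols w.1.1 w.1.2 w.2.2 k, σ z = 2} ∪
        {σ | ∀ k ∈ Finset.range (κ + 1), ∃ z ∈ rows w.1.1 w.1.2 w.2.1 k, σ z = 2})) :=
        measureReal_mono hsub (measure_ne_top _ _)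
    _ ≤ ∑ w ∈ Q, μ.real
        ({σ | ∀ k ∈ Finset.range (κ + 1), ∃ z ∈ cols w.1.1 w.1.2 w.2.2 k, σ z = 2} ∪
        {σ | ∀ k ∈ Finset.range (κ + 1), ∃ z ∈ rows w.1.1 w.1.2 w.2.1 k, σ z = 2}) :=
        measureReal_biUnion_finset_le _ _
    _ ≤ ∑ _w ∈ Q, 2 * (2 * (4 * κ + 3) * q) ^ (κ + 1) := Finset.sum_le_sum hterm
    _ = Q.card * (2 * (2 * (4 * κ + 3) * q) ^ (κ + 1)) := by rw [Finset.sum_const, nsmul_eq_mul]
    _ = 2 * (2 * L + 1) ^ 2 * (4 * κ + 3) ^ 2 * (2 * (4 * κ + 3) * q) ^ (κ + 1) := by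
        rw [hQc]; ring

end Pool.Agent.T5h70.TT.ALP
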