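import Pool.Agent.T5h70.TT.Stm

/-! AS1: asymptotics (helper11). -/

set_option autoImplicit false
set_option linter.all false

namespace Pool.Agent.T5h70.TT.AS1

open Pool.Agent.T5h70.TT Filter Topology

theorem lam_pos {m : ℕ} (hm : 2 ≤ m) : 1 ≤ Nat.clog 2 m := Nat.clog_pos (by norm_num) hm

/-- powers of the logarithm are small -/
theorem log_small (C k : ℕ) : ∃ m₀ : ℕ, 2 ≤ m₀ ∧ ∀ m : ℕ, m₀ ≤ m →
    C * (Nat.clog 2 m) ^ k ≤ m := by
  have h1 := tendsto_pow_const_div_const_pow_of_one_lt k (by norm_num : (1 : ℝ) < 2)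
  have h2 : ∀ᶠ n : ℕ in atTop, (n : ℝ) ^ k / 2 ^ n < 1 / (2 * (C + 1)) :=
    h1.eventually_lt_const (by positivity)
  obtain ⟨n₀, hn₀⟩ := eventually_atTop.1 h2
  refine ⟨max 2 (2 ^ n₀), le_max_left _ _, fun m hm => ?_⟩
  have hm2 : 2 ≤ m := (le_max_left _ _).trans hm
  have hmm : 2 ^ n₀ ≤ m := (le_max_right _ _).trans hm
  have hn : n₀ ≤ Nat.clog 2 m := by
    have := Nat.clog_mono_right 2 hmm
    rwa [Nat.clog_pow 2 n₀ (by norm_num)] at this
  have h3 := hn₀ _ hn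
  have h4 := Nat.pow_pred_clog_lt_self (by norm_num : 1 < 2) (by omega : 1 < m)
  have h5 : 2 ^ (Nat.clog 2 m) ≤ 2 * m := by
    have h6 := lam_pos hm2
    have h7 : Nat.clog 2 m = (Nat.clog 2 m).pred + 1 := (Nat.succ_pred_eq_of_pos h6).symm
    rw [h7, pow_succ]
    omega
  set l := Nat.clog 2 m with hl
  rw [div_lt_div_iff₀ (by positivity) (by positivity)] at h3
  have h8 : ((2 : ℝ)) ^ l ≤ 2 * m := by exact_mod_cast h5
  have h9 : ((C : ℝ)) * (l : ℝ) ^ k ≤ m := by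
    have : 0 ≤ (l : ℝ) ^ k := by positivity
    nlinarith
  exact_mod_cast h9

theorem t_AS1 : S_AS1 := by
  intro δ hδ
  obtain ⟨m₁, hm₁⟩ := exists_nat_gt (2 * (24 * 251 ^ 2 * 256 + 6 * 209 ^ 3 * 1024 + 2 * 209 ^ 2 * 16) / δ)
  obtain ⟨m₂, hm₂2, hm₂⟩ := log_small m₁ 3
  refine ⟨min 1 (δ / 4000), lt_min one_pos (by positivity), m₂, fun m hm p q hp1 hp2 hq0 hq => ?_⟩
  have hm2 : 2 ≤ m := hm₂2.trans hm
  have hlam := lam_pos hm2
  set l := Nat.clog 2 m with hl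
  have hm0 : (0 : ℝ) < m := by
    have : 0 < m := by omega
    exact_mod_cast this
  have hm2' : (2 : ℝ) ≤ m := by exact_mod_cast hm2
  have hl1 : (1 : ℝ) ≤ l := by exact_mod_cast hlam
  have hp0 : 0 < p := lt_of_lt_of_le (by positivity) hp1
  have hg : (gg m : ℝ) = 4 * m * l := by
    unfold gg
    push_cast
    rfl
  have hsm : (m₁ : ℝ) * (l : ℝ) ^ 3 ≤ m := by exact_mod_cast hm₂ m hm
  -- the bound for q
  have hpp : p ^ 2 ≤ 4 / (m : ℝ) ^ 2 := by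
    have h1 : p ^ 2 ≤ (2 / (m : ℝ)) ^ 2 := pow_le_pow_left₀ hp0.le hp2 2
    have h2 : (2 / (m : ℝ)) ^ 2 = 4 / (m : ℝ) ^ 2 := by
      rw [div_pow]
      norm_num
    linarith
  have hq1 : q ≤ p ^ 2 := by
    have h1 : min 1 (δ / 4000) * p ^ 2 ≤ 1 * p ^ 2 :=
      mul_le_mul_of_nonneg_right (min_le_left _ _) (by positivity)
    linarith
  have hq2 : q ≤ 4 / (m : ℝ) ^ 2 := hq1.trans hpp
  have hqq : q ^ 2 ≤ 16 / (m : ℝ) ^ 4 := by
    have h1 : q ^ 2 ≤ (4 / (m : ℝ) ^ 2) ^ 2 := pow_le_pow_left₀ hq0 hq2 2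
    have h2 : (4 / (m : ℝ) ^ 2) ^ 2 = 16 / (m : ℝ) ^ 4 := by
      rw [div_pow]
      ring
    linarith
  -- the last term
  have ht4 : 2000 * q / p ^ 2 ≤ δ / 2 := by
    rw [div_le_iff₀ (by positivity)]
    have h1 : min 1 (δ / 4000) * p ^ 2 ≤ δ / 4000 * p ^ 2 :=
      mul_le_mul_of_nonneg_right (min_le_right _ _) (by positivity)
    linarith
  -- the third term
  have hexp : (1 - p) ^ gg m ≤ 1 / (m : ℝ) ^ 4 := by
    have hp1' : 0 ≤ 1 - p := by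
      have : 2 / (m : ℝ) ≤ 1 := by
        rw [div_le_one hm0]
        exact hm2'
      linarith
    have h1 : 1 - p ≤ Real.exp (-p) := Real.one_sub_le_exp_neg p
    have h2 : (1 - p) ^ gg m ≤ Real.exp (-p) ^ gg m := pow_le_pow_left₀ hp1' h1 _
    have h3 : Real.exp (-p) ^ gg m = Real.exp (-(p * gg m)) := by
      rw [← Real.exp_nat_mul]
      congr 1
      ring
    have h4 : (4 : ℝ) * l ≤ p * gg m := by
      rw [hg]
      have h5 : 1 ≤ p * m := by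
        rw [div_le_iff₀ hm0] at hp1
        exact hp1
      have h6 : p * (4 * m * l) = 4 * l * (p * m) := by ring
      rw [h6]
      nlinarith
    have h5 : Real.exp (-(p * gg m)) ≤ Real.exp (-(4 * l)) := Real.exp_le_exp.2 (by linarith)
    have h6 : Real.exp (-(4 * (l : ℝ))) ≤ 1 / (m : ℝ) ^ 4 := by
      rw [Real.exp_neg, ← one_div]
      refine one_div_le_one_div_of_le (by positivity) ?_
      have h7 : (m : ℝ) ≤ 2 ^ l := by
        have := Nat.le_pow_clog (by norm_num : 1 < 2) m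
        exact_mod_cast this
      have h8 : (2 : ℝ) ^ l ≤ Real.exp l := by
        have h9 : (2 : ℝ) ≤ Real.exp 1 := by
          have := Real.add_one_le_exp (1 : ℝ)
          linarith
        calc (2 : ℝ) ^ l ≤ Real.exp 1 ^ l := pow_le_pow_left₀ (by norm_num) h9 _
          _ = Real.exp l := by
            rw [← Real.exp_nat_mul, mul_one]
      have h9 : Real.exp (4 * (l : ℝ)) = Real.exp l ^ 4 := by
        rw [← Real.exp_nat_mul]
        norm_num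
      rw [h9]
      exact pow_le_pow_left₀ hm0.le (h7.trans h8) 4
    rw [h3] at h2
    exact h2.trans (h5.trans h6)
  -- the first three terms
  have hl2 : (l : ℝ) ^ 2 ≤ (l : ℝ) ^ 3 := pow_le_pow_right₀ hl1 (by norm_num)
  have ht1 : 24 * (251 * (gg m : ℝ)) ^ 2 * q ^ 2 ≤ 24 * 251 ^ 2 * 256 * ((l : ℝ) ^ 3 / m) := by
    rw [hg]
    calc 24 * (251 * (4 * (m : ℝ) * l)) ^ 2 * q ^ 2
        ≤ 24 * (251 * (4 * (m : ℝ) * l)) ^ 2 * (16 / (m : ℝ) ^ 4) :=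
          mul_le_mul_of_nonneg_left hqq (by positivity)
      _ = 24 * 251 ^ 2 * 256 * ((l : ℝ) ^ 2 / m ^ 2) := by
          field_simp
          ring
      _ ≤ 24 * 251 ^ 2 * 256 * ((l : ℝ) ^ 3 / m) := by
          refine mul_le_mul_of_nonneg_left ?_ (by positivity)
          refine div_le_div₀ (by positivity) hl2 hm0 ?_
          nlinarith
  have ht2 : 6 * (209 * (gg m : ℝ)) ^ 3 * q ^ 2 ≤ 6 * 209 ^ 3 * 1024 * ((l : ℝ) ^ 3 / m) := by
    rw [hg]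
    calc 6 * (209 * (4 * (m : ℝ) * l)) ^ 3 * q ^ 2
        ≤ 6 * (209 * (4 * (m : ℝ) * l)) ^ 3 * (16 / (m : ℝ) ^ 4) :=
          mul_le_mul_of_nonneg_left hqq (by positivity)
      _ = 6 * 209 ^ 3 * 1024 * ((l : ℝ) ^ 3 / m) := by
          field_simp
          ring
  have ht3 : 2 * (209 * (gg m : ℝ)) ^ 2 * (1 - p) ^ gg m ≤ 2 * 209 ^ 2 * 16 * ((l : ℝ) ^ 3 / m) := by
    calc 2 * (209 * (gg m : ℝ)) ^ 2 * (1 - p) ^ gg m
        ≤ 2 * (209 * (gg m : ℝ)) ^ 2 * (1 / (m : ℝ) ^ 4) :=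
          mul_le_mul_of_nonneg_left hexp (by positivity)
      _ = 2 * 209 ^ 2 * 16 * ((l : ℝ) ^ 2 / m ^ 2) := by
          rw [hg]
          field_simp
          ring
      _ ≤ 2 * 209 ^ 2 * 16 * ((l : ℝ) ^ 3 / m) := by
          refine mul_le_mul_of_nonneg_left ?_ (by positivity)
          refine div_le_div₀ (by positivity) hl2 hm0 ?_
          nlinarith
  -- the sum
  have hC : (24 * 251 ^ 2 * 256 + 6 * 209 ^ 3 * 1024 + 2 * 209 ^ 2 * 16) * ((l : ℝ) ^ 3 / m) ≤ δ / 2 := by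
    rw [← mul_div_assoc, div_le_iff₀ hm0]
    rw [div_lt_iff₀ hδ] at hm₁
    have hl3 : 0 ≤ (l : ℝ) ^ 3 := by positivity
    have h1 : (2 * (24 * 251 ^ 2 * 256 + 6 * 209 ^ 3 * 1024 + 2 * 209 ^ 2 * 16)) * (l : ℝ) ^ 3 ≤
        m₁ * δ * (l : ℝ) ^ 3 := mul_le_mul_of_nonneg_right hm₁.le hl3
    have h2 : δ * (m₁ * (l : ℝ) ^ 3) ≤ δ * m := mul_le_mul_of_nonneg_left hsm hδ.le
    linarith
  linarith

end Pool.Agent.T5h70.TT.AS1
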