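import Pool.Agent.T5h70.TT.Stm

/-! AS2: asymptotics (helper11). -/

set_option autoImplicit false
set_option linter.all false

namespace Pool.Agent.T5h70.TT.AS2

open Pool.Agent.T5h70.TT Filter Topology

theorem lam_pos {m : ℕ} (hm : 2 ≤ m) : 1 ≤ Nat.clog 2 m := Nat.clog_pos (by norm_num) hm

/-- powers of the logarithm are small -/
theorem log_small (C k : ℕ) : ∃ m₀ : ℕ, 2 ≤ m₀ ∧ ∀ m : ℕ, m₀ ≤ m →
    C * (Nat.clog 2 m) ^ k ≤ m := by
  have h1 := tendsto_pow_const_div_const_pow_of_one_lt k (by norm_num : (1 : ℝ) < 2)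
  have h2 : ∀ᶠ n : ℕ in atTop, (n : ℝ) ^ k / 2 ^ n < 1 / (2 * (C + 1)) :=
    h1.eventually_lt_const (by positivity)
  obtain ⟨n₀, hn₀⟩ := eventually_atTop.1 h2
  refine ⟨max 2 (2 ^ n₀), le_max_left _ _, fun m hm => ?_⟩
  have hm2 : 2 ≤ m := (le_max_left _ _).trans hm
  have hmm : 2 ^ n₀ ≤ m := (le_max_right _ _).trans hm
  have hn : n₀ ≤ Nat.clog 2 m := by
    have := Nat.clog_mono_right 2 hmm
    rwa [Nat.clog_pow 2 n₀ (by norm_num)] at this
  have h3 := hn₀ _ hn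
  have h4 := Nat.pow_pred_clog_lt_self (by norm_num : 1 < 2) (by omega : 1 < m)
  have h5 : 2 ^ (Nat.clog 2 m) ≤ 2 * m := by
    have h6 := lam_pos hm2
    have h7 : Nat.clog 2 m = (Nat.clog 2 m).pred + 1 := (Nat.succ_pred_eq_of_pos h6).symm
    rw [h7, pow_succ]
    omega
  set l := Nat.clog 2 m with hl
  rw [div_lt_div_iff₀ (by positivity) (by positivity)] at h3
  have h8 : ((2 : ℝ)) ^ l ≤ 2 * m := by exact_mod_cast h5
  have h9 : ((C : ℝ)) * (l : ℝ) ^ k ≤ m := by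
    have : 0 ≤ (l : ℝ) ^ k := by positivity
    nlinarith
  exact_mod_cast h9

/-- the radius `L` is at most a power of `m` -/
theorem LL_bound {m : ℕ} (hm2 : 2 ≤ m) (h4 : 4 * Nat.clog 2 m ≤ m) :
    2 * LL m + 1 ≤ m ^ (2 * gg m + 75) := by
  have hlam := lam_pos hm2
  have hm1 : 1 ≤ m := by omega
  have hg1 : 1 ≤ gg m := by
    unfold gg
    nlinarith [Nat.mul_le_mul hm1 hlam]
  have hg2 : gg m ≤ m ^ 2 := by
    unfold gg
    nlinarith
  have hpow : ∀ k : ℕ, 2 ^ k ≤ m ^ k := fun k => Nat.pow_le_pow_left hm2 k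
  have hJ : 2 ^ JJ m ≤ m ^ 6 := by
    have h5 : 1 < 4 * gg m * m := by nlinarith
    have h6 := Nat.pow_pred_clog_lt_self (by norm_num : 1 < 2) h5
    have h7 : 2 ^ JJ m ≤ 2 * (4 * gg m * m) := by
      have h8 : 1 ≤ JJ m := Nat.clog_pos (by norm_num) (by omega)
      have h9 : JJ m = (JJ m).pred + 1 := (Nat.succ_pred_eq_of_pos h8).symm
      rw [h9, pow_succ]
      have h10 : (JJ m).pred = (Nat.clog 2 (4 * gg m * m)).pred := rfl
      rw [h10]
      omega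
    have h8 : 8 ≤ m ^ 3 := hpow 3
    calc 2 ^ JJ m ≤ 2 * (4 * gg m * m) := h7
      _ ≤ 2 * (4 * m ^ 2 * m) := by gcongr
      _ = 8 * m ^ 3 := by ring
      _ ≤ m ^ 3 * m ^ 3 := Nat.mul_le_mul_right _ h8
      _ = m ^ 6 := by ring
  have hJ16 : 16 ^ JJ m ≤ m ^ 24 := by
    have h5 : 16 ^ JJ m = (2 ^ JJ m) ^ 4 := by
      rw [← pow_mul, mul_comm, pow_mul]
      norm_num
    rw [h5]
    calc (2 ^ JJ m) ^ 4 ≤ (m ^ 6) ^ 4 := Nat.pow_le_pow_left hJ 4
      _ = m ^ 24 := by ring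
  have hll : ll m ≤ m ^ (gg m + 35) := by
    unfold ll
    have h5 : 1 ≤ 16 ^ JJ m * m ^ gg m := Nat.mul_pos (by positivity) (by positivity)
    have h6 : 404 ≤ m ^ 9 := le_trans (by norm_num) (hpow 9)
    calc 100 * gg m * (16 ^ JJ m * (3 * m ^ gg m)) + 104 * gg m
        = gg m * (300 * (16 ^ JJ m * m ^ gg m) + 104) := by ring
      _ ≤ gg m * (404 * (16 ^ JJ m * m ^ gg m)) := Nat.mul_le_mul_left _ (by omega)
      _ ≤ m ^ 2 * (m ^ 9 * (m ^ 24 * m ^ gg m)) := by gcongr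
      _ = m ^ (gg m + 35) := by
        rw [← pow_add, ← pow_add, ← pow_add]
        congr 1
        ring
  have hll1 : 1 ≤ ll m := by
    unfold ll
    have h0 : 0 ≤ 100 * gg m * (16 ^ JJ m * (3 * m ^ gg m)) := Nat.zero_le _
    omega
  unfold LL
  have h5 : 32 ≤ m ^ 5 := hpow 5
  calc 2 * (ll m + (2 * ll m + 1) ^ 2 + 1) + 1 ≤ 32 * ll m ^ 2 := by nlinarith
    _ ≤ m ^ 5 * (m ^ (gg m + 35)) ^ 2 := by gcongr
    _ = m ^ (2 * gg m + 75) := by
      rw [← pow_mul, ← pow_add]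
      congr 1
      ring

theorem t_AS2 : S_AS2 := by
  intro θ hθ
  obtain ⟨m₁, hm₁⟩ := exists_nat_gt (1 / θ)
  obtain ⟨m₂, hm₂2, hm₂⟩ := log_small 118336 2
  refine ⟨max m₁ (max m₂ 42), fun m hm q hq0 hq => ?_⟩
  have hm1 : m₁ ≤ m := (le_max_left _ _).trans hm
  have hmm2 : m₂ ≤ m := ((le_max_left _ _).trans (le_max_right _ _)).trans hm
  have hm42 : 42 ≤ m := ((le_max_right _ _).trans (le_max_right _ _)).trans hm
  have hm2 : 2 ≤ m := by omega
  have hlam := lam_pos hm2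
  have hsm := hm₂ m hmm2
  have h4 : 4 * Nat.clog 2 m ≤ m := by nlinarith
  have hLL := LL_bound hm2 h4
  set l := Nat.clog 2 m with hl
  have hgg : gg m = 4 * m * l := rfl
  have hg1 : 168 ≤ gg m := by
    rw [hgg]
    nlinarith
  have hg2 : gg m ≤ m ^ 2 := by
    rw [hgg]
    nlinarith
  set g := gg m with hg
  have hm0 : (0 : ℝ) < m := by
    have : 0 < m := by omega
    exact_mod_cast this
  have hmR : (1 : ℝ) ≤ m := by
    have : 1 ≤ m := by omega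
    exact_mod_cast this
  -- the prefactor
  have hpre : 2 * (2 * LL m + 1) ^ 2 * (4 * (10 * g) + 3) ^ 2 ≤ m ^ (4 * g + 167) := by
    have h64 : 64 ≤ m ^ 6 := le_trans (by norm_num) (Nat.pow_le_pow_left hm2 6)
    have h5 : 4 * (10 * g) + 3 ≤ m ^ 8 := by
      calc 4 * (10 * g) + 3 ≤ 64 * g := by omega
        _ ≤ m ^ 6 * m ^ 2 := Nat.mul_le_mul h64 hg2
        _ = m ^ 8 := by ring
    calc 2 * (2 * LL m + 1) ^ 2 * (4 * (10 * g) + 3) ^ 2
        ≤ m * (m ^ (2 * g + 75)) ^ 2 * (m ^ 8) ^ 2 := by gcongr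
      _ = m ^ (4 * g + 167) := by
        rw [← pow_mul, ← pow_mul]
        have : m * m ^ ((2 * g + 75) * 2) * m ^ (8 * 2) = m ^ (1 + (2 * g + 75) * 2 + 8 * 2) := by
          rw [pow_add, pow_add, pow_one]
        rw [this]
        congr 1
        ring
  have hpreR : 2 * (2 * (LL m : ℝ) + 1) ^ 2 * (4 * (10 * (g : ℝ)) + 3) ^ 2 ≤ (m : ℝ) ^ (4 * g + 167) := by
    exact_mod_cast hpre
  -- the small factor
  set x : ℝ := 2 * (4 * (10 * (g : ℝ)) + 3) * q with hx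
  have hx0 : 0 ≤ x := by positivity
  have hgR : (g : ℝ) = 4 * m * l := by
    rw [hgg]
    push_cast
    ring
  have hx1 : x ≤ 344 * l / m := by
    have h5 : 2 * (4 * (10 * (g : ℝ)) + 3) ≤ 86 * g := by
      have : (168 : ℝ) ≤ g := by exact_mod_cast hg1
      linarith
    calc x ≤ 86 * g * (1 / (m : ℝ) ^ 2) := mul_le_mul h5 hq hq0 (by positivity)
      _ = 344 * l / m := by
        rw [hgR]
        field_simp
        ring
  have hx2 : x ^ 2 ≤ 1 / m := by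
    have h5 : x ^ 2 ≤ (344 * l / m) ^ 2 := pow_le_pow_left₀ hx0 hx1 2
    have h6 : ((344 * l / m : ℝ)) ^ 2 = 118336 * (l : ℝ) ^ 2 / m ^ 2 := by
      rw [div_pow, mul_pow]
      norm_num
    have h7 : (118336 : ℝ) * (l : ℝ) ^ 2 ≤ m := by exact_mod_cast hsm
    rw [h6] at h5
    refine h5.trans ?_
    rw [div_le_div_iff₀ (by positivity) hm0]
    nlinarith
  have hxle : x ≤ 1 := by
    by_contra h
    push Not at h
    have h5 : 1 < x ^ 2 := by nlinarith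
    have h6 : 1 / (m : ℝ) ≤ 1 := by
      rw [div_le_one hm0]
      exact hmR
    linarith
  have hxp : x ^ (10 * g + 1) ≤ (1 / (m : ℝ)) ^ (5 * g) := by
    calc x ^ (10 * g + 1) ≤ x ^ (10 * g) := pow_le_pow_of_le_one hx0 hxle (by omega)
      _ = (x ^ 2) ^ (5 * g) := by
        rw [← pow_mul]
        congr 1
        ring
      _ ≤ (1 / (m : ℝ)) ^ (5 * g) := pow_le_pow_left₀ (by positivity) hx2 _
  have hfin : (m : ℝ) ^ (4 * g + 167) * (1 / (m : ℝ)) ^ (5 * g) ≤ 1 / m := by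
    rw [one_div_pow, mul_one_div, div_le_div_iff₀ (by positivity) hm0, one_mul, ← pow_succ]
    exact pow_le_pow_right₀ hmR (by omega)
  have h9 : (1 : ℝ) / m ≤ θ := by
    have h10 : (m₁ : ℝ) ≤ m := by exact_mod_cast hm1
    rw [div_le_iff₀ (by positivity)]
    rw [div_lt_iff₀ hθ] at hm₁
    nlinarith
  calc 2 * (2 * (LL m : ℝ) + 1) ^ 2 * (4 * (10 * (g : ℝ)) + 3) ^ 2 * x ^ (10 * g + 1)
      ≤ (m : ℝ) ^ (4 * g + 167) * (1 / (m : ℝ)) ^ (5 * g) :=
        mul_le_mul hpreR hxp (by positivity) (by positivity)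
    _ ≤ θ := hfin.trans h9

end Pool.Agent.T5h70.TT.AS2
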