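import Pool.Agent.T5h70.TT.Stm

/-! AS3: asymptotics (helper11). -/

set_option autoImplicit false
set_option linter.all false

namespace Pool.Agent.T5h70.TT.AS3

open Pool.Agent.T5h70.TT

theorem lam_pos {m : ℕ} (hm : 2 ≤ m) : 1 ≤ Nat.clog 2 m := Nat.clog_pos (by norm_num) hm

theorem t_AS3 : S_AS3 := by
  intro θ hθ
  obtain ⟨m₁, hm₁⟩ := exists_nat_gt (1 / θ)
  refine ⟨max 2 m₁, fun m hm => ?_⟩
  have hm2 : 2 ≤ m := (le_max_left _ _).trans hm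
  have hmm : m₁ ≤ m := (le_max_right _ _).trans hm
  have hlam := lam_pos hm2
  set g := gg m with hg
  have hg1 : 1 ≤ g := by
    rw [hg, gg]
    have : 1 ≤ m := by omega
    have h1 := Nat.mul_le_mul this hlam
    nlinarith
  have hJ : 4 * g * m ≤ 2 ^ JJ m := by
    unfold JJ
    rw [← hg]
    exact Nat.le_pow_clog (by norm_num) _
  -- m ^ (2 g) ≤ 2 ^ (2 g m)
  have h1 : (m : ℝ) ^ (2 * g) ≤ 2 ^ (2 * g * m) := by
    have h2 : m ≤ 2 ^ m := Nat.lt_two_pow_self.le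
    have h3 : (m : ℝ) ≤ 2 ^ m := by exact_mod_cast h2
    calc (m : ℝ) ^ (2 * g) ≤ (2 ^ m) ^ (2 * g) := pow_le_pow_left₀ (by positivity) h3 _
      _ = 2 ^ (2 * g * m) := by rw [← pow_mul]; ring_nf
  have h4 : ((1 : ℝ) / 2) ^ (2 ^ JJ m) ≤ (1 / 2) ^ (4 * g * m) :=
    pow_le_pow_of_le_one (by norm_num) (by norm_num) hJ
  have h5 : ((m : ℝ) ^ g) ^ 2 = (m : ℝ) ^ (2 * g) := by
    rw [← pow_mul]
    ring_nf
  have h6 : (2 : ℝ) ^ (2 * g * m) * (1 / 2) ^ (4 * g * m) = (1 / 2) ^ (2 * g * m) := by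
    have e1 : 4 * g * m = 2 * g * m + 2 * g * m := by ring
    rw [e1, pow_add, ← mul_assoc, ← mul_pow]
    norm_num
  have h7 : ((1 : ℝ) / 2) ^ (2 * g * m) ≤ (1 / 2) ^ m := by
    refine pow_le_pow_of_le_one (by norm_num) (by norm_num) ?_
    nlinarith
  have h8 : ((1 : ℝ) / 2) ^ m ≤ 1 / m := by
    have h2 : m ≤ 2 ^ m := Nat.lt_two_pow_self.le
    have h3 : (m : ℝ) ≤ 2 ^ m := by exact_mod_cast h2
    rw [one_div_pow]
    exact one_div_le_one_div_of_le (by positivity) h3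
  have h9 : (1 : ℝ) / m ≤ θ := by
    have h10 : (m₁ : ℝ) ≤ m := by exact_mod_cast hmm
    rw [div_le_iff₀ (by positivity)]
    rw [div_lt_iff₀ hθ] at hm₁
    nlinarith
  have h11 : (m : ℝ) ^ (2 * g) * (1 / 2) ^ (2 ^ JJ m) ≤ θ := by
    calc (m : ℝ) ^ (2 * g) * (1 / 2) ^ (2 ^ JJ m) ≤ 2 ^ (2 * g * m) * (1 / 2) ^ (4 * g * m) :=
          mul_le_mul h1 h4 (by positivity) (by positivity)
      _ = (1 / 2) ^ (2 * g * m) := h6
      _ ≤ θ := h7.trans (h8.trans h9)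
  rw [h5]
  have h12 : 0 ≤ (m : ℝ) ^ (2 * g) * (1 / 2) ^ (2 ^ JJ m) := by positivity
  calc 9 * (m : ℝ) ^ (2 * g) * (1 / 16 ^ 4 * (1 / 2) ^ (2 ^ JJ m))
      = (9 / 16 ^ 4) * ((m : ℝ) ^ (2 * g) * (1 / 2) ^ (2 ^ JJ m)) := by ring
    _ ≤ 1 * ((m : ℝ) ^ (2 * g) * (1 / 2) ^ (2 ^ JJ m)) :=
        mul_le_mul_of_nonneg_right (by norm_num) h12
    _ ≤ θ := by linarith

end Pool.Agent.T5h70.TT.AS3
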