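import Pool.Agent.T5h70.TT.Stm

/-! AS4: asymptotics (helper11). -/

set_option autoImplicit false
set_option linter.all false

namespace Pool.Agent.T5h70.TT.AS4

open Pool.Agent.T5h70.TT Filter Topology

theorem lam_pos {m : ℕ} (hm : 2 ≤ m) : 1 ≤ Nat.clog 2 m := Nat.clog_pos (by norm_num) hm

/-- powers of the logarithm are small -/
theorem log_small (C k : ℕ) : ∃ m₀ : ℕ, 2 ≤ m₀ ∧ ∀ m : ℕ, m₀ ≤ m →
    C * (Nat.clog 2 m) ^ k ≤ m := by
  have h1 := tendsto_pow_const_div_const_pow_of_one_lt k (by norm_num : (1 : ℝ) < 2)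
  have h2 : ∀ᶠ n : ℕ in atTop, (n : ℝ) ^ k / 2 ^ n < 1 / (2 * (C + 1)) :=
    h1.eventually_lt_const (by positivity)
  obtain ⟨n₀, hn₀⟩ := eventually_atTop.1 h2
  refine ⟨max 2 (2 ^ n₀), le_max_left _ _, fun m hm => ?_⟩
  have hm2 : 2 ≤ m := (le_max_left _ _).trans hm
  have hmm : 2 ^ n₀ ≤ m := (le_max_right _ _).trans hm
  have hn : n₀ ≤ Nat.clog 2 m := by
    have := Nat.clog_mono_right 2 hmm
    rwa [Nat.clog_pow 2 n₀ (by norm_num)] at this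
  have h3 := hn₀ _ hn
  have h4 := Nat.pow_pred_clog_lt_self (by norm_num : 1 < 2) (by omega : 1 < m)
  have h5 : 2 ^ (Nat.clog 2 m) ≤ 2 * m := by
    have h6 := lam_pos hm2
    have h7 : Nat.clog 2 m = (Nat.clog 2 m).pred + 1 := (Nat.succ_pred_eq_of_pos h6).symm
    rw [h7, pow_succ]
    omega
  set l := Nat.clog 2 m with hl
  rw [div_lt_div_iff₀ (by positivity) (by positivity)] at h3
  have h8 : ((2 : ℝ)) ^ l ≤ 2 * m := by exact_mod_cast h5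
  have h9 : ((C : ℝ)) * (l : ℝ) ^ k ≤ m := by
    have : 0 ≤ (l : ℝ) ^ k := by positivity
    nlinarith
  exact_mod_cast h9

theorem t_AS4 : S_AS4 := by
  intro θ hθ
  obtain ⟨m₁, hm₁⟩ := exists_nat_gt (2 / θ)
  obtain ⟨m₂, hm₂2, hm₂⟩ := log_small 1176 1
  refine ⟨max m₁ m₂, fun m hm p q hp1 hp2 hq0 hq => ?_⟩
  have hm1 : m₁ ≤ m := (le_max_left _ _).trans hm
  have hmm2 : m₂ ≤ m := (le_max_right _ _).trans hm
  have hm2 : 2 ≤ m := hm₂2.trans hmm2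
  have hlam := lam_pos hm2
  have hsm := hm₂ m hmm2
  rw [pow_one] at hsm
  set l := Nat.clog 2 m with hl
  have hgg : gg m = 4 * m * l := rfl
  set g := gg m with hg
  have hm0 : (0 : ℝ) < m := by
    have : 0 < m := by omega
    exact_mod_cast this
  have hm2' : (2 : ℝ) ≤ m := by exact_mod_cast hm2
  have hp0 : 0 < p := lt_of_lt_of_le (by positivity) hp1
  -- the power of `1 - q`
  set n := m ^ 2 / 2 with hn
  have hnm : 2 * n ≤ m ^ 2 := Nat.mul_div_le _ _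
  have hnm2 : m ^ 2 ≤ 3 * n := by
    have h1 : 4 ≤ m ^ 2 := by nlinarith
    omega
  have hq1 : q ≤ 1 := by
    refine hq.trans ?_
    rw [div_le_one (by positivity)]
    nlinarith
  have hqn : (n : ℝ) * q ≤ 1 / 2 := by
    have h1 : (2 : ℝ) * n ≤ (m : ℝ) ^ 2 := by exact_mod_cast hnm
    have h2 : q * (m : ℝ) ^ 2 ≤ 1 := by
      rwa [le_div_iff₀ (by positivity)] at hq
    nlinarith
  have hhalf : (1 : ℝ) / 2 ≤ (1 - q) ^ n := by
    have h1 := one_add_mul_le_pow (a := -q) (by linarith) n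
    have h2 : 1 + (n : ℝ) * -q = 1 - n * q := by ring
    have h3 : (1 + -q) = 1 - q := by ring
    rw [h2, h3] at h1
    linarith
  have h1q : 0 ≤ 1 - q := by linarith
  have h1q' : 1 - q ≤ 1 := by linarith
  have hN : (6 * g + 1) ^ 2 ≤ 3 * n * (784 * l ^ 2) := by
    have hg1 : 1 ≤ g := by
      rw [hgg]
      have : 1 ≤ m := by omega
      nlinarith [Nat.mul_le_mul this hlam]
    have h1 : (6 * g + 1) ^ 2 ≤ (7 * g) ^ 2 := Nat.pow_le_pow_left (by omega) 2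
    have h2 : (7 * g) ^ 2 = m ^ 2 * (784 * l ^ 2) := by
      rw [hgg]
      ring
    rw [h2] at h1
    exact h1.trans (Nat.mul_le_mul_right _ hnm2)
  have hpow : (1 / 2 : ℝ) ^ (3 * (784 * l ^ 2)) ≤ (1 - q) ^ ((6 * g + 1) ^ 2) := by
    calc (1 / 2 : ℝ) ^ (3 * (784 * l ^ 2)) ≤ ((1 - q) ^ n) ^ (3 * (784 * l ^ 2)) :=
          pow_le_pow_left₀ (by norm_num) hhalf _
      _ = (1 - q) ^ (3 * n * (784 * l ^ 2)) := by
          rw [← pow_mul]
          congr 1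
          ring
      _ ≤ (1 - q) ^ ((6 * g + 1) ^ 2) := pow_le_pow_of_le_one h1q h1q' hN
  -- the power of `p`
  have hpm : 1 ≤ p ^ g * (m : ℝ) ^ g := by
    rw [← mul_pow]
    refine one_le_pow₀ ?_
    rw [div_le_iff₀ hm0] at hp1
    exact hp1
  have hmg : ((m ^ g : ℕ) : ℝ) = (m : ℝ) ^ g := by push_cast; rfl
  have hkey : (2 : ℝ) ^ m / 2 ≤
      p ^ g * (1 - q) ^ ((6 * g + 1) ^ 2) / 2 * ((m ^ g : ℕ) : ℝ) ^ 2 := by
    rw [hmg]
    have e1 : p ^ g * (1 - q) ^ ((6 * g + 1) ^ 2) / 2 * ((m : ℝ) ^ g) ^ 2 =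
        (p ^ g * (m : ℝ) ^ g) * ((m : ℝ) ^ g * (1 - q) ^ ((6 * g + 1) ^ 2)) / 2 := by ring
    rw [e1]
    have h2 : (2 : ℝ) ^ g ≤ (m : ℝ) ^ g := pow_le_pow_left₀ (by norm_num) hm2' _
    have h3 : (2 : ℝ) ^ m ≤ (m : ℝ) ^ g * (1 - q) ^ ((6 * g + 1) ^ 2) := by
      have h4 : m + 3 * (784 * l ^ 2) ≤ g := by
        rw [hgg]
        have e2 : 3 * (784 * l ^ 2) = 2 * l * (1176 * l) := by ring
        rw [e2]
        have e3 : 2 * l * (1176 * l) ≤ 2 * l * m := Nat.mul_le_mul_left _ hsm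
        have e4 : m ≤ 2 * l * m := by
          have : 1 ≤ 2 * l := by omega
          nlinarith
        nlinarith
      have h5 : (2 : ℝ) ^ m * 2 ^ (3 * (784 * l ^ 2)) ≤ 2 ^ g := by
        rw [← pow_add]
        exact pow_le_pow_right₀ (by norm_num) h4
      have h6 : (2 : ℝ) ^ (3 * (784 * l ^ 2)) * (1 / 2) ^ (3 * (784 * l ^ 2)) = 1 := by
        rw [← mul_pow]
        norm_num
      calc (2 : ℝ) ^ m = (2 : ℝ) ^ m * (2 ^ (3 * (784 * l ^ 2)) * (1 / 2) ^ (3 * (784 * l ^ 2))) := by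
            rw [h6, mul_one]
        _ = ((2 : ℝ) ^ m * 2 ^ (3 * (784 * l ^ 2))) * (1 / 2) ^ (3 * (784 * l ^ 2)) := by ring
        _ ≤ (m : ℝ) ^ g * (1 - q) ^ ((6 * g + 1) ^ 2) :=
            mul_le_mul (h5.trans h2) hpow (by positivity) (by positivity)
    have h7 : 0 ≤ (m : ℝ) ^ g * (1 - q) ^ ((6 * g + 1) ^ 2) := by positivity
    have h8 : 1 * ((m : ℝ) ^ g * (1 - q) ^ ((6 * g + 1) ^ 2)) ≤
        (p ^ g * (m : ℝ) ^ g) * ((m : ℝ) ^ g * (1 - q) ^ ((6 * g + 1) ^ 2)) :=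
      mul_le_mul_of_nonneg_right hpm h7
    linarith
  set E := p ^ g * (1 - q) ^ ((6 * g + 1) ^ 2) / 2 * ((m ^ g : ℕ) : ℝ) ^ 2 with hE
  have hmE : (m : ℝ) / 2 ≤ E := by
    have h2 : m ≤ 2 ^ m := Nat.lt_two_pow_self.le
    have h3 : (m : ℝ) ≤ 2 ^ m := by exact_mod_cast h2
    linarith
  have hE0 : 0 < E := lt_of_lt_of_le (by positivity) hmE
  have h1 : Real.exp (-E) ≤ 1 / E := by
    rw [Real.exp_neg, ← one_div]
    refine one_div_le_one_div_of_le hE0 ?_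
    have := Real.add_one_le_exp E
    linarith
  refine h1.trans ?_
  rw [div_le_iff₀ hE0]
  have h10 : (m₁ : ℝ) ≤ m := by exact_mod_cast hm1
  rw [div_lt_iff₀ hθ] at hm₁
  have h11 : θ * ((m : ℝ) / 2) ≤ θ * E := mul_le_mul_of_nonneg_left hmE hθ.le
  nlinarith

end Pool.Agent.T5h70.TT.AS4
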