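import Pool.Agent.T5h70.TT.Stm

/-! Project TT, task CHN (helper85) -/

set_option autoImplicit false

namespace Pool.Agent.T5h70.TT.CHN

open Pool.Agent.T5h70.TT

theorem nr_rad {g J M ℓ : ℕ} (hℓ : 100 * g * (16 ^ J * M) + 104 * g ≤ ℓ) {z x : V}
    (h1 : 0 ≤ z.1) (h2 : z.1 < 16 ^ J * M) (h3 : 0 ≤ z.2) (h4 : z.2 < 16 ^ J * M)
    (hx : Nr (104 * g) x (cen g z)) : Nr ℓ x 0 := by
  have hℓ' : (100 : ℤ) * g * (16 ^ J * M) + 104 * g ≤ ℓ := by exact_mod_cast hℓ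
  have hg0 : (0 : ℤ) ≤ 100 * g := by positivity
  have a1 := mul_le_mul_of_nonneg_left h2.le hg0
  have a2 := mul_le_mul_of_nonneg_left h4.le hg0
  have b1 := mul_nonneg hg0 h1
  have b2 := mul_nonneg hg0 h3
  unfold Nr cen at hx
  unfold Nr
  simp only [abs_le] at hx
  obtain ⟨⟨c1, c2⟩, c3, c4⟩ := hx
  simp only [Prod.fst_zero, Prod.snd_zero, sub_zero, abs_le]
  refine ⟨⟨?_, ?_⟩, ?_, ?_⟩ <;> linarith

theorem env {σ : V → Fin 3} {D : Set V} {g J M ℓ : ℕ} (hg : 1 ≤ g)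
    (hℓ : 100 * g * (16 ^ J * M) + 104 * g ≤ ℓ)
    (hD : ∀ x ∈ D, σ x = 2 ∨ ∃ y z, y ≠ z ∧ σ y = 2 ∧ σ z = 2 ∧ Nr 2 y z ∧
      Nr (20 * g) x y ∧ Nr (20 * g) x z) {z : V}
    (h1 : 0 ≤ z.1) (h2 : z.1 < 16 ^ J * M) (h3 : 0 ≤ z.2) (h4 : z.2 < 16 ^ J * M)
    (hz : G0 g (cen g z) σ) : Env σ {x | Occ σ D ℓ x} (104 * g) (cen g z) := by
  have hg' : (1 : ℤ) ≤ g := by exact_mod_cast hg
  refine ⟨fun x hx hs => Occ.init x (nr_rad hℓ h1 h2 h3 h4 hx) hs, ?_⟩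
  intro x hx hs y hy w hw hyw hO hO'
  refine Occ.grow x y w (nr_rad hℓ h1 h2 h3 h4 hx) ?_ hy hw hyw hO hO'
  intro hxD
  rcases hD x hxD with h | ⟨a, b, hab, ha, hb, hn, hxa, hxb⟩
  · exact hs h
  · refine hab (hz a b ?_ ?_ ha hb hn)
    · unfold Nr at hx hxa ⊢
      simp only [abs_le] at hx hxa ⊢
      obtain ⟨⟨c1, c2⟩, c3, c4⟩ := hx
      obtain ⟨⟨d1, d2⟩, d3, d4⟩ := hxa
      refine ⟨⟨?_, ?_⟩, ?_, ?_⟩ <;> linarith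
    · unfold Nr at hx hxb ⊢
      simp only [abs_le] at hx hxb ⊢
      obtain ⟨⟨c1, c2⟩, c3, c4⟩ := hx
      obtain ⟨⟨d1, d2⟩, d3, d4⟩ := hxb
      refine ⟨⟨?_, ?_⟩, ?_, ?_⟩ <;> linarith

theorem clean_self {good : V → Prop} {J : ℕ} (hJ : 1 ≤ J) {x : V} (h : Clean good J x) :
    good x := by
  have := h 0 (by omega) x (by
    unfold Nr
    simp)
  exact this

theorem t_CHN (h1 : S_AL) (h2 : S_DOM) (h3 : S_GROW) (h4 : S_NUCF) (h5 : S_MSC) (h6 : S_SUPD) :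
    S_CHN := by
  intro σ g J M ℓ L hg hJ hM hℓ hL hB hs0 hGd hCl ⟨β, hβ1, hβ2, hβ3, hβ4, hN, hT⟩
  obtain ⟨D, hD1, hD2, hD3⟩ := h1 σ L (20 * g) (by positivity) hB
  have hg' : (1 : ℤ) ≤ g := by exact_mod_cast hg
  have hpt := h6.2.2.2.2 J β hJ
  have hp0 : par^[J] (0 : V) = 0 := by
    rw [h6.2.2.1]
    simp
  have hM' : (1 : ℤ) ≤ M := by exact_mod_cast hM
  have hR := h5 (fun z => Good g (cen g z) σ) J M hGd (tri J β) 0 (by rw [hpt]; exact hβ1)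
    (by rw [hpt]; exact hβ2) (by rw [hpt]; exact hβ3) (by rw [hpt]; exact hβ4)
    (by rw [hp0]; simp) (by rw [hp0]; simp only [Prod.fst_zero]; linarith) (by rw [hp0]; simp)
    (by rw [hp0]; simp only [Prod.snd_zero]; linarith) hT hCl
  have hU : 0 ≤ (tri J β).1 ∧ (tri J β).1 < 16 ^ J * M ∧ 0 ≤ (tri J β).2 ∧
      (tri J β).2 < 16 ^ J * M := by
    obtain ⟨e1, e2, e3, e4⟩ := (h6.2.2.1 J (tri J β) β).1 hpt
    have hp : (0 : ℤ) < 16 ^ J := by positivity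
    have i1 : (16 : ℤ) ^ J * (β.1 + 1) ≤ 16 ^ J * M := mul_le_mul_of_nonneg_left (by linarith) hp.le
    have i2 : (16 : ℤ) ^ J * (β.2 + 1) ≤ 16 ^ J * M := mul_le_mul_of_nonneg_left (by linarith) hp.le
    exact ⟨le_trans (mul_nonneg hp.le hβ1) e1, e2.trans_le i1, le_trans (mul_nonneg hp.le hβ3) e3,
      e4.trans_le i2⟩
  have hGt : Good g (cen g (tri J β)) σ := clean_self hJ hT
  have hst : ∀ x, Nr (3 * g) x (cen g (tri J β)) → σ x ≠ 2 → x ∈ {x | Occ σ D ℓ x} :=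
    fun x hx _ => h4 σ _ g _ hg (env hg hℓ hD3 hU.1 hU.2.1 hU.2.2.1 hU.2.2.2 hGt.1) hGt.2.2.1
      hN x hx
  have hfin : ∀ y : V, Rch (fun z => Good g (cen g z) σ)
      {z | 0 ≤ z.1 ∧ z.1 < 16 ^ J * M ∧ 0 ≤ z.2 ∧ z.2 < 16 ^ J * M} (tri J β) y →
      ∀ x, Nr (3 * g) x (cen g y) → σ x ≠ 2 → x ∈ {x | Occ σ D ℓ x} := by
    intro y hR
    unfold Rch at hR
    induction hR with
    | refl => exact hst
    | tail _ hbc ih =>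
      obtain ⟨hn, hgu, _, hu, _⟩ := hbc
      exact h3 σ _ g _ _ hg (env hg hℓ hD3 hu.1 hu.2.1 hu.2.2.1 hu.2.2.2 hgu.1) hgu.2.1
        hgu.2.2.1 hgu.2.2.2 hn ih
  refine h2 σ D ℓ L hD1 hD2 hL 0 (hfin 0 hR 0 ?_ hs0)
  unfold Nr cen
  simp

end Pool.Agent.T5h70.TT.CHN
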