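import Pool.Agent.T5h70.TT.Stm

/-! # Project TT, task CLD (helper7) -/

set_option autoImplicit false

namespace Pool.Agent.T5h70.TT.CLD

open Pool.Agent.T5h70.TT

lemma nr_finite (r : ℤ) (c : V) : {x : V | Nr r x c}.Finite := by
  apply Set.Finite.subset (s := Set.Icc (c.1 - r) (c.1 + r) ×ˢ Set.Icc (c.2 - r) (c.2 + r))
    ((Set.finite_Icc _ _).prod (Set.finite_Icc _ _))
  rintro x ⟨h1, h2⟩
  rw [abs_le] at h1 h2
  constructor
  · constructor <;> linarith [h1.1, h1.2]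
  · constructor <;> linarith [h2.1, h2.2]

theorem t_CLD (h1 : S_GDD) (h2 : S_SUPD) : S_CLD := by
  intro g F hD hI J
  obtain ⟨s1, s2, s3, s4, s5⟩ := h2
  refine ⟨fun x σ τ h hG j hj γ hγ => (h1 g F hD hI j γ).2 σ τ h (hG j hj γ hγ), fun x => ?_,
    fun hJ β σ τ h hG j hj γ hγ => (h1 g F hD hI j γ).1 σ τ (fun x hx => h x ?_) (hG j hj γ hγ)⟩
  · refine ⟨⋃ j ∈ Set.Iio J, ⋃ γ ∈ {γ : V | Nr 2 γ (par^[j] x)}, Sup g j γ,
      (Set.finite_Iio J).biUnion fun j _ => (nr_finite 2 _).biUnion fun γ _ => s1 g j γ, ?_⟩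
    intro σ τ h hG j hj γ hγ
    refine (h1 g F hD hI j γ).1 σ τ (fun y hy => h y ?_) (hG j hj γ hγ)
    exact Set.mem_biUnion hj (Set.mem_biUnion hγ hy)
  · obtain ⟨z, hz, hx⟩ := hx
    refine ⟨z, ?_, hx⟩
    obtain ⟨k, rfl⟩ : ∃ k, J = k + 1 := ⟨J - 1, by omega⟩
    obtain ⟨m, rfl⟩ : ∃ m, k = m + j := ⟨k - j, by omega⟩
    have e1 : Nr 2 (par^[m + j] z) (par^[m + j] (tri (m + j + 1) β)) := by
      rw [Function.iterate_add_apply, Function.iterate_add_apply, hz]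
      exact s4 m _ _ hγ
    have e2 : par^[m + j] (tri (m + j + 1) β) = (16 * β.1 + 8, 16 * β.2 + 8) := by
      rw [s3]
      unfold tri
      simp only [Nat.add_sub_cancel]
      have h : (0 : ℤ) < 16 ^ (m + j) := by positivity
      refine ⟨le_refl _, ?_, le_refl _, ?_⟩ <;> nlinarith
    rw [e2] at e1
    rw [Function.iterate_succ_apply']
    generalize par^[m + j] z = w at e1
    obtain ⟨f1, f2⟩ := e1
    rw [abs_le] at f1 f2
    simp only at f1 f2
    unfold par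
    refine Prod.ext ?_ ?_
    · simp only
      omega
    · simp only
      omega

end Pool.Agent.T5h70.TT.CLD
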