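import Pool.Agent.T5h70.TT.Stm

/-! # Project TT, task CLP (helper7) -/

set_option autoImplicit false

namespace Pool.Agent.T5h70.TT.CLP

open Pool.Agent.T5h70.TT MeasureTheory ProbabilityTheory

/-- the square of radius two -/
noncomputable def sq5 (c : V) : Finset V :=
  Finset.Icc (c.1 - 2) (c.1 + 2) ×ˢ Finset.Icc (c.2 - 2) (c.2 + 2)

lemma mem_sq5 (c γ : V) (h : Nr 2 γ c) : γ ∈ sq5 c := by
  unfold sq5
  rw [Finset.mem_product, Finset.mem_Icc, Finset.mem_Icc]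
  obtain ⟨h1, h2⟩ := h
  rw [abs_le] at h1 h2
  omega

lemma card_sq5 (c : V) : (sq5 c).card = 25 := by
  unfold sq5
  rw [Finset.card_product, Int.card_Icc, Int.card_Icc]
  have e1 : c.1 + 2 + 1 - (c.1 - 2) = 5 := by ring
  have e2 : c.2 + 2 + 1 - (c.2 - 2) = 5 := by ring
  rw [e1, e2]
  rfl

lemma sum_le (X : ℝ) (h0 : 0 ≤ X) (h1 : X ≤ 1 / 2) (J : ℕ) :
    ∑ j ∈ Finset.range J, X ^ (2 ^ j) ≤ 2 * X := by
  have h2 : ∑ j ∈ Finset.range J, X ^ (2 ^ j) ≤ ∑ j ∈ Finset.range J, X * X ^ j := by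
    refine Finset.sum_le_sum fun j _ => ?_
    rw [← pow_succ']
    exact pow_le_pow_of_le_one h0 (by linarith) (Nat.lt_two_pow_self)
  refine h2.trans ?_
  rw [← Finset.mul_sum, mul_comm 2 X]
  refine mul_le_mul_of_nonneg_left ?_ h0
  have h3 : ∑ j ∈ Finset.range J, X ^ j ≤ (1 - X)⁻¹ := by
    rw [← tsum_geometric_of_lt_one h0 (by linarith)]
    exact (summable_geometric_of_lt_one h0 (by linarith)).sum_le_tsum _ fun i _ => by positivity
  refine h3.trans ?_
  rw [inv_le_comm₀ (by linarith) (by norm_num)]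
  linarith

theorem t_CLP (h : S_GDP) : S_CLP := by
  intro μ p q hμ g δ hg hδ hδ1 J x
  have hpr := hμ.prob
  have hgd := h μ p q hμ g δ hg hδ
  have hδ0 : 0 ≤ δ := measureReal_nonneg.trans (hδ 0)
  set X : ℝ := 16 ^ 4 * δ with hX
  have hX0 : 0 ≤ X := by positivity
  let E : ℕ → V → Set (V → Fin 3) := fun j γ => {σ | ¬ Gd (fun z => Good g (cen g z) σ) j γ}
  have hsub : {σ | ¬ Clean (fun z => Good g (cen g z) σ) J x} ⊆
      ⋃ j ∈ Finset.range J, ⋃ γ ∈ sq5 (par^[j] x), E j γ := by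
    intro σ hσ
    have hσ' : ¬ ∀ j < J, ∀ γ, Nr 2 γ (par^[j] x) → Gd (fun z => Good g (cen g z) σ) j γ := hσ
    simp only [not_forall] at hσ'
    obtain ⟨j, hj, γ, hγ, hc⟩ := hσ'
    refine Set.mem_biUnion (x := j) ?_ (Set.mem_biUnion (x := γ) ?_ hc)
    · show j ∈ Finset.range J
      exact Finset.mem_range.2 hj
    · exact mem_sq5 _ _ hγ
  calc μ.real {σ | ¬ Clean (fun z => Good g (cen g z) σ) J x}
      ≤ μ.real (⋃ j ∈ Finset.range J, ⋃ γ ∈ sq5 (par^[j] x), E j γ) := measureReal_mono hsub (measure_ne_top μ _)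
    _ ≤ ∑ j ∈ Finset.range J, μ.real (⋃ γ ∈ sq5 (par^[j] x), E j γ) :=
        measureReal_biUnion_finset_le _ _
    _ ≤ ∑ j ∈ Finset.range J, 25 * (1 / 16 ^ 4 * X ^ (2 ^ j)) := by
        refine Finset.sum_le_sum fun j _ => ?_
        refine (measureReal_biUnion_finset_le _ _).trans ?_
        refine (Finset.sum_le_sum fun γ _ => hgd j γ).trans ?_
        rw [Finset.sum_const, card_sq5, nsmul_eq_mul]
        norm_num
    _ = 25 / 16 ^ 4 * ∑ j ∈ Finset.range J, X ^ (2 ^ j) := by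
        rw [Finset.mul_sum]
        refine Finset.sum_congr rfl fun j _ => ?_
        ring
    _ ≤ 25 / 16 ^ 4 * (2 * X) :=
        mul_le_mul_of_nonneg_left (sum_le X hX0 hδ1 J) (by norm_num)
    _ = 50 * δ := by
        rw [hX]
        ring

end Pool.Agent.T5h70.TT.CLP
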