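import Pool.Agent.T5h70.TT.Stm

/-! COL -/

set_option autoImplicit false

namespace Pool.Agent.T5h70.TT.COL

open Pool.Agent.T5h70.TT

theorem mem_up (u v : ℤ) : ((u, v + 1) : V) ∈ nbrs (u, v) := by simp [nbrs]
theorem mem_down (u v : ℤ) : ((u, v - 1) : V) ∈ nbrs (u, v) := by simp [nbrs]
theorem mem_left (u v : ℤ) : ((u - 1, v) : V) ∈ nbrs (u, v) := by simp [nbrs]

/-- monotone chains -/
theorem chain (f : ℕ → ℤ) (N : ℕ) (h : ∀ i < N, f i ≤ f (i + 1)) :
    ∀ i j : ℕ, i ≤ j → j ≤ N → f i ≤ f j := by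
  intro i j hij
  induction j, hij using Nat.le_induction with
  | base => intro _; exact le_rfl
  | succ j hj ih =>
    intro hN
    exact (ih (by omega)).trans (h j (by omega))

/-- spread in a column -/
theorem spread (O T : Set V) (u H : ℤ)
    (hgr : ∀ v : ℤ, 0 ≤ v → v ≤ H → (u, v) ∉ T → ∀ y ∈ nbrs ((u, v) : V), ∀ z ∈ nbrs ((u, v) : V),
      y ≠ z → y ∈ O → z ∈ O → (u, v) ∈ O)
    (A B w : ℤ) (hA : 0 ≤ A) (hB : B ≤ H) (hw1 : A ≤ w) (hw2 : w ≤ B) (hw : (u, w) ∈ O)
    (h1 : ∀ v, A ≤ v → v ≤ B → (u - 1, v) ∈ O) (h2 : ∀ v, A ≤ v → v ≤ B → (u, v) ∉ T) :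
    ∀ v, A ≤ v → v ≤ B → (u, v) ∈ O := by
  have hup : ∀ k : ℕ, w + k ≤ B → (u, w + k) ∈ O := by
    intro k
    induction k with
    | zero => intro _; simpa using hw
    | succ k ih =>
      intro hk
      push_cast at hk ⊢
      have h3 := ih (by omega)
      have h4 := mem_down u (w + (k + 1))
      have h5 : w + ((k : ℤ) + 1) - 1 = w + k := by ring
      rw [h5] at h4
      refine hgr _ (by omega) (by omega) (h2 _ (by omega) (by omega)) _ (mem_left _ _) _ h4 ?_
        (h1 _ (by omega) (by omega)) h3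
      intro h
      have := congrArg Prod.fst h
      simp at this
  have hdn : ∀ k : ℕ, A ≤ w - k → (u, w - k) ∈ O := by
    intro k
    induction k with
    | zero => intro _; simpa using hw
    | succ k ih =>
      intro hk
      push_cast at hk ⊢
      have h3 := ih (by omega)
      have h4 := mem_up u (w - (k + 1))
      have h5 : w - ((k : ℤ) + 1) + 1 = w - k := by ring
      rw [h5] at h4
      refine hgr _ (by omega) (by omega) (h2 _ (by omega) (by omega)) _ (mem_left _ _) _ h4 ?_
        (h1 _ (by omega) (by omega)) h3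
      intro h
      have := congrArg Prod.fst h
      simp at this
  intro v hv1 hv2
  rcases le_total w v with h | h
  · have := hup (v - w).toNat (by omega)
    have h3 : w + ((v - w).toNat : ℤ) = v := by omega
    rwa [h3] at this
  · have := hdn (w - v).toNat (by omega)
    have h3 : w - ((w - v).toNat : ℤ) = v := by omega
    rwa [h3] at this

theorem t_COL : S_COL := by
  intro O T I N g H t b hg hH hgr hI h0 hT hseg ht0 htm htN hct hb0 hbm hbN hcb
  have htc := chain t N htm
  have hbc := chain b N hbm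
  intro i
  induction i with
  | zero =>
    intro _ v hv1 hv2 hv
    rw [ht0] at hv2
    rw [hb0] at hv1
    exact h0 v hv1 (by omega) hv
  | succ i ih =>
    intro hiN v hv1 hv2 hv
    push_cast at hv ⊢
    have ihv := ih (by omega)
    have t1 : 0 ≤ t i := by rw [← ht0]; exact htc 0 i (by omega) (by omega)
    have t2 : t i ≤ t (i + 1) := htm i (by omega)
    have t3 : t (i + 1) ≤ g := (htc (i + 1) N hiN le_rfl).trans htN
    have b1 : 0 ≤ b i := by rw [← hb0]; exact hbc 0 i (by omega) (by omega)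
    have b2 : b i ≤ b (i + 1) := hbm i (by omega)
    have b3 : b (i + 1) ≤ g := (hbc (i + 1) N hiN le_rfl).trans hbN
    have hg' : (1 : ℤ) ≤ g := by exact_mod_cast hg
    have hi1 : (1 : ℤ) ≤ (i : ℤ) + 1 := by omega
    have hi2 : (i : ℤ) + 1 ≤ N := by exact_mod_cast hiN
    have hgr' : ∀ v : ℤ, 0 ≤ v → v ≤ H → ((i : ℤ) + 1, v) ∉ T →
        ∀ y ∈ nbrs (((i : ℤ) + 1, v) : V), ∀ z ∈ nbrs (((i : ℤ) + 1, v) : V),
        y ≠ z → y ∈ O → z ∈ O → ((i : ℤ) + 1, v) ∈ O :=
      fun v h1 h2 h3 => hgr _ hi1 hi2 h1 h2 h3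
    have hI' : ∀ v : ℤ, 0 ≤ v → v ≤ H → ((i : ℤ) + 1, v) ∈ I → ((i : ℤ) + 1, v) ∈ O :=
      fun v h1 h2 h3 => hI _ hi1 hi2 h1 h2 h3
    have hsp := spread O T ((i : ℤ) + 1) H hgr'
    have hcol : ∀ v, b i ≤ v → v ≤ H - t i → ((i : ℤ), v) ∉ T → ((i : ℤ) + 1 - 1, v) ∈ O := by
      intro v h1 h2 h3
      rw [add_sub_cancel_right]
      exact ihv v h1 h2 h3
    by_cases hob : ∃ y₀, b i ≤ y₀ ∧ y₀ ≤ H - t i ∧ (((i : ℤ), y₀) ∈ T ∨ ((i : ℤ) + 1, y₀) ∈ T)
    · obtain ⟨y₀, hy1, hy2, hy⟩ := hob
      -- there is no other obstacle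
      have hno : ∀ v, 0 ≤ v → v ≤ H → v ≠ y₀ → ((i : ℤ), v) ∉ T ∧ ((i : ℤ) + 1, v) ∉ T := by
        intro w hw1 hw2 hw
        have key : ∀ x ∈ T, (x.1 = (i : ℤ) ∨ x.1 = (i : ℤ) + 1) → x.2 = w → False := by
          intro x hx hx1 hx2
          rcases hy with hy | hy
          · have h := hT x hx _ hy (by omega) (by omega) (by omega) (by omega) (by simp)
              (by simp only; omega) (by simp only; omega) (by simp only; omega)
              (by simp only; rw [abs_le]; omega)
            apply hw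
            rw [← hx2, h]
          · have h := hT x hx _ hy (by omega) (by omega) (by omega) (by omega) (by simp only; omega)
              (by simp only; omega) (by simp only; omega) (by simp only; omega)
              (by simp only; rw [abs_le]; omega)
            apply hw
            rw [← hx2, h]
        exact ⟨fun h => key _ h (Or.inl rfl) rfl, fun h => key _ h (Or.inr rfl) rfl⟩
      have hU : y₀ ≤ H - t (i + 1) →
          (∃ w, y₀ + 1 ≤ w ∧ w ≤ H - t i) ∧ ∀ w, y₀ + 1 ≤ w → w ≤ H - t i → ((i : ℤ) + 1, w) ∈ O := by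
        intro hy3
        have hex : ∃ w, y₀ + 1 ≤ w ∧ w ≤ H - t i ∧ ((i : ℤ) + 1, w) ∈ I := by
          by_cases h2g : H - y₀ ≤ 2 * g
          · by_contra hcon
            push Not at hcon
            have h1 := hct i (by omega) (H - y₀) (by omega) h2g (by
              rw [sub_sub_cancel]
              exact hy.symm) (fun y' h3 h4 => hcon _ (by omega) (by omega))
            omega
          · obtain ⟨k, hk1, hk2, hk3⟩ := hseg ((i : ℤ) + 1) (y₀ + 1) hi1 hi2 (by omega) (by omega)
            exact ⟨_, by omega, by omega, hk3⟩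
        obtain ⟨w, hw1, hw2, hw3⟩ := hex
        refine ⟨⟨w, hw1, hw2⟩, ?_⟩
        exact hsp (y₀ + 1) (H - t i) w (by omega) (by omega) hw1 hw2 (hI' w (by omega) (by omega) hw3)
          (fun v h1 h2 => hcol v (by omega) h2 (hno v (by omega) (by omega) (by omega)).1)
          (fun v h1 h2 => (hno v (by omega) (by omega) (by omega)).2)
      have hD : b (i + 1) ≤ y₀ →
          (∃ w, b i ≤ w ∧ w ≤ y₀ - 1) ∧ ∀ w, b i ≤ w → w ≤ y₀ - 1 → ((i : ℤ) + 1, w) ∈ O := by
        intro hy3
        have hex : ∃ w, b i ≤ w ∧ w ≤ y₀ - 1 ∧ ((i : ℤ) + 1, w) ∈ I := by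
          by_cases h2g : y₀ ≤ 2 * g
          · by_contra hcon
            push Not at hcon
            have h1 := hcb i (by omega) y₀ (by omega) h2g hy.symm
              (fun y' h3 h4 => hcon _ (by omega) (by omega))
            omega
          · obtain ⟨k, hk1, hk2, hk3⟩ := hseg ((i : ℤ) + 1) (y₀ - g) hi1 hi2 (by omega) (by omega)
            exact ⟨_, by omega, by omega, hk3⟩
        obtain ⟨w, hw1, hw2, hw3⟩ := hex
        refine ⟨⟨w, hw1, hw2⟩, ?_⟩
        exact hsp (b i) (y₀ - 1) w (by omega) (by omega) hw1 hw2 (hI' w (by omega) (by omega) hw3)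
          (fun v h1 h2 => hcol v (by omega) (by omega) (hno v (by omega) (by omega) (by omega)).1)
          (fun v h1 h2 => (hno v (by omega) (by omega) (by omega)).2)
      rcases lt_trichotomy v y₀ with h | h | h
      · exact (hD (by omega)).2 v (by omega) (by omega)
      · subst h
        obtain ⟨⟨w1, hw1, hw1'⟩, hU'⟩ := hU (by omega)
        obtain ⟨⟨w2, hw2, hw2'⟩, hD'⟩ := hD (by omega)
        refine hgr' v (by omega) (by omega) hv _ (mem_up _ _) _ (mem_down _ _) ?_
          (hU' _ (by omega) (by omega)) (hD' _ (by omega) (by omega))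
        intro h
        have := congrArg Prod.snd h
        simp only at this
        omega
      · exact (hU (by omega)).2 v (by omega) (by omega)
    · push Not at hob
      obtain ⟨k, hk1, hk2, hk3⟩ := hseg ((i : ℤ) + 1) (b i) hi1 hi2 b1 (by omega)
      exact hsp (b i) (H - t i) (b i + k) b1 (by omega) (by omega) (by omega)
        (hI' _ (by omega) (by omega) hk3)
        (fun v h1 h2 => hcol v h1 h2 (hob v h1 h2).1) (fun v h1 h2 => (hob v h1 h2).2) v (by omega)
        (by omega)

end Pool.Agent.T5h70.TT.COL
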