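import Pool.Agent.T5h70.TT.Stm

/-! COLF -/

set_option autoImplicit false

namespace Pool.Agent.T5h70.TT.COLF

open Pool.Agent.T5h70.TT

theorem fr_inj {E : V × V} (hE : E ∈ frs) (c : V) (u v u' v' : ℤ)
    (h : fr c E u v = fr c E u' v') : u = u' ∧ v = v' := by
  have h1 := congrArg Prod.fst h
  have h2 := congrArg Prod.snd h
  simp only [frs, Finset.mem_insert, Finset.mem_singleton] at hE
  rcases hE with rfl | rfl | rfl | rfl | rfl | rfl | rfl | rfl <;> simp only [fr] at h1 h2 <;>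
    constructor <;> omega

theorem fr_Nr {E : V × V} (hE : E ∈ frs) (c : V) (u v R : ℤ) (h1 : |u| ≤ R) (h2 : |v| ≤ R) :
    Nr R (fr c E u v) c := by
  rw [abs_le] at h1 h2
  simp only [frs, Finset.mem_insert, Finset.mem_singleton] at hE
  rcases hE with rfl | rfl | rfl | rfl | rfl | rfl | rfl | rfl <;> simp only [fr, Nr, abs_le] <;>
    refine ⟨⟨?_, ?_⟩, ⟨?_, ?_⟩⟩ <;> omega

theorem fr_nbrs {E : V × V} (hE : E ∈ frs) (c : V) (u v u' v' : ℤ)
    (h : ((u', v') : V) ∈ nbrs (u, v)) : fr c E u' v' ∈ nbrs (fr c E u v) := by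
  simp only [nbrs, Finset.mem_insert, Finset.mem_singleton, Prod.mk.injEq] at h ⊢
  simp only [frs, Finset.mem_insert, Finset.mem_singleton] at hE
  rcases h with ⟨rfl, rfl⟩ | ⟨rfl, rfl⟩ | ⟨rfl, rfl⟩ | ⟨rfl, rfl⟩ <;>
    rcases hE with rfl | rfl | rfl | rfl | rfl | rfl | rfl | rfl <;>
    simp only [fr, Prod.mk.injEq] <;> omega

theorem fr_near {E : V × V} (hE : E ∈ frs) (c : V) (u v u' v' : ℤ) (h : |u - u'| ≤ 1) :
    |(fr c E u v).1 - (fr c E u' v').1| ≤ 1 ∨ |(fr c E u v).2 - (fr c E u' v').2| ≤ 1 := by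
  rw [abs_le] at h
  simp only [frs, Finset.mem_insert, Finset.mem_singleton] at hE
  rcases hE with rfl | rfl | rfl | rfl | rfl | rfl | rfl | rfl <;> simp only [fr, abs_le] <;> omega

theorem fr_seg {σ : V → Fin 3} {g : ℕ} {c : V} (hG : G2 g c σ) {E : V × V} (hE : E ∈ frs) (u v : ℤ)
    (hu : |u| ≤ 104 * g) (hv : |v| ≤ 104 * g) (hv' : |v + g - 1| ≤ 104 * g) :
    ∃ k : ℤ, 0 ≤ k ∧ k < g ∧ σ (fr c E u (v + k)) = 1 := by
  rw [abs_le] at hu hv hv'
  obtain ⟨h1, h2⟩ := hG
  have up : ∀ x y : ℤ, Nr (104 * g) (x, y) c → Nr (104 * g) (x, y + g - 1) c →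
      ∃ k : ℤ, 0 ≤ k ∧ k < g ∧ σ (x, y + k) = 1 := h2
  have dn : ∀ x y : ℤ, Nr (104 * g) (x, y) c → Nr (104 * g) (x, y - (g - 1)) c →
      ∃ k : ℤ, 0 ≤ k ∧ k < g ∧ σ (x, y - k) = 1 := by
    intro x y h3 h4
    obtain ⟨k, hk1, hk2, hk3⟩ := h2 x (y - (g - 1)) h4 (by
      have : y - ((g : ℤ) - 1) + g - 1 = y := by ring
      rw [this]; exact h3)
    refine ⟨g - 1 - k, by omega, by omega, ?_⟩
    have : y - ((g : ℤ) - 1 - k) = y - (g - 1) + k := by ring
    rw [this]; exact hk3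
  have rt : ∀ x y : ℤ, Nr (104 * g) (x, y) c → Nr (104 * g) (x + g - 1, y) c →
      ∃ k : ℤ, 0 ≤ k ∧ k < g ∧ σ (x + k, y) = 1 := h1
  have lf : ∀ x y : ℤ, Nr (104 * g) (x, y) c → Nr (104 * g) (x - (g - 1), y) c →
      ∃ k : ℤ, 0 ≤ k ∧ k < g ∧ σ (x - k, y) = 1 := by
    intro x y h3 h4
    obtain ⟨k, hk1, hk2, hk3⟩ := h1 (x - (g - 1)) y h4 (by
      have : x - ((g : ℤ) - 1) + g - 1 = x := by ring
      rw [this]; exact h3)
    refine ⟨g - 1 - k, by omega, by omega, ?_⟩
    have : x - ((g : ℤ) - 1 - k) = x - (g - 1) + k := by ring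
    rw [this]; exact hk3
  have hn : ∀ a b : ℤ, -(104 * (g : ℤ)) ≤ a - c.1 → a - c.1 ≤ 104 * g → -(104 * (g : ℤ)) ≤ b - c.2 →
      b - c.2 ≤ 104 * g → Nr (104 * g) (a, b) c := by
    intro a b h3 h4 h5 h6
    exact ⟨abs_le.2 ⟨h3, h4⟩, abs_le.2 ⟨h5, h6⟩⟩
  simp only [frs, Finset.mem_insert, Finset.mem_singleton] at hE
  rcases hE with rfl | rfl | rfl | rfl | rfl | rfl | rfl | rfl
  · obtain ⟨k, hk1, hk2, hk3⟩ := up (c.1 + u) (c.2 + v) (hn _ _ (by omega) (by omega) (by omega) (by omega))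
      (hn _ _ (by omega) (by omega) (by omega) (by omega))
    refine ⟨k, hk1, hk2, ?_⟩
    convert hk3 using 2
    simp only [fr, Prod.mk.injEq]
    constructor <;> ring
  · obtain ⟨k, hk1, hk2, hk3⟩ := dn (c.1 + u) (c.2 - v) (hn _ _ (by omega) (by omega) (by omega) (by omega))
      (hn _ _ (by omega) (by omega) (by omega) (by omega))
    refine ⟨k, hk1, hk2, ?_⟩
    convert hk3 using 2
    simp only [fr, Prod.mk.injEq]
    constructor <;> ring
  · obtain ⟨k, hk1, hk2, hk3⟩ := up (c.1 - u) (c.2 + v) (hn _ _ (by omega) (by omega) (by omega) (by omega))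
      (hn _ _ (by omega) (by omega) (by omega) (by omega))
    refine ⟨k, hk1, hk2, ?_⟩
    convert hk3 using 2
    simp only [fr, Prod.mk.injEq]
    constructor <;> ring
  · obtain ⟨k, hk1, hk2, hk3⟩ := dn (c.1 - u) (c.2 - v) (hn _ _ (by omega) (by omega) (by omega) (by omega))
      (hn _ _ (by omega) (by omega) (by omega) (by omega))
    refine ⟨k, hk1, hk2, ?_⟩
    convert hk3 using 2
    simp only [fr, Prod.mk.injEq]
    constructor <;> ring
  · obtain ⟨k, hk1, hk2, hk3⟩ := rt (c.1 + v) (c.2 + u) (hn _ _ (by omega) (by omega) (by omega) (by omega))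
      (hn _ _ (by omega) (by omega) (by omega) (by omega))
    refine ⟨k, hk1, hk2, ?_⟩
    convert hk3 using 2
    simp only [fr, Prod.mk.injEq]
    constructor <;> ring
  · obtain ⟨k, hk1, hk2, hk3⟩ := lf (c.1 - v) (c.2 + u) (hn _ _ (by omega) (by omega) (by omega) (by omega))
      (hn _ _ (by omega) (by omega) (by omega) (by omega))
    refine ⟨k, hk1, hk2, ?_⟩
    convert hk3 using 2
    simp only [fr, Prod.mk.injEq]
    constructor <;> ring
  · obtain ⟨k, hk1, hk2, hk3⟩ := rt (c.1 + v) (c.2 - u) (hn _ _ (by omega) (by omega) (by omega) (by omega))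
      (hn _ _ (by omega) (by omega) (by omega) (by omega))
    refine ⟨k, hk1, hk2, ?_⟩
    convert hk3 using 2
    simp only [fr, Prod.mk.injEq]
    constructor <;> ring
  · obtain ⟨k, hk1, hk2, hk3⟩ := lf (c.1 - v) (c.2 - u) (hn _ _ (by omega) (by omega) (by omega) (by omega))
      (hn _ _ (by omega) (by omega) (by omega) (by omega))
    refine ⟨k, hk1, hk2, ?_⟩
    convert hk3 using 2
    simp only [fr, Prod.mk.injEq]
    constructor <;> ring

theorem t_COLF (h : S_COL) : S_COLF := by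
  intro σ O g c hg hEnv hG1 hG2 E hE N H u0 v0 hH hu1 hu2 hv1 hv2 hcol htop hbot
  obtain ⟨t, ht0, htm, htN, htc⟩ := htop
  obtain ⟨b, hb0, hbm, hbN, hbc⟩ := hbot
  have hg' : (1 : ℤ) ≤ g := by exact_mod_cast hg
  set F : V → V := fun x => fr c E (u0 + x.1) (v0 + x.2) with hF
  have hreg : ∀ x : V, 0 ≤ x.1 → x.1 ≤ N → 0 ≤ x.2 → x.2 ≤ H → Nr (104 * g) (F x) c := by
    intro x h1 h2 h3 h4
    exact fr_Nr hE c _ _ _ (abs_le.2 ⟨by omega, by omega⟩) (abs_le.2 ⟨by omega, by omega⟩)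
  have hinj : ∀ x y : V, F x = F y → x = y := by
    intro x y hxy
    have h1 := fr_inj hE c _ _ _ _ hxy
    exact Prod.ext (by omega) (by omega)
  have hnb : ∀ x y : V, y ∈ nbrs x → F y ∈ nbrs (F x) := by
    intro x y hy
    refine fr_nbrs hE c (u0 + x.1) (v0 + x.2) (u0 + y.1) (v0 + y.2) ?_
    simp only [nbrs, Finset.mem_insert, Finset.mem_singleton] at hy
    rw [nbrs, Finset.mem_insert, Finset.mem_insert, Finset.mem_insert, Finset.mem_singleton]
    rcases hy with rfl | rfl | rfl | rfl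
    · left; simp only [Prod.mk.injEq]; constructor <;> first | trivial | ring
    · right; left; simp only [Prod.mk.injEq]; constructor <;> first | trivial | ring
    · right; right; left; simp only [Prod.mk.injEq]; constructor <;> first | trivial | ring
    · right; right; right; simp only [Prod.mk.injEq]; constructor <;> first | trivial | ring
  have key := h {x | F x ∈ O} {x | σ (F x) = 2} {x | σ (F x) = 1} N g H t b hg hH
    (by
      intro x h1 h2 h3 h4 hx y hy z hz hyz hyO hzO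
      exact hEnv.2 (F x) (hreg x (by omega) h2 h3 h4) hx (F y) (hnb x y hy) (F z) (hnb x z hz)
        (fun hh => hyz (hinj _ _ hh)) hyO hzO)
    (by
      intro x h1 h2 h3 h4 hx
      exact hEnv.1 (F x) (hreg x (by omega) h2 h3 h4) hx)
    (by
      intro v h1 h2 h3
      have h4 := hcol v h1 h2
      simp only [Set.mem_ofPred_eq, hF, add_zero] at h3 ⊢
      exact h4 h3)
    (by
      intro x hx y hy h1 h2 h3 h4 h5 h6 h7 h8 hxy
      apply hinj
      refine hG1 (F x) (F y) (hreg x h1 h2 h3 h4) (hreg y h5 h6 h7 h8) hx hy ?_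
      exact fr_near hE c _ _ _ _ (by
        have : u0 + x.1 - (u0 + y.1) = x.1 - y.1 := by ring
        rw [this]; exact hxy))
    (by
      intro u v h1 h2 h3 h4
      obtain ⟨k, hk1, hk2, hk3⟩ := fr_seg hG2 hE (u0 + u) (v0 + v) (abs_le.2 ⟨by omega, by omega⟩)
        (abs_le.2 ⟨by omega, by omega⟩) (abs_le.2 ⟨by omega, by omega⟩)
      refine ⟨k, hk1, hk2, ?_⟩
      simp only [Set.mem_ofPred_eq, hF]
      rw [← add_assoc]
      exact hk3)
    ht0 htm htN
    (by
      intro i hi y h1 h2 h3 h4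
      apply htc i hi y h1 h2
      · simp only [Set.mem_ofPred_eq, hF] at h3 ⊢
        rw [add_sub_assoc]
        exact h3
      · intro y' h5 h6
        have h7 := h4 y' h5 h6
        simp only [Set.mem_ofPred_eq, hF] at h7 ⊢
        rw [add_sub_assoc]
        exact h7)
    hb0 hbm hbN
    (by
      intro i hi y h1 h2 h3 h4
      apply hbc i hi y h1 h2
      · exact h3
      · intro y' h5 h6
        exact h4 y' h5 h6)
  intro i v h1 h2 h3 h4 h5
  have tN : ∀ f : ℕ → ℤ, (∀ i < N, f i ≤ f (i + 1)) → ∀ j : ℕ, j ≤ N → f j ≤ f N := by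
    intro f hf j hj
    have hle : ∀ k : ℕ, j ≤ k → k ≤ N → f j ≤ f k := by
      intro k hk
      induction k, hk using Nat.le_induction with
      | base => intro _; exact le_rfl
      | succ k hk ih =>
        intro hN
        exact (ih (by omega)).trans (hf k (by omega))
    exact hle N hj le_rfl
  have hi : ((i.toNat : ℕ) : ℤ) = i := Int.toNat_of_nonneg h1
  have e1 := tN t htm i.toNat (by omega)
  have e2 := tN b hbm i.toNat (by omega)
  have := key i.toNat (by omega) v (by omega) (by omega)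
  rw [hi] at this
  exact this h5

end Pool.Agent.T5h70.TT.COLF
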