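import Pool.Agent.T5h70.TT.Stm

/-! # Project TT, task DEPI (helper7) -/

set_option autoImplicit false

namespace Pool.Agent.T5h70.TT.DEPI

open Pool.Agent.T5h70.TT

/-- one configuration is above the other on `S` -/
def Ab (S : Set V) (σ τ : V → Fin 3) : Prop :=
  ∀ x ∈ S, (σ x = 1 → τ x = 1) ∧ (τ x = 2 → σ x = 2)

lemma Ab.of_eq {S : Set V} {σ τ : V → Fin 3} (h : ∀ x ∈ S, σ x = τ x) : Ab S σ τ :=
  fun x hx => ⟨fun h1 => by rw [← h x hx]; exact h1, fun h1 => by rw [h x hx]; exact h1⟩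

/-- monotone and local at once -/
def ML (S : Set V) (F : (V → Fin 3) → Prop) : Prop := ∀ σ τ, Ab S σ τ → F σ → F τ

lemma ML.dep {S : Set V} {F : (V → Fin 3) → Prop} (h : ML S F) : DepOn S F :=
  fun σ τ he => h σ τ (Ab.of_eq he)

lemma ML.inc {S : Set V} {F : (V → Fin 3) → Prop} (h : ML S F) : Inc F :=
  fun σ τ he => h σ τ fun x _ => he x

lemma nr_mono {r s : ℤ} (h : r ≤ s) {x y : V} (hx : Nr r x y) : Nr s x y :=
  ⟨hx.1.trans h, hx.2.trans h⟩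

lemma ml_G0 (g : ℕ) (c : V) : ML {x | Nr (125 * g) x c} (G0 g c) := by
  intro σ τ h hG y z hy hz h1 h2 h3
  exact hG y z hy hz ((h y hy).2 h1) ((h z hz).2 h2) h3

lemma ml_G1 (g : ℕ) (c : V) : ML {x | Nr (125 * g) x c} (G1 g c) := by
  intro σ τ h hG y z hy hz h1 h2 h3
  have h0 : (104 : ℤ) * g ≤ 125 * g := by
    have : (0 : ℤ) ≤ g := by positivity
    linarith
  exact hG y z hy hz ((h y (nr_mono h0 hy)).2 h1) ((h z (nr_mono h0 hz)).2 h2) h3

lemma ml_G2 (g : ℕ) (c : V) : ML {x | Nr (125 * g) x c} (G2 g c) := by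
  intro σ τ h hG
  have h0 : (0 : ℤ) ≤ g := by positivity
  constructor
  · intro x y h1 h2
    obtain ⟨k, k1, k2, k3⟩ := hG.1 x y h1 h2
    refine ⟨k, k1, k2, (h _ ?_).1 k3⟩
    obtain ⟨a1, a2⟩ := h1
    obtain ⟨b1, b2⟩ := h2
    rw [abs_le] at a1 a2 b1 b2
    simp only at a1 a2 b1 b2
    constructor <;> rw [abs_le] <;> simp only <;> constructor <;> linarith [a1.1, a1.2, a2.1, a2.2, b1.1, b1.2, b2.1, b2.2]
  · intro x y h1 h2
    obtain ⟨k, k1, k2, k3⟩ := hG.2 x y h1 h2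
    refine ⟨k, k1, k2, (h _ ?_).1 k3⟩
    obtain ⟨a1, a2⟩ := h1
    obtain ⟨b1, b2⟩ := h2
    rw [abs_le] at a1 a2 b1 b2
    simp only at a1 a2 b1 b2
    constructor <;> rw [abs_le] <;> simp only <;> constructor <;> linarith [a1.1, a1.2, a2.1, a2.2, b1.1, b1.2, b2.1, b2.2]

/-- the strip of the corner condition -/
def Str (N g : ℕ) : Set V := {w | 0 ≤ w.1 ∧ w.1 ≤ N ∧ 0 ≤ w.2 ∧ w.2 ≤ 2 * g}

lemma ml_Cor (N g : ℕ) : ML (Str N g) (fun ρ => Cor0 ρ N g) := by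
  rintro σ τ h ⟨t, t0, tm, tg, ht⟩
  have tn : ∀ i : ℕ, i ≤ N → 0 ≤ t i := by
    intro i
    induction i with
    | zero => intro _; rw [t0]
    | succ i ih => intro hi; exact (ih (by omega)).trans (tm i (by omega))
  refine ⟨t, t0, tm, tg, fun i hi y h1 h2 h3 h4 => ht i hi y h1 h2 ?_ ?_⟩
  · have hy : 0 ≤ y := (tn i hi.le).trans h1
    have hi' : (i : ℤ) < N := by exact_mod_cast hi
    have hi0 : (0 : ℤ) ≤ i := by positivity
    rcases h3 with h3 | h3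
    · left
      exact (h _ ⟨by simp only; linarith, by simp only; linarith, hy, h2⟩).2 h3
    · right
      exact (h _ ⟨hi0, by simp only; linarith, hy, h2⟩).2 h3
  · intro y' h5 h6 h7
    have hy : 0 ≤ y' := (tn i hi.le).trans h5
    have hi' : (i : ℤ) < N := by exact_mod_cast hi
    have hi0 : (0 : ℤ) ≤ i := by positivity
    exact h4 y' h5 h6 ((h _ ⟨by simp only; linarith, by simp only; linarith, hy,
      by simp only; linarith⟩).1 h7)

lemma nr_fr (c : V) (E : V × V) (hE : E ∈ frs) (u v r : ℤ) (hu : |u| ≤ r) (hv : |v| ≤ r) :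
    Nr r (fr c E u v) c := by
  unfold frs at hE
  simp only [Finset.mem_insert, Finset.mem_singleton] at hE
  rw [abs_le] at hu hv
  unfold fr
  rcases hE with rfl | rfl | rfl | rfl | rfl | rfl | rfl | rfl <;>
    constructor <;> rw [abs_le] <;> simp only <;> constructor <;> linarith [hu.1, hu.2, hv.1, hv.2]

lemma ml_fr (N g : ℕ) (c : V) (E : V × V) (hE : E ∈ frs) (u v r : ℤ) (h1 : -r ≤ u)
    (h2 : u + N ≤ r) (h3 : -r ≤ v) (h4 : v + 2 * g ≤ r) :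
    ML {x | Nr r x c} (fun σ => Cor0 (fun w => σ (fr c E (u + w.1) (v + w.2))) N g) := by
  intro σ τ h hG
  refine ml_Cor N g _ _ ?_ hG
  rintro w ⟨w1, w2, w3, w4⟩
  refine h _ (nr_fr c E hE _ _ r ?_ ?_)
  · rw [abs_le]
    constructor <;> linarith
  · rw [abs_le]
    constructor <;> linarith

lemma ml_G3 (g : ℕ) (c : V) : ML {x | Nr (125 * g) x c} (G3 g c) := by
  intro σ τ h hG E hE
  have h0 : (0 : ℤ) ≤ g := by positivity
  obtain ⟨g1, g2, g3⟩ := hG E hE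
  refine ⟨ml_fr (101 * g) g c E hE (3 * g) (-3 * g) (125 * g) ?_ ?_ ?_ ?_ σ τ h g1,
    ml_fr g g c E hE (2 * g) (-104 * g) (125 * g) ?_ ?_ ?_ ?_ σ τ h g2,
    ml_fr g g c E hE (2 * g) (-3 * g) (125 * g) ?_ ?_ ?_ ?_ σ τ h g3⟩ <;> push_cast <;> linarith

lemma ml_Good (g : ℕ) (c : V) : ML {x | Nr (125 * g) x c} (Good g c) :=
  fun σ τ h ⟨h0, h1, h2, h3⟩ => ⟨ml_G0 g c σ τ h h0, ml_G1 g c σ τ h h1, ml_G2 g c σ τ h h2,
    ml_G3 g c σ τ h h3⟩

lemma ml_Nuc (g : ℕ) (c : V) : ML {x | Nr (125 * g) x c} (Nuc g c) := by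
  rintro σ τ h ⟨h1, h2⟩
  have h0 : (0 : ℤ) ≤ g := by positivity
  refine ⟨fun k k1 k2 => (h _ ?_).1 (h1 k k1 k2), fun x hx hc => h2 x hx ((h x ?_).2 hc)⟩
  · constructor <;> rw [abs_le] <;> simp only <;> constructor <;> linarith
  · exact nr_mono (by linarith) hx

theorem t_DEPI : S_DEPI := fun g c _ =>
  ⟨(ml_Good g c).dep, (ml_Good g c).inc, (ml_Nuc g c).dep, (ml_Nuc g c).inc⟩

end Pool.Agent.T5h70.TT.DEPI
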