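import Pool.Agent.T5h70.TT.Stm

/-! Project TT, task DOM (helper85) -/

set_option autoImplicit false

namespace Pool.Agent.T5h70.TT.DOM

open Pool.Agent.T5h70.TT

theorem nr_nbrs {R : ℤ} {x y : V} (h : Nr R x 0) (hy : y ∈ nbrs x) : Nr (R + 1) y 0 := by
  simp only [nbrs, Finset.mem_insert, Finset.mem_singleton] at hy
  unfold Nr at h ⊢
  simp only [Prod.fst_zero, Prod.snd_zero, sub_zero, abs_le] at h ⊢
  obtain ⟨⟨h1, h2⟩, h3, h4⟩ := h
  rcases hy with rfl | rfl | rfl | rfl <;> simp only <;> refine ⟨⟨?_, ?_⟩, ?_, ?_⟩ <;> linarith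

theorem nr_mono {R S : ℤ} {x y : V} (h : Nr R x y) (hRS : R ≤ S) : Nr S x y :=
  ⟨h.1.trans hRS, h.2.trans hRS⟩

theorem two_of_cnt {i : Fin 3} {ξ : V → Fin 3} {x : V} (h : 2 ≤ cnt i ξ x) :
    ∃ y ∈ nbrs x, ∃ z ∈ nbrs x, y ≠ z ∧ ξ y = i ∧ ξ z = i := by
  unfold cnt at h
  obtain ⟨y, hy, z, hz, hyz⟩ := Finset.one_lt_card.1 (Nat.lt_of_succ_le h)
  rw [Finset.mem_filter] at hy hz
  exact ⟨y, hy.1, z, hz.1, hyz, hy.2, hz.2⟩

theorem cnt_of_two {i : Fin 3} {ξ : V → Fin 3} {x y z : V} (hy : y ∈ nbrs x) (hz : z ∈ nbrs x)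
    (hyz : y ≠ z) (h1 : ξ y = i) (h2 : ξ z = i) : 2 ≤ cnt i ξ x := by
  unfold cnt
  refine Finset.one_lt_card.2 ⟨y, ?_, z, ?_, hyz⟩ <;> rw [Finset.mem_filter]
  · exact ⟨hy, h1⟩
  · exact ⟨hz, h2⟩

theorem step_keep {ξ : V → Fin 3} {x : V} (h : ξ x ≠ 0) : step ξ x = ξ x := by
  unfold step
  rw [if_pos h]

theorem step_two {ξ : V → Fin 3} {x : V} (h : step ξ x = 2) : ξ x = 2 ∨ 2 ≤ cnt 2 ξ x := by
  unfold step at h
  split_ifs at h with h1 h2 h3
  · exact Or.inl h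
  · exact absurd h (by decide)
  · exact Or.inr h3.1
  · exact absurd h (by decide)

theorem step_one {ξ : V → Fin 3} {x : V} (h : ξ x = 0) (h1 : 2 ≤ cnt 1 ξ x)
    (h2 : ¬ 2 ≤ cnt 2 ξ x) : step ξ x = 1 := by
  unfold step
  rw [if_neg (not_not.2 h), if_pos ⟨h1, h2⟩]

theorem iter_succ (σ : V → Fin 3) (t : ℕ) : step^[t + 1] σ = step (step^[t] σ) :=
  Function.iterate_succ_apply' step t σ

theorem two_mem {σ : V → Fin 3} {D : Set V} {L : ℕ} (hD : ∀ x, Nr L x 0 → σ x = 2 → x ∈ D)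
    (hC : Clo D) : ∀ t : ℕ, t ≤ L → ∀ x, Nr ((L : ℤ) - t) x 0 → step^[t] σ x = 2 → x ∈ D := by
  intro t
  induction t with
  | zero =>
    intro _ x hx h
    exact hD x (by simpa using hx) h
  | succ t ih =>
    intro ht x hx h
    rw [iter_succ] at h
    rcases step_two h with h1 | h1
    · exact ih (by omega) x (nr_mono hx (by push_cast; linarith)) h1
    · obtain ⟨y, hy, z, hz, hyz, h2, h3⟩ := two_of_cnt h1
      by_contra hxD
      refine hyz (hC x hxD y hy z hz ?_ ?_)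
      · exact ih (by omega) y (nr_mono (nr_nbrs hx hy) (by push_cast; linarith)) h2
      · exact ih (by omega) z (nr_mono (nr_nbrs hx hz) (by push_cast; linarith)) h3

/-- the box -/
noncomputable def bx (ℓ : ℕ) : Finset V := (Finset.Icc (-(ℓ : ℤ)) ℓ) ×ˢ (Finset.Icc (-(ℓ : ℤ)) ℓ)

theorem mem_bx {ℓ : ℕ} {x : V} : x ∈ bx ℓ ↔ Nr ℓ x 0 := by
  unfold bx Nr
  rw [Finset.mem_product, Finset.mem_Icc, Finset.mem_Icc]
  simp only [Prod.fst_zero, Prod.snd_zero, sub_zero, abs_le]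

theorem card_bx (ℓ : ℕ) : (bx ℓ).card = (2 * ℓ + 1) ^ 2 := by
  unfold bx
  rw [Finset.card_product, Int.card_Icc, sq]
  congr 1 <;> omega

/-- the sites in state one -/
noncomputable def On (σ : V → Fin 3) (ℓ t : ℕ) : Finset V := (bx ℓ).filter fun x => step^[t] σ x = 1

theorem On_mono (σ : V → Fin 3) (ℓ t : ℕ) : On σ ℓ t ⊆ On σ ℓ (t + 1) := by
  intro x hx
  unfold On at hx ⊢
  rw [Finset.mem_filter] at hx ⊢
  refine ⟨hx.1, ?_⟩
  rw [iter_succ, step_keep, hx.2]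
  rw [hx.2]
  decide

theorem t_DOM : S_DOM := by
  intro σ D ℓ L hD hC hL
  have hL' : (ℓ : ℤ) + (2 * ℓ + 1) ^ 2 + 1 ≤ L := by exact_mod_cast hL
  -- closedness at some time
  have hcl : ∃ t : ℕ, ∀ x y z : V, Nr ℓ x 0 → x ∉ D → y ∈ nbrs x → z ∈ nbrs x → y ≠ z →
      y ∈ On σ ℓ t → z ∈ On σ ℓ t → x ∈ On σ ℓ t := by
    by_contra hcon
    push Not at hcon
    have hgrow : ∀ t : ℕ, t ≤ (2 * ℓ + 1) ^ 2 → (On σ ℓ t).card + 1 ≤ (On σ ℓ (t + 1)).card := by
      intro t ht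
      obtain ⟨x, y, z, hx, hxD, hy, hz, hyz, hyO, hzO, hxO⟩ := hcon t
      have ht' : (t : ℤ) ≤ (2 * ℓ + 1) ^ 2 := by exact_mod_cast ht
      have htL : t ≤ L := by
        have : (t : ℤ) ≤ L := by linarith [Int.natCast_nonneg ℓ]
        exact_mod_cast this
      have htwo := two_mem hD hC t htL
      unfold On at hyO hzO hxO
      rw [Finset.mem_filter] at hyO hzO hxO
      have hx1 : step^[t] σ x ≠ 1 := fun h => hxO ⟨mem_bx.2 hx, h⟩
      have hx2 : step^[t] σ x ≠ 2 := fun h => hxD (htwo x (nr_mono hx (by linarith)) h)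
      have hx0 : step^[t] σ x = 0 := by
        revert hx1 hx2
        generalize step^[t] σ x = a
        fin_cases a <;> decide
      have hc1 : 2 ≤ cnt 1 (step^[t] σ) x := cnt_of_two hy hz hyz hyO.2 hzO.2
      have hc2 : ¬ 2 ≤ cnt 2 (step^[t] σ) x := by
        intro h
        obtain ⟨a, ha, b, hb, hab, h1, h2⟩ := two_of_cnt h
        exact hab (hC x hxD a ha b hb (htwo a (nr_mono (nr_nbrs hx ha) (by linarith)) h1)
          (htwo b (nr_mono (nr_nbrs hx hb) (by linarith)) h2))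
      have hnew : x ∈ On σ ℓ (t + 1) := by
        unfold On
        rw [Finset.mem_filter]
        refine ⟨mem_bx.2 hx, ?_⟩
        rw [iter_succ]
        exact step_one hx0 hc1 hc2
      have hold : x ∉ On σ ℓ t := by
        unfold On
        rw [Finset.mem_filter]
        exact hxO
      exact Finset.card_lt_card ((Finset.ssubset_iff_of_subset (On_mono σ ℓ t)).2 ⟨x, hnew, hold⟩)
    have hcard : ∀ t : ℕ, t ≤ (2 * ℓ + 1) ^ 2 + 1 → t ≤ (On σ ℓ t).card := by
      intro t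
      induction t with
      | zero => intro _; exact Nat.zero_le _
      | succ t ih =>
        intro ht
        have h1 := ih (by omega)
        have h2 := hgrow t (by omega)
        omega
    have h1 := hcard _ le_rfl
    have h2 : (On σ ℓ ((2 * ℓ + 1) ^ 2 + 1)).card ≤ (bx ℓ).card :=
      Finset.card_le_card (Finset.filter_subset _ _)
    rw [card_bx] at h2
    omega
  obtain ⟨t, ht⟩ := hcl
  have hkeep : ∀ (t : ℕ) (x : V), σ x = 1 → step^[t] σ x = 1 := by
    intro t x hx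
    induction t with
    | zero => exact hx
    | succ t ih =>
      rw [iter_succ, step_keep, ih]
      rw [ih]
      decide
  have hall : ∀ x, Occ σ D ℓ x → x ∈ On σ ℓ t := by
    intro x hx
    induction hx with
    | init x hn hs =>
      unfold On
      rw [Finset.mem_filter]
      exact ⟨mem_bx.2 hn, hkeep t x hs⟩
    | grow x y z hn hD' hy hz hyz _ _ ih1 ih2 => exact ht x y z hn hD' hy hz hyz ih1 ih2
  intro x hx
  have := hall x hx
  unfold On at this
  rw [Finset.mem_filter] at this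
  exact ⟨t, this.2⟩

end Pool.Agent.T5h70.TT.DOM
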