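import Pool.Agent.T5h70.TT.Stm

/-! # Project TT, task GDD (helper7) -/

set_option autoImplicit false

namespace Pool.Agent.T5h70.TT.GDD

open Pool.Agent.T5h70.TT

lemma sup_sub (g j : ℕ) (β γ : V) (h : par γ = β) : Sup g j γ ⊆ Sup g (j + 1) β := by
  rintro x ⟨z, hz, hx⟩
  exact ⟨z, by rw [Function.iterate_succ_apply', hz, h], hx⟩

theorem t_GDD : S_GDD := by
  intro g F hD hI j
  induction j with
  | zero =>
    intro β
    refine ⟨fun σ τ h hG => hD β σ τ (fun x hx => h x ⟨β, rfl, hx⟩) hG,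
      fun σ τ h hG => hI β σ τ h hG⟩
  | succ j ih =>
    intro β
    constructor
    · intro σ τ h hG γ γ' h1 h2 h3 h4
      refine hG γ γ' h1 h2 (fun h5 => h3 ?_) (fun h5 => h4 ?_)
      · exact (ih γ).1 σ τ (fun x hx => h x (sup_sub g j β γ h1 hx)) h5
      · exact (ih γ').1 σ τ (fun x hx => h x (sup_sub g j β γ' h2 hx)) h5
    · intro σ τ h hG γ γ' h1 h2 h3 h4
      exact hG γ γ' h1 h2 (fun h5 => h3 ((ih γ).2 σ τ h h5)) (fun h5 => h4 ((ih γ').2 σ τ h h5))

end Pool.Agent.T5h70.TT.GDD
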