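import Pool.Agent.T5h70.TT.Stm

/-! # Project TT, task GDP (helper7) -/

set_option autoImplicit false

namespace Pool.Agent.T5h70.TT.GDP

open Pool.Agent.T5h70.TT MeasureTheory ProbabilityTheory

lemma dep_not {S : Set V} {F : (V → Fin 3) → Prop} (h : DepOn S F) : DepOn S (fun σ => ¬ F σ) :=
  fun σ τ he hF hc => hF (h τ σ (fun x hx => (he x hx).symm) hc)

/-- the children of a block -/
noncomputable def chil (β : V) : Finset V :=
  Finset.Ico (16 * β.1) (16 * β.1 + 16) ×ˢ Finset.Ico (16 * β.2) (16 * β.2 + 16)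

lemma mem_chil (β γ : V) (h : par γ = β) : γ ∈ chil β := by
  unfold chil
  rw [Finset.mem_product, Finset.mem_Ico, Finset.mem_Ico]
  unfold par at h
  rw [Prod.ext_iff] at h
  simp only at h
  omega

lemma card_chil (β : V) : (chil β).card = 256 := by
  unfold chil
  rw [Finset.card_product, Int.card_Ico, Int.card_Ico]
  simp

theorem t_GDP (h1 : S_IND) (h2 : S_DEPI) (h3 : S_SUPD) (h4 : S_GDD) : S_GDP := by
  intro μ p q hμ g δ hg hδ j
  have hpr := hμ.prob
  have hdep := h4 g (fun z => Good g (cen g z)) (fun z => (h2 g (cen g z) hg).1)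
    (fun z => (h2 g (cen g z) hg).2.1)
  obtain ⟨s1, s2, s3, s4, s5⟩ := h3
  induction j with
  | zero =>
    intro β
    have := hδ β
    have e : (1 : ℝ) / 16 ^ 4 * (16 ^ 4 * δ) ^ (2 ^ 0) = δ := by
      rw [pow_zero, pow_one]
      ring
    rw [e]
    exact this
  | succ j ih =>
    intro β
    set X : ℝ := (16 ^ 4 * δ) ^ (2 ^ j) with hX
    classical
    let P : Finset (V × V) := (chil β ×ˢ chil β).filter fun w => ¬ Nr 2 w.1 w.2
    let E : V × V → Set (V → Fin 3) := fun w =>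
      {σ | ¬ Gd (fun z => Good g (cen g z) σ) j w.1 ∧ ¬ Gd (fun z => Good g (cen g z) σ) j w.2}
    have hsub : {σ | ¬ Gd (fun z => Good g (cen g z) σ) (j + 1) β} ⊆ ⋃ w ∈ P, E w := by
      intro σ hσ
      have hσ' : ¬ ∀ γ γ' : V, par γ = β → par γ' = β →
        ¬ Gd (fun z => Good g (cen g z) σ) j γ → ¬ Gd (fun z => Good g (cen g z) σ) j γ' →
          Nr 2 γ γ' := hσ
      simp only [not_forall] at hσ'
      obtain ⟨γ, γ', c1, c2, c3, c4, c5⟩ := hσ'
      refine Set.mem_biUnion (x := (γ, γ')) ?_ ⟨c3, c4⟩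
      show (γ, γ') ∈ P
      rw [Finset.mem_filter, Finset.mem_product]
      exact ⟨⟨mem_chil β γ c1, mem_chil β γ' c2⟩, c5⟩
    have hE : ∀ w ∈ P, μ.real (E w) ≤ (1 / 16 ^ 4 * X) ^ 2 := by
      intro w hw
      rw [Finset.mem_filter] at hw
      have e := (h1 μ p q hμ).2 (Sup g j w.1) (Sup g j w.2)
        (fun σ => ¬ Gd (fun z => Good g (cen g z) σ) j w.1)
        (fun σ => ¬ Gd (fun z => Good g (cen g z) σ) j w.2) (s1 g j _) (s1 g j _)
        (s2 g j _ _ hg hw.2) (dep_not (hdep j w.1).1) (dep_not (hdep j w.2).1)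
      show μ.real {σ | ¬ Gd (fun z => Good g (cen g z) σ) j w.1 ∧
        ¬ Gd (fun z => Good g (cen g z) σ) j w.2} ≤ _
      rw [e, sq]
      exact mul_le_mul (ih _) (ih _) measureReal_nonneg (measureReal_nonneg.trans (ih w.1))
    have hcard : (P.card : ℝ) ≤ 16 ^ 4 := by
      have : P.card ≤ 16 ^ 4 := by
        refine (Finset.card_filter_le _ _).trans ?_
        rw [Finset.card_product, card_chil]
        norm_num
      exact_mod_cast this
    calc μ.real {σ | ¬ Gd (fun z => Good g (cen g z) σ) (j + 1) β} ≤ μ.real (⋃ w ∈ P, E w) :=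
          measureReal_mono hsub (measure_ne_top μ _)
      _ ≤ ∑ w ∈ P, μ.real (E w) := measureReal_biUnion_finset_le _ _
      _ ≤ ∑ w ∈ P, (1 / 16 ^ 4 * X) ^ 2 := Finset.sum_le_sum hE
      _ = P.card * (1 / 16 ^ 4 * X) ^ 2 := by rw [Finset.sum_const, nsmul_eq_mul]
      _ ≤ 16 ^ 4 * (1 / 16 ^ 4 * X) ^ 2 := mul_le_mul_of_nonneg_right hcard (sq_nonneg _)
      _ = 1 / 16 ^ 4 * (16 ^ 4 * δ) ^ (2 ^ (j + 1)) := by
        rw [pow_succ 2 j, pow_mul, ← hX]
        ring

end Pool.Agent.T5h70.TT.GDP
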