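import Pool.Agent.T5h70.TT.Stm

/-!
# GP0: two 2s close to each other
-/

set_option autoImplicit false

namespace Pool.Agent.T5h70.TT.GP0

open Pool.Agent.T5h70.TT MeasureTheory ProbabilityTheory

/-- the differences -/
noncomputable def Df : Finset V := ((Finset.Icc (-2 : ℤ) 2) ×ˢ (Finset.Icc (-2 : ℤ) 2)).erase (0, 0)

lemma Df_card : Df.card = 24 := by
  unfold Df
  rw [Finset.card_erase_of_mem (by simp), Finset.card_product, Int.card_Icc]
  rfl

theorem t_GP0 (h : S_SITE) : S_GP0 := by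
  classical
  intro μ p q hμ g c hg
  have := hμ.prob
  set S : Finset V := Finset.Icc (c.1 - 125 * g) (c.1 + 125 * g) ×ˢ
    Finset.Icc (c.2 - 125 * g) (c.2 + 125 * g)
  have hsub : {σ | ¬ G0 g c σ} ⊆ ⋃ k ∈ S ×ˢ Df,
      {σ : V → Fin 3 | ∀ x ∈ ({k.1, (k.1.1 + k.2.1, k.1.2 + k.2.2)} : Finset V), σ x = 2} := by
    intro σ hσ
    have hσ' : ¬ G0 g c σ := hσ
    unfold G0 at hσ'
    push Not at hσ'
    obtain ⟨y, z, hy, hz, hy2, hz2, hyz, hne⟩ := hσ'
    simp only [Set.mem_iUnion]
    refine ⟨(y, (z.1 - y.1, z.2 - y.2)), ?_, ?_⟩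
    · unfold Nr at hy hyz
      rw [abs_le, abs_le] at hy hyz
      rw [Finset.mem_product, Finset.mem_product, Finset.mem_Icc, Finset.mem_Icc]
      refine ⟨⟨⟨by dsimp only; omega, by dsimp only; omega⟩,
        ⟨by dsimp only; omega, by dsimp only; omega⟩⟩, ?_⟩
      unfold Df
      rw [Finset.mem_erase, Finset.mem_product, Finset.mem_Icc, Finset.mem_Icc]
      refine ⟨?_, ⟨by dsimp only; omega, by dsimp only; omega⟩,
        ⟨by dsimp only; omega, by dsimp only; omega⟩⟩
      intro he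
      simp only [Prod.mk.injEq] at he
      exact hne (Prod.ext (by omega) (by omega))
    · intro x hx
      rw [Finset.mem_insert, Finset.mem_singleton] at hx
      rcases hx with rfl | rfl
      · exact hy2
      · have e : ((y.1 + (z.1 - y.1), y.2 + (z.2 - y.2)) : V) = z := Prod.ext (by simp) (by simp)
        rw [e]
        exact hz2
  refine (measureReal_mono hsub (measure_ne_top _ _)).trans
    ((measureReal_biUnion_finset_le _ _).trans ?_)
  have hb : ∀ k ∈ S ×ˢ Df, μ.real
      {σ : V → Fin 3 | ∀ x ∈ ({k.1, (k.1.1 + k.2.1, k.1.2 + k.2.2)} : Finset V), σ x = 2} ≤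
      q ^ 2 := by
    intro k hk
    rw [(h μ p q hμ _).2.2.2, Finset.card_pair]
    intro he
    rw [Finset.mem_product] at hk
    have hk2 := hk.2
    unfold Df at hk2
    rw [Finset.mem_erase] at hk2
    apply hk2.1
    have h1 := congrArg Prod.fst he
    have h2 := congrArg Prod.snd he
    dsimp only at h1 h2
    exact Prod.ext (by dsimp only; omega) (by dsimp only; omega)
  refine (Finset.sum_le_sum hb).trans ?_
  rw [Finset.sum_const, nsmul_eq_mul]
  refine mul_le_mul_of_nonneg_right ?_ (sq_nonneg q)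
  have hc : ((S ×ˢ Df).card : ℝ) = 24 * ((250 * g + 1 : ℕ) : ℝ) ^ 2 := by
    rw [Finset.card_product, Df_card]
    have : S.card = (250 * g + 1) ^ 2 := by
      rw [Finset.card_product, Int.card_Icc, Int.card_Icc, sq]
      congr 1
      · have : c.1 + 125 * (g : ℤ) + 1 - (c.1 - 125 * g) = ((250 * g + 1 : ℕ) : ℤ) := by
          push_cast
          ring
        rw [this, Int.toNat_natCast]
      · have : c.2 + 125 * (g : ℤ) + 1 - (c.2 - 125 * g) = ((250 * g + 1 : ℕ) : ℤ) := by
          push_cast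
          ring
        rw [this, Int.toNat_natCast]
    rw [this]
    push_cast
    ring
  rw [hc]
  have h1 : ((250 * g + 1 : ℕ) : ℝ) ≤ 251 * g := by
    have : (1 : ℝ) ≤ g := by exact_mod_cast hg
    push_cast
    linarith
  have h2 : (0 : ℝ) ≤ ((250 * g + 1 : ℕ) : ℝ) := Nat.cast_nonneg _
  nlinarith [mul_self_le_mul_self h2 h1]

end Pool.Agent.T5h70.TT.GP0
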