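import Pool.Agent.T5h70.TT.Stm

/-! GP1: union bound (helper11). -/

set_option autoImplicit false
set_option linter.all false

namespace Pool.Agent.T5h70.TT.GP1

open Pool.Agent.T5h70.TT MeasureTheory

/-- the box of radius `r` around `c` -/
noncomputable def box (r : ℤ) (c : V) : Finset V :=
  Finset.Icc (c.1 - r) (c.1 + r) ×ˢ Finset.Icc (c.2 - r) (c.2 + r)

theorem mem_box {r : ℤ} {c x : V} : x ∈ box r c ↔ Nr r x c := by
  unfold box Nr
  rw [Finset.mem_product, Finset.mem_Icc, Finset.mem_Icc, abs_le, abs_le]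
  constructor
  · rintro ⟨⟨h1, h2⟩, ⟨h3, h4⟩⟩
    exact ⟨⟨by linarith, by linarith⟩, ⟨by linarith, by linarith⟩⟩
  · rintro ⟨⟨h1, h2⟩, ⟨h3, h4⟩⟩
    exact ⟨⟨by linarith, by linarith⟩, ⟨by linarith, by linarith⟩⟩

/-- union bound -/
theorem ub {Ω ι : Type} [MeasurableSpace Ω] (μ : Measure Ω) [IsProbabilityMeasure μ]
    (s : Finset ι) (A : ι → Set Ω) (b : ℝ) (h : ∀ i ∈ s, μ.real (A i) ≤ b) :
    μ.real (⋃ i ∈ s, A i) ≤ s.card * b := by
  refine (measureReal_biUnion_finset_le s A).trans ?_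
  refine (Finset.sum_le_card_nsmul s _ b h).trans ?_
  rw [nsmul_eq_mul]

theorem two_sites (h : S_SITE) {μ : Measure (V → Fin 3)} {p q : ℝ} (hp : Prod3 μ p q) (y z : V) :
    μ.real {σ | y ≠ z ∧ σ y = 2 ∧ σ z = 2} ≤ q ^ 2 := by
  classical
  by_cases hyz : y = z
  · have h1 : {σ : V → Fin 3 | y ≠ z ∧ σ y = 2 ∧ σ z = 2} = ∅ := by
      ext σ
      simp [hyz]
    rw [h1, measureReal_empty]
    exact sq_nonneg q
  · have h1 := (h μ p q hp {y, z}).2.2.2
    rw [Finset.card_pair hyz] at h1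
    rw [← h1]
    apply le_of_eq
    congr 1
    ext σ
    simp [hyz]

theorem t_GP1 (h : S_SITE) : S_GP1 := by
  intro μ p q hp g c hg
  have hprob := hp.prob
  have hg' : (1 : ℤ) ≤ g := by exact_mod_cast hg
  let N : V → Finset V := fun y =>
    (Finset.Icc (y.1 - 1) (y.1 + 1) ×ˢ Finset.Icc (c.2 - 104 * g) (c.2 + 104 * g)) ∪
      (Finset.Icc (c.1 - 104 * g) (c.1 + 104 * g) ×ˢ Finset.Icc (y.2 - 1) (y.2 + 1))
  have hN : ∀ y, ((N y).card : ℝ) ≤ 6 * (209 * g) := by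
    intro y
    have h1 : (N y).card ≤ 3 * (208 * g + 1) + (208 * g + 1) * 3 := by
      refine (Finset.card_union_le _ _).trans ?_
      rw [Finset.card_product, Finset.card_product, Int.card_Icc, Int.card_Icc, Int.card_Icc,
        Int.card_Icc]
      have e1 : (y.1 + 1 + 1 - (y.1 - 1)).toNat = 3 := by omega
      have e2 : (c.2 + 104 * (g : ℤ) + 1 - (c.2 - 104 * g)).toNat = 208 * g + 1 := by omega
      have e3 : (c.1 + 104 * (g : ℤ) + 1 - (c.1 - 104 * g)).toNat = 208 * g + 1 := by omega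
      have e4 : (y.2 + 1 + 1 - (y.2 - 1)).toNat = 3 := by omega
      rw [e1, e2, e3, e4]
    have h2 : (N y).card ≤ 6 * (209 * g) := by omega
    exact_mod_cast h2
  have hbox : ((box (104 * g) c).card : ℝ) ≤ (209 * g) ^ 2 := by
    have h1 : (box (104 * g) c).card = (208 * g + 1) * (208 * g + 1) := by
      unfold box
      rw [Finset.card_product, Int.card_Icc, Int.card_Icc]
      have e2 : (c.2 + 104 * (g : ℤ) + 1 - (c.2 - 104 * g)).toNat = 208 * g + 1 := by omega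
      have e3 : (c.1 + 104 * (g : ℤ) + 1 - (c.1 - 104 * g)).toNat = 208 * g + 1 := by omega
      rw [e2, e3]
    have h2 : (box (104 * g) c).card ≤ (209 * g) ^ 2 := by
      rw [h1, sq]
      exact Nat.mul_le_mul (by omega) (by omega)
    exact_mod_cast h2
  have hsub : {σ : V → Fin 3 | ¬ G1 g c σ} ⊆
      ⋃ y ∈ box (104 * g) c, ⋃ z ∈ N y, {σ : V → Fin 3 | y ≠ z ∧ σ y = 2 ∧ σ z = 2} := by
    intro σ hσ
    rw [Set.mem_setOf_eq] at hσ
    unfold G1 at hσ
    push Not at hσ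
    obtain ⟨y, z, h1, h2, h3, h4, h5, h6⟩ := hσ
    rw [Set.mem_iUnion₂]
    refine ⟨y, mem_box.2 h1, ?_⟩
    rw [Set.mem_iUnion₂]
    refine ⟨z, ?_, h6, h3, h4⟩
    have h7 := mem_box.2 h2
    unfold box at h7
    rw [Finset.mem_product] at h7
    rw [Finset.mem_union, Finset.mem_product, Finset.mem_product]
    rcases h5 with h5 | h5
    · left
      refine ⟨?_, h7.2⟩
      rw [abs_le] at h5
      rw [Finset.mem_Icc]
      exact ⟨by linarith, by linarith⟩
    · right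
      refine ⟨h7.1, ?_⟩
      rw [abs_le] at h5
      rw [Finset.mem_Icc]
      exact ⟨by linarith, by linarith⟩
  refine (measureReal_mono hsub (measure_ne_top μ _)).trans ?_
  have hq2 : 0 ≤ q ^ 2 := sq_nonneg q
  have h1 := ub μ (box (104 * g) c)
    (fun y => ⋃ z ∈ N y, {σ : V → Fin 3 | y ≠ z ∧ σ y = 2 ∧ σ z = 2}) (6 * (209 * g) * q ^ 2)
    (fun y _ => (ub μ (N y) _ (q ^ 2) fun z _ => two_sites h hp y z).trans
      (mul_le_mul_of_nonneg_right (hN y) hq2))
  refine h1.trans ?_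
  calc ((box (104 * g) c).card : ℝ) * (6 * (209 * g) * q ^ 2)
      ≤ (209 * g) ^ 2 * (6 * (209 * g) * q ^ 2) :=
        mul_le_mul_of_nonneg_right hbox (by positivity)
    _ = 6 * (209 * g) ^ 3 * q ^ 2 := by ring

end Pool.Agent.T5h70.TT.GP1
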