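import Pool.Agent.T5h70.TT.Stm

/-! GP2: union bound (helper11). -/

set_option autoImplicit false
set_option linter.all false

namespace Pool.Agent.T5h70.TT.GP2

open Pool.Agent.T5h70.TT MeasureTheory

/-- the box of radius `r` around `c` -/
noncomputable def box (r : ℤ) (c : V) : Finset V :=
  Finset.Icc (c.1 - r) (c.1 + r) ×ˢ Finset.Icc (c.2 - r) (c.2 + r)

theorem mem_box {r : ℤ} {c x : V} : x ∈ box r c ↔ Nr r x c := by
  unfold box Nr
  rw [Finset.mem_product, Finset.mem_Icc, Finset.mem_Icc, abs_le, abs_le]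
  constructor
  · rintro ⟨⟨h1, h2⟩, ⟨h3, h4⟩⟩
    exact ⟨⟨by linarith, by linarith⟩, ⟨by linarith, by linarith⟩⟩
  · rintro ⟨⟨h1, h2⟩, ⟨h3, h4⟩⟩
    exact ⟨⟨by linarith, by linarith⟩, ⟨by linarith, by linarith⟩⟩

/-- union bound -/
theorem ub {Ω ι : Type} [MeasurableSpace Ω] (μ : Measure Ω) [IsProbabilityMeasure μ]
    (s : Finset ι) (A : ι → Set Ω) (b : ℝ) (h : ∀ i ∈ s, μ.real (A i) ≤ b) :
    μ.real (⋃ i ∈ s, A i) ≤ s.card * b := by
  refine (measureReal_biUnion_finset_le s A).trans ?_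
  refine (Finset.sum_le_card_nsmul s _ b h).trans ?_
  rw [nsmul_eq_mul]

theorem seg (h : S_SITE) {μ : Measure (V → Fin 3)} {p q : ℝ} (hp : Prod3 μ p q) (g : ℕ)
    (f : ℕ → V) (hf : Function.Injective f) :
    μ.real {σ | ∀ k < g, σ (f k) ≠ 1} = (1 - p) ^ g := by
  classical
  have h1 := (h μ p q hp ((Finset.range g).image f)).2.1
  rw [Finset.card_image_of_injective _ hf, Finset.card_range] at h1
  rw [← h1]
  congr 1
  ext σ
  simp

theorem t_GP2 (h : S_SITE) : S_GP2 := by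
  intro μ p q hp g c hg
  have hprob := hp.prob
  have hg' : (1 : ℤ) ≤ g := by exact_mod_cast hg
  have hbox : ((box (104 * g) c).card : ℝ) ≤ (209 * g) ^ 2 := by
    have h1 : (box (104 * g) c).card = (208 * g + 1) * (208 * g + 1) := by
      unfold box
      rw [Finset.card_product, Int.card_Icc, Int.card_Icc]
      have e2 : (c.2 + 104 * (g : ℤ) + 1 - (c.2 - 104 * g)).toNat = 208 * g + 1 := by omega
      have e3 : (c.1 + 104 * (g : ℤ) + 1 - (c.1 - 104 * g)).toNat = 208 * g + 1 := by omega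
      rw [e2, e3]
    have h2 : (box (104 * g) c).card ≤ (209 * g) ^ 2 := by
      rw [h1, sq]
      exact Nat.mul_le_mul (by omega) (by omega)
    exact_mod_cast h2
  have hsub : {σ : V → Fin 3 | ¬ G2 g c σ} ⊆
      (⋃ x ∈ box (104 * g) c, {σ : V → Fin 3 | ∀ k < g, σ (x.1 + (k : ℤ), x.2) ≠ 1}) ∪
      (⋃ x ∈ box (104 * g) c, {σ : V → Fin 3 | ∀ k < g, σ (x.1, x.2 + (k : ℤ)) ≠ 1}) := by
    intro σ hσ
    rw [Set.mem_setOf_eq] at hσ
    unfold G2 at hσ
    rw [not_and_or] at hσ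
    rcases hσ with hσ | hσ
    · left
      push Not at hσ
      obtain ⟨x, y, h1, h2, h3⟩ := hσ
      rw [Set.mem_iUnion₂]
      refine ⟨(x, y), mem_box.2 h1, fun k hk => ?_⟩
      exact h3 k (by positivity) (by exact_mod_cast hk)
    · right
      push Not at hσ
      obtain ⟨x, y, h1, h2, h3⟩ := hσ
      rw [Set.mem_iUnion₂]
      refine ⟨(x, y), mem_box.2 h1, fun k hk => ?_⟩
      exact h3 k (by positivity) (by exact_mod_cast hk)
  refine (measureReal_mono hsub (measure_ne_top μ _)).trans ((measureReal_union_le _ _).trans ?_)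
  have hp1 : 0 ≤ (1 - p) ^ g := by
    rw [← seg h hp g (fun k => ((k : ℤ), (0 : ℤ))) (fun a b hab => by
      have := (Prod.mk.inj hab).1
      exact_mod_cast this)]
    exact measureReal_nonneg
  have h1 := ub μ (box (104 * g) c)
    (fun x => {σ : V → Fin 3 | ∀ k < g, σ (x.1 + (k : ℤ), x.2) ≠ 1}) ((1 - p) ^ g)
    (fun x _ => (seg h hp g (fun k => (x.1 + (k : ℤ), x.2)) (fun a b hab => by
      have := (Prod.mk.inj hab).1
      have h2 : (a : ℤ) = b := by linarith
      exact_mod_cast h2)).le)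
  have h2 := ub μ (box (104 * g) c)
    (fun x => {σ : V → Fin 3 | ∀ k < g, σ (x.1, x.2 + (k : ℤ)) ≠ 1}) ((1 - p) ^ g)
    (fun x _ => (seg h hp g (fun k => (x.1, x.2 + (k : ℤ))) (fun a b hab => by
      have := (Prod.mk.inj hab).2
      have h2 : (a : ℤ) = b := by linarith
      exact_mod_cast h2)).le)
  have h3 : ((box (104 * g) c).card : ℝ) * (1 - p) ^ g ≤ (209 * g) ^ 2 * (1 - p) ^ g :=
    mul_le_mul_of_nonneg_right hbox hp1
  linarith

end Pool.Agent.T5h70.TT.GP2
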