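import Pool.Agent.T5h70.TT.Stm

/-!
# GP3: the corners
-/

set_option autoImplicit false

namespace Pool.Agent.T5h70.TT.GP3

open Pool.Agent.T5h70.TT MeasureTheory ProbabilityTheory

lemma frNr (c : V) (E : V × V) (hE : E ∈ frs) (u v R : ℤ) (hu : |u| ≤ R) (hv : |v| ≤ R) :
    Nr R (fr c E u v) c := by
  rw [abs_le] at hu hv
  simp only [frs, Finset.mem_insert, Finset.mem_singleton] at hE
  rcases hE with rfl | rfl | rfl | rfl | rfl | rfl | rfl | rfl <;>
  · simp only [Nr, fr, abs_le]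
    refine ⟨⟨?_, ?_⟩, ?_, ?_⟩ <;> omega

lemma frB (c : V) (E : V × V) (hE : E ∈ frs) (u v u' v' : ℤ) (h : |u - u'| ≤ 1) :
    |(fr c E u v).1 - (fr c E u' v').1| ≤ 1 ∨ |(fr c E u v).2 - (fr c E u' v').2| ≤ 1 := by
  rw [abs_le] at h
  simp only [frs, Finset.mem_insert, Finset.mem_singleton] at hE
  rcases hE with rfl | rfl | rfl | rfl | rfl | rfl | rfl | rfl <;>
  · simp only [fr, abs_le]
    omega

lemma frinj (c : V) (E : V × V) (hE : E ∈ frs) (u v u' v' : ℤ) (h : fr c E u v = fr c E u' v') :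
    u = u' ∧ v = v' := by
  simp only [frs, Finset.mem_insert, Finset.mem_singleton] at hE
  rcases hE with rfl | rfl | rfl | rfl | rfl | rfl | rfl | rfl <;>
  · simp only [fr, Prod.mk.injEq] at h
    omega

lemma one2 (g : ℕ) (c : V) (σ : V → Fin 3) (hG : G1 g c σ) (E : V × V) (hE : E ∈ frs) (u0 v0 : ℤ)
    (N : ℕ) (h1 : -(104 * g) ≤ u0) (h2 : u0 + N ≤ 104 * g) (h3 : -(104 * g) ≤ v0)
    (h4 : v0 + 2 * g ≤ 104 * g) :
    One2 (fun w => σ (fr c E (u0 + w.1) (v0 + w.2))) N g := by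
  intro x y hx hy hx1 hx2 hx3 hx4 hy1 hy2 hy3 hy4 hxy
  have h := hG (fr c E (u0 + x.1) (v0 + x.2)) (fr c E (u0 + y.1) (v0 + y.2))
    (frNr c E hE _ _ _ (abs_le.2 ⟨by omega, by omega⟩) (abs_le.2 ⟨by omega, by omega⟩))
    (frNr c E hE _ _ _ (abs_le.2 ⟨by omega, by omega⟩) (abs_le.2 ⟨by omega, by omega⟩)) hx hy
    (frB c E hE _ _ _ _ (by rw [abs_le] at hxy ⊢; omega))
  have h5 := frinj c E hE _ _ _ _ h
  exact Prod.ext (by omega) (by omega)

lemma corner (h1 : S_PRA) (h2 : S_PRB) (h3 : S_PUSH) (μ : Measure (V → Fin 3)) (p q : ℝ)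
    (hμ : Prod3 μ p q) (hp : 0 < p) (g : ℕ) (c : V) (E : V × V) (hE : E ∈ frs) (u0 v0 : ℤ) (N : ℕ)
    (k1 : -(104 * g) ≤ u0) (k2 : u0 + N ≤ 104 * g) (k3 : -(104 * g) ≤ v0)
    (k4 : v0 + 2 * g ≤ 104 * g) :
    μ.real {σ | G1 g c σ ∧ ¬ Cor0 (fun w => σ (fr c E (u0 + w.1) (v0 + w.2))) N g} ≤
      2 * N * q / (p ^ 2 * (g + 1)) := by
  have := hμ.prob
  have hinj : Function.Injective fun w : V => fr c E (u0 + w.1) (v0 + w.2) := by
    intro x y h
    have h5 := frinj c E hE _ _ _ _ h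
    exact Prod.ext (by omega) (by omega)
  obtain ⟨hm, hP⟩ := h3 μ p q hμ _ hinj
  have := hP.prob
  refine le_trans ?_ (h2 _ p q hP hp N g)
  rw [measureReal_def, measureReal_def]
  refine ENNReal.toReal_mono (measure_ne_top _ _) ?_
  refine le_trans (measure_mono ?_) (Measure.le_map_apply hm.aemeasurable _)
  rintro σ ⟨hG, hC⟩
  by_contra hcon
  rw [Set.mem_preimage, Set.mem_ofPred_eq, not_lt] at hcon
  exact hC (h1 _ N g (one2 g c σ hG E hE u0 v0 N k1 k2 k3 k4) hcon)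

theorem t_GP3 (h1 : S_PRA) (h2 : S_PRB) (h3 : S_PUSH) : S_GP3 := by
  classical
  intro μ p q hμ hp g c hg
  have := hμ.prob
  have hq : 0 ≤ q := by
    rw [← hμ.two 0]
    exact measureReal_nonneg
  have hsub : {σ | G1 g c σ ∧ ¬ G3 g c σ} ⊆ ⋃ E ∈ frs,
      ({σ | G1 g c σ ∧ ¬ Cor0 (fun w => σ (fr c E (3 * g + w.1) (-3 * g + w.2))) (101 * g) g} ∪
      ({σ | G1 g c σ ∧ ¬ Cor0 (fun w => σ (fr c E (2 * g + w.1) (-104 * g + w.2))) g g} ∪
      {σ | G1 g c σ ∧ ¬ Cor0 (fun w => σ (fr c E (2 * g + w.1) (-3 * g + w.2))) g g})) := by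
    rintro σ ⟨hG, h⟩
    unfold G3 at h
    push Not at h
    obtain ⟨E, hE, h⟩ := h
    simp only [Set.mem_iUnion]
    refine ⟨E, hE, ?_⟩
    by_cases c1 : Cor0 (fun w => σ (fr c E (3 * g + w.1) (-3 * g + w.2))) (101 * g) g
    · right
      by_cases c2 : Cor0 (fun w => σ (fr c E (2 * g + w.1) (-104 * g + w.2))) g g
      · right
        exact ⟨hG, h c1 c2⟩
      · left
        exact ⟨hG, c2⟩
    · left
      exact ⟨hG, c1⟩
  refine (measureReal_mono hsub (measure_ne_top _ _)).trans ((measureReal_biUnion_finset_le _ _).trans ?_)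
  have hb : ∀ E ∈ frs, μ.real
      ({σ | G1 g c σ ∧ ¬ Cor0 (fun w => σ (fr c E (3 * g + w.1) (-3 * g + w.2))) (101 * g) g} ∪
      ({σ | G1 g c σ ∧ ¬ Cor0 (fun w => σ (fr c E (2 * g + w.1) (-104 * g + w.2))) g g} ∪
      {σ | G1 g c σ ∧ ¬ Cor0 (fun w => σ (fr c E (2 * g + w.1) (-3 * g + w.2))) g g})) ≤
      206 * q / p ^ 2 := by
    intro E hE
    have a1 := corner h1 h2 h3 μ p q hμ hp g c E hE (3 * g) (-3 * g) (101 * g) (by omega)
      (by push_cast; omega) (by omega) (by omega)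
    have a2 := corner h1 h2 h3 μ p q hμ hp g c E hE (2 * g) (-104 * g) g (by omega)
      (by push_cast; omega) (by omega) (by omega)
    have a3 := corner h1 h2 h3 μ p q hμ hp g c E hE (2 * g) (-3 * g) g (by omega)
      (by push_cast; omega) (by omega) (by omega)
    refine (measureReal_union_le _ _).trans ((add_le_add a1 ((measureReal_union_le _ _).trans
      (add_le_add a2 a3))).trans ?_)
    have hp2 : 0 < p ^ 2 := by positivity
    have hg0 : (0 : ℝ) ≤ g := Nat.cast_nonneg g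
    have e : 2 * ((101 * g : ℕ) : ℝ) * q / (p ^ 2 * (g + 1)) + (2 * (g : ℝ) * q / (p ^ 2 * (g + 1)) +
        2 * (g : ℝ) * q / (p ^ 2 * (g + 1))) = (206 * q / p ^ 2) * (g / (g + 1)) := by
      push_cast
      field_simp
      ring
    rw [e]
    have h6 : (g : ℝ) / (g + 1) ≤ 1 := by
      rw [div_le_one (by positivity)]
      linarith
    have h7 : 0 ≤ 206 * q / p ^ 2 := by positivity
    nlinarith
  refine (Finset.sum_le_sum hb).trans ?_
  rw [Finset.sum_const, nsmul_eq_mul]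
  have hc : (frs.card : ℝ) ≤ 8 := by
    have : frs.card ≤ 8 := by decide
    exact_mod_cast this
  have h7 : 0 ≤ q / p ^ 2 := by positivity
  have e1 : 206 * q / p ^ 2 = 206 * (q / p ^ 2) := by ring
  have e2 : 2000 * q / p ^ 2 = 2000 * (q / p ^ 2) := by ring
  rw [e1, e2]
  nlinarith [mul_le_mul_of_nonneg_right hc h7]

end Pool.Agent.T5h70.TT.GP3
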