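import Pool.Agent.T5h70.TT.Stm

/-! Project TT, task GROW (helper85) -/

set_option autoImplicit false

namespace Pool.Agent.T5h70.TT.GROW

open Pool.Agent.T5h70.TT

theorem fr_1 (c e f : V) (u v : ℤ) : fr c (e, -f) u v = fr c (e, f) u (-v) := by
  simp only [fr, Prod.fst_neg, Prod.snd_neg]
  ext <;> simp only <;> ring

theorem fr_2 (c e f : V) (u v : ℤ) : fr c (f, e) u v = fr c (e, f) v u := by
  simp only [fr]
  ext <;> simp only <;> ring

theorem fr_3 (c e f : V) (u v : ℤ) : fr c (f, -e) u v = fr c (e, f) (-v) u := by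
  simp only [fr, Prod.fst_neg, Prod.snd_neg]
  ext <;> simp only <;> ring

theorem fr_4 (c e f : V) (u v : ℤ) : fr c (-f, e) u v = fr c (e, f) v (-u) := by
  simp only [fr, Prod.fst_neg, Prod.snd_neg]
  ext <;> simp only <;> ring

theorem fr_5 (c e f : V) (u v : ℤ) : fr c (-f, -e) u v = fr c (e, f) (-v) (-u) := by
  simp only [fr, Prod.fst_neg, Prod.snd_neg]
  ext <;> simp only <;> ring

theorem aux (hC : S_COLF) {σ : V → Fin 3} {O : Set V} {g : ℕ} {c : V} (hg : 1 ≤ g)
    (hE : Env σ O (104 * g) c) (h1 : G1 g c σ) (h2 : G2 g c σ) (h3 : G3 g c σ) (e f : V)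
    (f1 : (e, f) ∈ frs) (f2 : (e, -f) ∈ frs) (f3 : (f, e) ∈ frs) (f4 : (f, -e) ∈ frs)
    (f5 : (-f, e) ∈ frs) (f6 : (-f, -e) ∈ frs)
    (hcore : ∀ u v : ℤ, |u| ≤ 3 * g → |v| ≤ 3 * g → σ (fr c (e, f) u v) ≠ 2 →
      fr c (e, f) u v ∈ O) :
    ∀ u v : ℤ, 97 * g ≤ u → u ≤ 103 * g → |v| ≤ 3 * g → σ (fr c (e, f) u v) ≠ 2 →
      fr c (e, f) u v ∈ O := by
  have hg' : (1 : ℤ) ≤ g := by exact_mod_cast hg
  -- stage 1
  have s1 : ∀ u v : ℤ, 3 * g ≤ u → u ≤ 104 * g → |v| ≤ 2 * g → σ (fr c (e, f) u v) ≠ 2 →
      fr c (e, f) u v ∈ O := by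
    have hc1 := (h3 _ f2).1
    have hc2 := (h3 _ f1).1
    have key := hC σ O g c hg hE h1 h2 (e, f) f1 (101 * g) (6 * g) (3 * g) (-3 * g)
      (by linarith) (by linarith) (by push_cast; linarith) (by linarith) (by linarith)
      (fun v hv0 hv1 hs => hcore _ _ (by rw [abs_le]; constructor <;> linarith)
        (by rw [abs_le]; constructor <;> linarith) hs)
      (by
        convert hc1 using 3
        rw [fr_1]
        congr 1
        ring) hc2
    intro u v hu0 hu1 hv hs
    rw [abs_le] at hv
    have := key (u - 3 * g) (v + 3 * g) (by linarith) (by push_cast; linarith) (by linarith)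
      (by linarith)
    have e1 : (3 * g + (u - 3 * g) : ℤ) = u := by ring
    have e2 : (-3 * g + (v + 3 * g) : ℤ) = v := by ring
    rw [e1, e2] at this
    exact this hs
  -- stage 2, above
  have s2 : ∀ u v : ℤ, -(2 * g) ≤ u → u ≤ 103 * g → 2 * g ≤ v → v ≤ 3 * g →
      σ (fr c (e, f) u v) ≠ 2 → fr c (e, f) u v ∈ O := by
    have hc1 := (h3 _ f4).2.1
    have hc2 := (h3 _ f3).2.2
    have key := hC σ O g c hg hE h1 h2 (f, e) f3 g (107 * g) (2 * g) (-3 * g)
      (by linarith) (by linarith) (by linarith) (by linarith) (by linarith)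
      (by
        intro v hv0 hv1 hs
        rw [fr_2] at hs ⊢
        rcases le_total (-3 * (g : ℤ) + v) (3 * g) with h | h
        · exact hcore _ _ (by rw [abs_le]; constructor <;> linarith)
            (by rw [abs_le]; constructor <;> linarith) hs
        · exact s1 _ _ h (by linarith) (by rw [abs_le]; constructor <;> linarith) hs)
      (by
        convert hc1 using 3
        rw [fr_3, fr_2]
        congr 1
        ring) hc2
    intro u v hu0 hu1 hv0 hv1 hs
    have := key (v - 2 * g) (u + 3 * g) (by linarith) (by linarith) (by linarith)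
      (by linarith)
    have e1 : (2 * g + (v - 2 * g) : ℤ) = v := by ring
    have e2 : (-3 * g + (u + 3 * g) : ℤ) = u := by ring
    rw [e1, e2, fr_2] at this
    exact this hs
  -- stage 2, below
  have s3 : ∀ u v : ℤ, -(2 * g) ≤ u → u ≤ 103 * g → 2 * g ≤ v → v ≤ 3 * g →
      σ (fr c (e, f) u (-v)) ≠ 2 → fr c (e, f) u (-v) ∈ O := by
    have hc1 := (h3 _ f6).2.1
    have hc2 := (h3 _ f5).2.2
    have key := hC σ O g c hg hE h1 h2 (-f, e) f5 g (107 * g) (2 * g) (-3 * g)
      (by linarith) (by linarith) (by linarith) (by linarith) (by linarith)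
      (by
        intro v hv0 hv1 hs
        rw [fr_4] at hs ⊢
        rcases le_total (-3 * (g : ℤ) + v) (3 * g) with h | h
        · exact hcore _ _ (by rw [abs_le]; constructor <;> linarith)
            (by rw [abs_le]; constructor <;> linarith) hs
        · exact s1 _ _ h (by linarith) (by rw [abs_le]; constructor <;> linarith) hs)
      (by
        convert hc1 using 3
        rw [fr_5, fr_4]
        congr 1
        ring) hc2
    intro u v hu0 hu1 hv0 hv1 hs
    have := key (v - 2 * g) (u + 3 * g) (by linarith) (by linarith) (by linarith)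
      (by linarith)
    have e1 : (2 * g + (v - 2 * g) : ℤ) = v := by ring
    have e2 : (-3 * g + (u + 3 * g) : ℤ) = u := by ring
    rw [e1, e2, fr_4] at this
    exact this hs
  intro u v hu0 hu1 hv hs
  rw [abs_le] at hv
  rcases le_total v (2 * g) with h | h
  · rcases le_total (-(2 * (g : ℤ))) v with h' | h'
    · exact s1 u v (by linarith) (by linarith) (abs_le.2 ⟨by linarith, h⟩) hs
    · have := s3 u (-v) (by linarith) hu1 (by linarith) (by linarith)
      rw [neg_neg] at this
      exact this hs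
  · exact s2 u v (by linarith) hu1 h hv.2 hs

end Pool.Agent.T5h70.TT.GROW

namespace Pool.Agent.T5h70.TT.GROW

theorem t_GROW (h : S_COLF) : S_GROW := by
  intro σ O g z z' hg hE h1 h2 h3 hz hc x hx hs
  have main : ∀ e f : V, (e, f) ∈ frs → (e, -f) ∈ frs → (f, e) ∈ frs → (f, -e) ∈ frs →
      (-f, e) ∈ frs → (-f, -e) ∈ frs →
      (∀ u v : ℤ, |u| ≤ 3 * g → |v| ≤ 3 * g → Nr (3 * g) (fr (cen g z) (e, f) u v) (cen g z)) →
      (∃ u v : ℤ, 97 * g ≤ u ∧ u ≤ 103 * g ∧ |v| ≤ 3 * g ∧ x = fr (cen g z) (e, f) u v) →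
      x ∈ O := by
    intro e f f1 f2 f3 f4 f5 f6 hn ⟨u, v, hu0, hu1, hv, hx⟩
    rw [hx] at hs ⊢
    exact aux h hg hE h1 h2 h3 e f f1 f2 f3 f4 f5 f6
      (fun u v hu hv hs => hc _ (hn u v hu hv) hs) u v hu0 hu1 hv hs
  obtain ⟨x1, x2⟩ := x
  obtain ⟨z1, z2⟩ := z
  unfold nbrs at hz
  simp only [Finset.mem_insert, Finset.mem_singleton] at hz
  unfold Nr cen at hx
  rcases hz with h | h | h | h <;> rw [h] at hx <;> simp only [abs_le] at hx <;>
    obtain ⟨⟨ha, hb⟩, hc', hd⟩ := hx
  · refine main (1, 0) (0, 1) (by decide) (by decide) (by decide) (by decide) (by decide)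
      (by decide) ?_ ⟨x1 - 100 * g * z1, x2 - 100 * g * z2, by linarith, by linarith,
        by rw [abs_le]; constructor <;> linarith, ?_⟩
    · intro u v hu hv
      simp only [fr, cen, Nr]
      constructor <;> [convert hu using 2; convert hv using 2] <;> ring
    · simp only [fr, cen]
      ext <;> simp only <;> ring
  · refine main (-1, 0) (0, 1) (by decide) (by decide) (by decide) (by decide) (by decide)
      (by decide) ?_ ⟨-(x1 - 100 * g * z1), x2 - 100 * g * z2, by linarith, by linarith,
        by rw [abs_le]; constructor <;> linarith, ?_⟩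
    · intro u v hu hv
      simp only [fr, cen, Nr]
      rw [← abs_neg u] at hu
      constructor <;> [convert hu using 2; convert hv using 2] <;> ring
    · simp only [fr, cen]
      ext <;> simp only <;> ring
  · refine main (0, 1) (1, 0) (by decide) (by decide) (by decide) (by decide) (by decide)
      (by decide) ?_ ⟨x2 - 100 * g * z2, x1 - 100 * g * z1, by linarith, by linarith,
        by rw [abs_le]; constructor <;> linarith, ?_⟩
    · intro u v hu hv
      simp only [fr, cen, Nr]
      constructor <;> [convert hv using 2; convert hu using 2] <;> ring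
    · simp only [fr, cen]
      ext <;> simp only <;> ring
  · refine main (0, -1) (1, 0) (by decide) (by decide) (by decide) (by decide) (by decide)
      (by decide) ?_ ⟨-(x2 - 100 * g * z2), x1 - 100 * g * z1, by linarith, by linarith,
        by rw [abs_le]; constructor <;> linarith, ?_⟩
    · intro u v hu hv
      simp only [fr, cen, Nr]
      rw [← abs_neg u] at hu
      constructor <;> [convert hv using 2; convert hu using 2] <;> ring
    · simp only [fr, cen]
      ext <;> simp only <;> ring

end Pool.Agent.T5h70.TT.GROW
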