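import Pool.Agent.T5h70.TT.Stm

/-!
# Project TT, task IND: measurability and independence (helper60)
-/

set_option autoImplicit false
set_option linter.all false

namespace Pool.Agent.T5h70.TT.IND

open Pool.Agent.T5h70.TT
open MeasureTheory ProbabilityTheory Filter Topology

/-- the restriction of a configuration -/
def res (s : Finset V) (σ : V → Fin 3) (i : s) : Fin 3 := σ i

lemma res_meas (s : Finset V) : Measurable (res s) :=
  measurable_pi_lambda _ fun i => measurable_pi_apply _

lemma preimage_image {S : Set V} {F : (V → Fin 3) → Prop} (hS : S.Finite) (hF : DepOn S F) :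
    {σ | F σ} = res hS.toFinset ⁻¹' (res hS.toFinset '' {σ | F σ}) := by
  apply Set.Subset.antisymm (Set.subset_preimage_image _ _)
  rintro σ ⟨τ, hτ, h⟩
  refine hF τ σ (fun x hx => ?_) hτ
  exact congrFun h ⟨x, hS.mem_toFinset.2 hx⟩

lemma meas_all {s : Finset V} (A : Set (s → Fin 3)) : MeasurableSet A := A.toFinite.measurableSet

theorem t_IND : S_IND := by
  intro μ p q hμ
  have := hμ.prob
  constructor
  · intro S F hS hF
    rw [preimage_image hS hF]
    exact res_meas _ (meas_all _)
  · intro S T F G hS hT hST hF hG
    have hd : Disjoint hS.toFinset hT.toFinset := by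
      rw [Set.Finite.disjoint_toFinset]
      exact hST
    have h1 := hμ.ind.indepFun_finset hS.toFinset hT.toFinset hd (fun i => measurable_pi_apply i)
    have h2 := h1.measure_inter_preimage_eq_mul (res hS.toFinset '' {σ | F σ})
      (res hT.toFinset '' {σ | G σ}) (meas_all _) (meas_all _)
    have e1 : {σ | F σ ∧ G σ} = {σ | F σ} ∩ {σ | G σ} := rfl
    have h3 : μ ({σ | F σ} ∩ {σ | G σ}) = μ {σ | F σ} * μ {σ | G σ} := by
      rw [preimage_image hS hF, preimage_image hT hG]
      exact h2
    rw [e1, measureReal_def, measureReal_def, measureReal_def, h3, ENNReal.toReal_mul]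

end Pool.Agent.T5h70.TT.IND
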