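import Pool.Agent.T5h70.TT.Stm

/-!
# MAIN: the choice of the parameters
-/

set_option autoImplicit false

namespace Pool.Agent.T5h70.TT.MAIN

open Pool.Agent.T5h70.TT MeasureTheory ProbabilityTheory

theorem t_MAIN (h1 : S_SUM) (h2 : S_GP0) (h3 : S_GP1) (h4 : S_GP2) (h5 : S_GP3) (h6 : S_AS1)
    (h7 : S_AS2) (h8 : S_AS3) (h9 : S_AS4) : S_MAIN := by
  intro θ hθ
  set δ : ℝ := min (1 / 131072) (θ / 300) with hδ
  have hδ0 : 0 < δ := lt_min (by norm_num) (by positivity)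
  have hδ1 : δ ≤ 1 / 131072 := min_le_left _ _
  have hδ2 : δ ≤ θ / 300 := min_le_right _ _
  obtain ⟨ε, hε, m1, H1⟩ := h6 δ hδ0
  obtain ⟨m2, H2⟩ := h7 (θ / 10) (by positivity)
  obtain ⟨m3, H3⟩ := h8 (θ / 10) (by positivity)
  obtain ⟨m4, H4⟩ := h9 (θ / 10) (by positivity)
  refine ⟨min ε (1 / 4), min (min 1 (θ / 10)) (1 / ((m1 : ℝ) + m2 + m3 + m4 + 2)),
    lt_min hε (by norm_num), lt_min (lt_min one_pos (by positivity)) (by positivity), ?_⟩
  intro μ p q hμ hp hp0 hq hqp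
  have := hμ.prob
  have hp1 : p < 1 := hp0.trans_le ((min_le_left _ _).trans (min_le_left _ _))
  have hp2 : p < θ / 10 := hp0.trans_le ((min_le_left _ _).trans (min_le_right _ _))
  have hp3 : p < 1 / ((m1 : ℝ) + m2 + m3 + m4 + 2) := hp0.trans_le (min_le_right _ _)
  have hp4 : (m1 : ℝ) + m2 + m3 + m4 + 2 < 1 / p := by
    rw [lt_div_iff₀ (by positivity)] at hp3 ⊢
    linarith
  set m : ℕ := ⌈1 / p⌉₊ with hm
  have hm1 : 1 / p ≤ m := Nat.le_ceil _
  have hm2 : (m : ℝ) < 1 / p + 1 := Nat.ceil_lt_add_one (by positivity)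
  have hmm : m1 + m2 + m3 + m4 + 2 ≤ m := by
    have : ((m1 + m2 + m3 + m4 + 2 : ℕ) : ℝ) ≤ m := by
      push_cast
      linarith
    exact_mod_cast this
  have hm0 : (0 : ℝ) < m := by
    have : 0 < m := by omega
    exact_mod_cast this
  have a1 : 1 / (m : ℝ) ≤ p := by
    rw [div_le_iff₀ hm0]
    rw [div_le_iff₀ hp] at hm1
    linarith
  have a2 : p ≤ 2 / (m : ℝ) := by
    rw [le_div_iff₀ hm0]
    have h : p * (m : ℝ) ≤ p * (1 / p + 1) := mul_le_mul_of_nonneg_left hm2.le hp.le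
    have e : p * (1 / p + 1) = 1 + p := by
      field_simp
    linarith
  have a3 : q ≤ ε * p ^ 2 := hqp.trans (mul_le_mul_of_nonneg_right (min_le_left _ _) (sq_nonneg p))
  have a4 : q ≤ p ^ 2 / 4 := by
    refine hqp.trans ?_
    have := mul_le_mul_of_nonneg_right (min_le_right ε (1 / 4 : ℝ)) (sq_nonneg p)
    linarith
  have a5 : q ≤ 1 / (m : ℝ) ^ 2 := by
    refine a4.trans ?_
    have h : p ^ 2 ≤ (2 / (m : ℝ)) ^ 2 := pow_le_pow_left₀ hp.le a2 2
    have e : (2 / (m : ℝ)) ^ 2 = 4 * (1 / (m : ℝ) ^ 2) := by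
      field_simp
      norm_num
    rw [e] at h
    linarith
  have hg : 1 ≤ gg m := by
    unfold gg
    have : 0 < Nat.clog 2 m := Nat.clog_pos (by norm_num) (by omega)
    have h4m : 0 < 4 * m := by omega
    exact Nat.mul_pos h4m this
  have hJ : 1 ≤ JJ m := by
    unfold JJ
    refine Nat.clog_pos (by norm_num) ?_
    have : 1 ≤ gg m * m := Nat.mul_pos hg (by omega)
    calc 2 ≤ 4 * 1 := by norm_num
      _ ≤ 4 * (gg m * m) := Nat.mul_le_mul_left 4 this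
      _ = 4 * gg m * m := by ring
  have hgood : ∀ z, μ.real {σ | ¬ Good (gg m) (cen (gg m) z) σ} ≤ δ := by
    intro z
    have hsub : {σ | ¬ Good (gg m) (cen (gg m) z) σ} ⊆ {σ | ¬ G0 (gg m) (cen (gg m) z) σ} ∪
        ({σ | ¬ G1 (gg m) (cen (gg m) z) σ} ∪ ({σ | ¬ G2 (gg m) (cen (gg m) z) σ} ∪
          {σ | G1 (gg m) (cen (gg m) z) σ ∧ ¬ G3 (gg m) (cen (gg m) z) σ})) := by
      intro σ hσ
      by_contra hcon
      simp only [Set.mem_union, not_or, Set.mem_ofPred_eq, not_not, not_and] at hcon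
      exact hσ ⟨hcon.1, hcon.2.1, hcon.2.2.1, hcon.2.2.2 hcon.2.1⟩
    refine (measureReal_mono hsub (measure_ne_top _ _)).trans ?_
    refine (measureReal_union_le _ _).trans ?_
    have u2 := measureReal_union_le (μ := μ) {σ | ¬ G1 (gg m) (cen (gg m) z) σ}
      ({σ | ¬ G2 (gg m) (cen (gg m) z) σ} ∪
          {σ | G1 (gg m) (cen (gg m) z) σ ∧ ¬ G3 (gg m) (cen (gg m) z) σ})
    have u3 := measureReal_union_le (μ := μ) {σ | ¬ G2 (gg m) (cen (gg m) z) σ}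
          {σ | G1 (gg m) (cen (gg m) z) σ ∧ ¬ G3 (gg m) (cen (gg m) z) σ}
    have b0 := h2 μ p q hμ (gg m) (cen (gg m) z) hg
    have b1 := h3 μ p q hμ (gg m) (cen (gg m) z) hg
    have b2 := h4 μ p q hμ (gg m) (cen (gg m) z) hg
    have b3 := h5 μ p q hμ hp (gg m) (cen (gg m) z) hg
    have b4 := H1 m (by omega) p q a1 a2 hq a3
    linarith
  have key := h1 μ p q hμ (gg m) δ hg hgood (by linarith) (JJ m) (m ^ gg m) (ll m) (LL m) hJ
    (Nat.one_le_pow _ _ (by omega)) le_rfl le_rfl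
  have c2 := H2 m (by omega) q hq a5
  have c3 := H3 m (by omega)
  have c4 := H4 m (by omega) p q a1 hp1.le hq a5
  have hq1 : q ≤ θ / 10 := by nlinarith
  have hall : μ.real {σ | ¬ ∃ t : ℕ, step^[t] σ 0 = 1} ≤ θ := by
    push_cast at key c2 c3 c4
    linarith
  have hu : (1 : ℝ) ≤ μ.real {σ | ∃ t : ℕ, step^[t] σ 0 = 1} +
      μ.real {σ | ¬ ∃ t : ℕ, step^[t] σ 0 = 1} := by
    have h := measureReal_union_le (μ := μ) {σ | ∃ t : ℕ, step^[t] σ 0 = 1}
      {σ | ¬ ∃ t : ℕ, step^[t] σ 0 = 1}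
    have e : {σ : V → Fin 3 | ∃ t : ℕ, step^[t] σ 0 = 1} ∪
        {σ | ¬ ∃ t : ℕ, step^[t] σ 0 = 1} = Set.univ := by
      ext σ
      simp only [Set.mem_union, Set.mem_ofPred_eq, Set.mem_univ, iff_true]
      exact em _
    rw [e, probReal_univ] at h
    exact h
  linarith

end Pool.Agent.T5h70.TT.MAIN
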