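import Pool.Agent.T5h70.TT.Stm

/-!
# Project TT, task MANY: independence of a finite family (helper60)
-/

set_option autoImplicit false
set_option linter.all false

namespace Pool.Agent.T5h70.TT.MANY

open Pool.Agent.T5h70.TT
open MeasureTheory ProbabilityTheory Filter Topology

theorem t_MANY (h : S_IND) : S_MANY := by
  classical
  intro μ p q hμ ι s
  have := hμ.prob
  induction s using Finset.induction_on with
  | empty =>
    intro A F _ _ _
    simp
  | insert a s ha ih =>
    intro A F hfin hdep hdis
    have h1 := ih A F (fun i hi => hfin i (Finset.mem_insert_of_mem hi))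
      (fun i hi => hdep i (Finset.mem_insert_of_mem hi))
      (fun i hi j hj hij => hdis i (Finset.mem_insert_of_mem hi) j (Finset.mem_insert_of_mem hj) hij)
    have h2 := (h μ p q hμ).2 (A a) (⋃ i ∈ s, A i) (F a) (fun σ => ∀ i ∈ s, F i σ)
      (hfin a (Finset.mem_insert_self a s))
      (s.finite_toSet.biUnion fun i hi => hfin i (Finset.mem_insert_of_mem hi)) ?_
      (hdep a (Finset.mem_insert_self a s)) ?_
    · rw [Finset.prod_insert ha, ← h1, ← h2]
      congr 1
      ext σ
      simp only [Set.mem_setOf_eq, Finset.mem_insert, forall_eq_or_imp]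
    · rw [Set.disjoint_iUnion₂_right]
      intro i hi
      refine hdis a (Finset.mem_insert_self a s) i (Finset.mem_insert_of_mem hi) ?_
      rintro rfl
      exact ha hi
    · intro σ τ hστ hσ i hi
      exact hdep i (Finset.mem_insert_of_mem hi) σ τ
        (fun x hx => hστ x (Set.mem_iUnion₂.2 ⟨i, hi, hx⟩)) (hσ i hi)

end Pool.Agent.T5h70.TT.MANY
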