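import Pool.Agent.T5h70.TT.Stm

/-! Project TT, task MSA: the multiscale skeleton. -/

set_option autoImplicit false

namespace Pool.Agent.T5h70.TT.MSA

open Relation

lemma par_iff {x β : V} : par x = β ↔
    16 * β.1 ≤ x.1 ∧ x.1 ≤ 16 * β.1 + 15 ∧ 16 * β.2 ≤ x.2 ∧ x.2 ≤ 16 * β.2 + 15 := by
  unfold par
  rw [Prod.ext_iff]
  simp only
  omega

/-- the bounding box of the bad children -/
def Bx (P : V → Prop) (β γ : V) : Prop :=
  (∃ δ, par δ = β ∧ P δ ∧ δ.1 ≤ γ.1) ∧ (∃ δ, par δ = β ∧ P δ ∧ γ.1 ≤ δ.1) ∧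
  (∃ δ, par δ = β ∧ P δ ∧ δ.2 ≤ γ.2) ∧ (∃ δ, par δ = β ∧ P δ ∧ γ.2 ≤ δ.2)

/-- children outside of the box -/
def ok (P : V → Prop) (β γ : V) : Prop := par γ = β ∧ ¬ Bx P β γ

/-- clean row -/
def cr (P : V → Prop) (β : V) (r : ℤ) : Prop :=
  ¬ ((∃ δ, par δ = β ∧ P δ ∧ δ.2 ≤ r) ∧ (∃ δ, par δ = β ∧ P δ ∧ r ≤ δ.2))

/-- clean column -/
def cc (P : V → Prop) (β : V) (c : ℤ) : Prop :=
  ¬ ((∃ δ, par δ = β ∧ P δ ∧ δ.1 ≤ c) ∧ (∃ δ, par δ = β ∧ P δ ∧ c ≤ δ.1))

/-- the bad children are close to each other -/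
def Few (P : V → Prop) (β : V) : Prop :=
  ∀ γ γ' : V, par γ = β → par γ' = β → P γ → P γ' → Nr 2 γ γ'

lemma ok_row {P : V → Prop} {β γ : V} (h : par γ = β) (hr : cr P β γ.2) : ok P β γ :=
  ⟨h, fun hb => hr ⟨hb.2.2.1, hb.2.2.2⟩⟩

lemma ok_col {P : V → Prop} {β γ : V} (h : par γ = β) (hc : cc P β γ.1) : ok P β γ :=
  ⟨h, fun hb => hc ⟨hb.1, hb.2.1⟩⟩

lemma ok_cases {P : V → Prop} {β γ : V} (h : ok P β γ) : cr P β γ.2 ∨ cc P β γ.1 := by
  by_contra hn
  rw [not_or] at hn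
  unfold cr cc at hn
  rw [not_not, not_not] at hn
  exact h.2 ⟨hn.2.1, hn.2.2, hn.1.1, hn.1.2⟩

lemma two_rows {P : V → Prop} {β : V} (hP : Few P β) {r s : ℤ} (h : r + 3 ≤ s) :
    cr P β r ∨ cr P β s := by
  by_contra hn
  rw [not_or] at hn
  unfold cr at hn
  rw [not_not, not_not] at hn
  obtain ⟨⟨⟨δ, h1, h2, h3⟩, -⟩, ⟨-, ⟨δ', h4, h5, h6⟩⟩⟩ := hn
  have := (hP δ δ' h1 h4 h2 h5).2
  rw [abs_le] at this
  omega

lemma two_cols {P : V → Prop} {β : V} (hP : Few P β) {r s : ℤ} (h : r + 3 ≤ s) :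
    cc P β r ∨ cc P β s := by
  by_contra hn
  rw [not_or] at hn
  unfold cc at hn
  rw [not_not, not_not] at hn
  obtain ⟨⟨⟨δ, h1, h2, h3⟩, -⟩, ⟨-, ⟨δ', h4, h5, h6⟩⟩⟩ := hn
  have := (hP δ δ' h1 h4 h2 h5).1
  rw [abs_le] at this
  omega

/-- a common clean row -/
lemma common_row {P : V → Prop} {β β' : V} (hP : Few P β) (hP' : Few P β') (a : ℤ) :
    ∃ r, a ≤ r ∧ r ≤ a + 15 ∧ cr P β r ∧ cr P β' r := by
  have h1 := two_rows hP (r := a) (s := a + 5) (by omega)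
  have h2 := two_rows hP (r := a) (s := a + 10) (by omega)
  have h3 := two_rows hP (r := a + 5) (s := a + 10) (by omega)
  have h4 := two_rows hP' (r := a) (s := a + 5) (by omega)
  have h5 := two_rows hP' (r := a) (s := a + 10) (by omega)
  have h6 := two_rows hP' (r := a + 5) (s := a + 10) (by omega)
  by_cases e1 : cr P β a ∧ cr P β' a
  · exact ⟨a, by omega, by omega, e1.1, e1.2⟩
  by_cases e2 : cr P β (a + 5) ∧ cr P β' (a + 5)
  · exact ⟨a + 5, by omega, by omega, e2.1, e2.2⟩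
  by_cases e3 : cr P β (a + 10) ∧ cr P β' (a + 10)
  · exact ⟨a + 10, by omega, by omega, e3.1, e3.2⟩
  tauto

lemma common_col {P : V → Prop} {β β' : V} (hP : Few P β) (hP' : Few P β') (a : ℤ) :
    ∃ r, a ≤ r ∧ r ≤ a + 15 ∧ cc P β r ∧ cc P β' r := by
  have h1 := two_cols hP (r := a) (s := a + 5) (by omega)
  have h2 := two_cols hP (r := a) (s := a + 10) (by omega)
  have h3 := two_cols hP (r := a + 5) (s := a + 10) (by omega)
  have h4 := two_cols hP' (r := a) (s := a + 5) (by omega)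
  have h5 := two_cols hP' (r := a) (s := a + 10) (by omega)
  have h6 := two_cols hP' (r := a + 5) (s := a + 10) (by omega)
  by_cases e1 : cc P β a ∧ cc P β' a
  · exact ⟨a, by omega, by omega, e1.1, e1.2⟩
  by_cases e2 : cc P β (a + 5) ∧ cc P β' (a + 5)
  · exact ⟨a + 5, by omega, by omega, e2.1, e2.2⟩
  by_cases e3 : cc P β (a + 10) ∧ cc P β' (a + 10)
  · exact ⟨a + 10, by omega, by omega, e3.1, e3.2⟩
  tauto

/-- steps in a set -/
def St (S : Set V) (u v : V) : Prop := v ∈ nbrs u ∧ u ∈ S ∧ v ∈ S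

lemma mem_nbrs {x y : V} : y ∈ nbrs x ↔ y = (x.1 + 1, x.2) ∨ y = (x.1 - 1, x.2) ∨
    y = (x.1, x.2 + 1) ∨ y = (x.1, x.2 - 1) := by
  unfold nbrs
  simp only [Finset.mem_insert, Finset.mem_singleton]

lemma nbrs_symm {x y : V} (h : y ∈ nbrs x) : x ∈ nbrs y := by
  rw [mem_nbrs] at h ⊢
  rcases h with rfl | rfl | rfl | rfl
  · right; left; ext <;> simp
  · left; ext <;> simp
  · right; right; right; ext <;> simp
  · right; right; left; ext <;> simp

lemma St.symm {S : Set V} {u v : V} (h : St S u v) : St S v u := ⟨nbrs_symm h.1, h.2.2, h.2.1⟩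

lemma St_symm {S : Set V} {u v : V} (h : ReflTransGen (St S) u v) : ReflTransGen (St S) v u := by
  induction h with
  | refl => exact ReflTransGen.refl
  | tail _ h2 ih => exact ReflTransGen.head h2.symm ih

lemma St_mono {S T : Set V} (h : S ⊆ T) {u v : V} (h1 : ReflTransGen (St S) u v) :
    ReflTransGen (St T) u v :=
  ReflTransGen.mono (fun _ _ h2 => ⟨h2.1, h h2.2.1, h h2.2.2⟩) _ _ h1

/-- walk along a row -/
lemma walk_row {S : Set V} {a b r : ℤ} (h : ∀ x, a ≤ x → x ≤ b → (x, r) ∈ S) {x y : ℤ}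
    (hx : a ≤ x) (hx' : x ≤ b) (hy : a ≤ y) (hy' : y ≤ b) : ReflTransGen (St S) (x, r) (y, r) := by
  have key : ∀ k : ℕ, ∀ x : ℤ, a ≤ x → x + k ≤ b → ReflTransGen (St S) (x, r) (x + k, r) := by
    intro k
    induction k with
    | zero => intro x _ _; simp only [Nat.cast_zero, add_zero]; exact ReflTransGen.refl
    | succ k ih =>
      intro x h1 h2
      push_cast at h2 ⊢
      refine ReflTransGen.tail (ih x h1 (by omega)) ⟨?_, h _ (by omega) (by omega),
        h _ (by omega) (by omega)⟩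
      rw [mem_nbrs]
      left
      simp only [Prod.mk.injEq, and_true]
      ring
  rcases le_total x y with hxy | hxy
  · have := key (y - x).toNat x hx (by omega)
    rwa [Int.toNat_of_nonneg (by omega), add_sub_cancel] at this
  · have := key (x - y).toNat y hy (by omega)
    rw [Int.toNat_of_nonneg (by omega), add_sub_cancel] at this
    exact St_symm this

lemma walk_col {S : Set V} {a b c : ℤ} (h : ∀ x, a ≤ x → x ≤ b → (c, x) ∈ S) {x y : ℤ}
    (hx : a ≤ x) (hx' : x ≤ b) (hy : a ≤ y) (hy' : y ≤ b) : ReflTransGen (St S) (c, x) (c, y) := by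
  have key : ∀ k : ℕ, ∀ x : ℤ, a ≤ x → x + k ≤ b → ReflTransGen (St S) (c, x) (c, x + k) := by
    intro k
    induction k with
    | zero => intro x _ _; simp only [Nat.cast_zero, add_zero]; exact ReflTransGen.refl
    | succ k ih =>
      intro x h1 h2
      push_cast at h2 ⊢
      refine ReflTransGen.tail (ih x h1 (by omega)) ⟨?_, h _ (by omega) (by omega),
        h _ (by omega) (by omega)⟩
      rw [mem_nbrs]
      right; right; left
      simp only [Prod.mk.injEq, true_and]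
      ring
  rcases le_total x y with hxy | hxy
  · have := key (y - x).toNat x hx (by omega)
    rwa [Int.toNat_of_nonneg (by omega), add_sub_cancel] at this
  · have := key (x - y).toNat y hy (by omega)
    rw [Int.toNat_of_nonneg (by omega), add_sub_cancel] at this
    exact St_symm this

/-- the children outside of the box are connected -/
lemma conn {P : V → Prop} {β : V} (hP : Few P β) :
    ∃ γ, ok P β γ ∧ ∀ γ', ok P β γ' → ReflTransGen (St {z | ok P β z}) γ' γ := by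
  obtain ⟨r, hr1, hr2, hr, -⟩ := common_row hP hP (16 * β.2)
  obtain ⟨c, hc1, hc2, hc, -⟩ := common_col hP hP (16 * β.1)
  have hrow : ∀ s, 16 * β.2 ≤ s → s ≤ 16 * β.2 + 15 → cr P β s → ∀ x, 16 * β.1 ≤ x →
      x ≤ 16 * β.1 + 15 → ((x, s) : V) ∈ {z | ok P β z} := by
    intro s hs1 hs2 hs x hx1 hx2
    exact ok_row (par_iff.2 ⟨hx1, hx2, hs1, hs2⟩) hs
  have hcol : ∀ s, 16 * β.1 ≤ s → s ≤ 16 * β.1 + 15 → cc P β s → ∀ x, 16 * β.2 ≤ x →
      x ≤ 16 * β.2 + 15 → ((s, x) : V) ∈ {z | ok P β z} := by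
    intro s hs1 hs2 hs x hx1 hx2
    exact ok_col (par_iff.2 ⟨hs1, hs2, hx1, hx2⟩) hs
  refine ⟨(c, r), hrow r hr1 hr2 hr c hc1 hc2, fun γ hγ => ?_⟩
  obtain ⟨g1, g2, g3, g4⟩ := par_iff.1 hγ.1
  obtain ⟨x, y⟩ := γ
  simp only at g1 g2 g3 g4
  rcases ok_cases hγ with h | h
  · exact (walk_row (hrow y g3 g4 h) g1 g2 hc1 hc2).trans
      (walk_col (hcol c hc1 hc2 hc) g3 g4 hr1 hr2)
  · exact (walk_col (hcol x g1 g2 h) g3 g4 hr1 hr2).trans
      (walk_row (hrow r hr1 hr2 hr) g1 g2 hc1 hc2)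

lemma conn' {P : V → Prop} {β : V} (hP : Few P β) {γ γ' : V} (h : ok P β γ) (h' : ok P β γ') :
    ReflTransGen (St {z | ok P β z}) γ γ' := by
  obtain ⟨δ, -, hδ⟩ := conn hP
  exact (hδ γ h).trans (St_symm (hδ γ' h'))

/-- neighbouring blocks -/
lemma conn2 {P : V → Prop} {β β' : V} (hP : Few P β) (hP' : Few P β') (hn : β' ∈ nbrs β)
    {γ γ' : V} (h : ok P β γ) (h' : ok P β' γ') :
    ReflTransGen (St {z | ok P β z ∨ ok P β' z}) γ γ' := by
  have key : ∀ {β β' : V}, Few P β → Few P β' → (β' = (β.1 + 1, β.2) ∨ β' = (β.1, β.2 + 1)) →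
      ∃ δ δ', ok P β δ ∧ ok P β' δ' ∧ δ' ∈ nbrs δ := by
    intro β β' hP hP' hn
    rcases hn with rfl | rfl
    · obtain ⟨r, h1, h2, h3, h4⟩ := common_row hP hP' (16 * β.2)
      refine ⟨(16 * β.1 + 15, r), (16 * β.1 + 16, r), ok_row (par_iff.2 ?_) h3,
        ok_row (par_iff.2 ?_) h4, ?_⟩
      · simp only; omega
      · simp only; omega
      · rw [mem_nbrs]; left; simp only [Prod.mk.injEq, and_true]; ring
    · obtain ⟨r, h1, h2, h3, h4⟩ := common_col hP hP' (16 * β.1)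
      refine ⟨(r, 16 * β.2 + 15), (r, 16 * β.2 + 16), ok_col (par_iff.2 ?_) h3,
        ok_col (par_iff.2 ?_) h4, ?_⟩
      · simp only; omega
      · simp only; omega
      · rw [mem_nbrs]; right; right; left; simp only [Prod.mk.injEq, true_and]; ring
  obtain ⟨δ, δ', h1, h2, h3⟩ : ∃ δ δ', ok P β δ ∧ ok P β' δ' ∧ δ' ∈ nbrs δ := by
    rw [mem_nbrs] at hn
    rcases hn with e | e | e | e
    · exact key hP hP' (Or.inl e)
    · obtain ⟨δ, δ', h1, h2, h3⟩ := key hP' hP (Or.inl (by rw [e]; ext <;> simp))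
      exact ⟨δ', δ, h2, h1, nbrs_symm h3⟩
    · exact key hP hP' (Or.inr e)
    · obtain ⟨δ, δ', h1, h2, h3⟩ := key hP' hP (Or.inr (by rw [e]; ext <;> simp))
      exact ⟨δ', δ, h2, h1, nbrs_symm h3⟩
  have e1 := St_mono (T := {z | ok P β z ∨ ok P β' z}) (fun z hz => Or.inl hz) (conn' hP h h1)
  have e2 := St_mono (T := {z | ok P β z ∨ ok P β' z}) (fun z hz => Or.inr hz) (conn' hP' h2 h')
  exact (e1.tail ⟨h3, Or.inl h1, Or.inr h2⟩).trans e2

lemma Rch_mono {good : V → Prop} {U W : Set V} (h : U ⊆ W) {x y : V} (h1 : Rch good U x y) :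
    Rch good W x y :=
  ReflTransGen.mono (fun _ _ h2 => ⟨h2.1, h2.2.1, h2.2.2.1, h h2.2.2.2.1, h h2.2.2.2.2⟩) _ _ h1

lemma inW_iff {good : V → Prop} {j : ℕ} {β γ : V} :
    InW good j β γ ↔ Bx (fun δ => ¬ Gd good j δ) β γ := Iff.rfl

lemma gd_of_ok {good : V → Prop} {j : ℕ} {β γ : V} (h : ok (fun δ => ¬ Gd good j δ) β γ) :
    Gd good j γ := by
  by_contra hn
  exact h.2 ⟨⟨γ, h.1, hn, le_rfl⟩, ⟨γ, h.1, hn, le_rfl⟩, ⟨γ, h.1, hn, le_rfl⟩, ⟨γ, h.1, hn, le_rfl⟩⟩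

theorem t_MSA : S_MSA := by
  intro good j
  induction j with
  | zero =>
    refine ⟨fun β _ => ⟨β, rfl⟩, fun β _ x y hx hy => ?_, fun β β' hn hβ hβ' x y hx hy => ?_⟩
    · have hx' : x = β := hx
      have hy' : y = β := hy
      rw [hx', hy']
      exact ReflTransGen.refl
    · have hx' : x = β := hx
      have hy' : y = β' := hy
      rw [hx', hy']
      exact ReflTransGen.single ⟨hn, hβ, hβ', Or.inl rfl, Or.inr rfl⟩
  | succ j ih =>
    obtain ⟨ih1, ih2, ih3⟩ := ih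
    -- paths of children
    have chain : ∀ (S : Set V), (∀ γ ∈ S, Gd good j γ) → ∀ γ γ', γ ∈ S →
        ReflTransGen (St S) γ γ' → ∀ x y, Cl good j γ x → Cl good j γ' y →
        Rch good {z | par^[j] z ∈ S} x y := by
      intro S hS γ γ' hγ hp
      induction hp with
      | refl =>
        intro x y hx hy
        refine Rch_mono ?_ (ih2 γ (hS γ hγ) x y hx hy)
        intro z hz
        have : par^[j] z = γ := hz
        show par^[j] z ∈ S
        rw [this]; exact hγ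
      | @tail u v h1 h2 ihp =>
        intro x y hx hy
        obtain ⟨w, hw⟩ := ih1 u (hS u h2.2.1)
        refine (ihp x w hx hw).trans (Rch_mono ?_ (ih3 u v h2.1 (hS u h2.2.1) (hS v h2.2.2) w y hw hy))
        intro z hz
        show par^[j] z ∈ S
        rcases hz with hz | hz
        · rw [hz]; exact h2.2.1
        · rw [hz]; exact h2.2.2
    refine ⟨fun β hβ => ?_, fun β hβ x y hx hy => ?_, fun β β' hn hβ hβ' x y hx hy => ?_⟩
    · obtain ⟨γ, hγ, -⟩ := conn (P := fun δ => ¬ Gd good j δ) (β := β) hβ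
      obtain ⟨x, hx⟩ := ih1 γ (gd_of_ok hγ)
      exact ⟨x, γ, hγ.1, hγ.2, hx⟩
    · obtain ⟨γ, h1, h2, h3⟩ := hx
      obtain ⟨γ', h4, h5, h6⟩ := hy
      have hok : ok (fun δ => ¬ Gd good j δ) β γ := ⟨h1, h2⟩
      have hok' : ok (fun δ => ¬ Gd good j δ) β γ' := ⟨h4, h5⟩
      refine Rch_mono ?_ (chain {z | ok (fun δ => ¬ Gd good j δ) β z} (fun γ hγ => gd_of_ok hγ) γ γ'
        hok (conn' hβ hok hok') x y h3 h6)
      intro z hz
      have hz' : ok (fun δ => ¬ Gd good j δ) β (par^[j] z) := hz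
      show par^[j + 1] z = β
      rw [Function.iterate_succ_apply']
      exact hz'.1
    · obtain ⟨γ, h1, h2, h3⟩ := hx
      obtain ⟨γ', h4, h5, h6⟩ := hy
      have hok : ok (fun δ => ¬ Gd good j δ) β γ := ⟨h1, h2⟩
      have hok' : ok (fun δ => ¬ Gd good j δ) β' γ' := ⟨h4, h5⟩
      refine Rch_mono ?_ (chain {z | ok (fun δ => ¬ Gd good j δ) β z ∨
        ok (fun δ => ¬ Gd good j δ) β' z} (fun γ hγ => by
          rcases hγ with h | h
          · exact gd_of_ok h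
          · exact gd_of_ok h) γ γ' (Or.inl hok) (conn2 hβ hβ' hn hok hok') x y h3 h6)
      intro z hz
      show par^[j + 1] z = β ∨ par^[j + 1] z = β'
      rw [Function.iterate_succ_apply']
      rcases hz with h | h
      · exact Or.inl h.1
      · exact Or.inr h.1

end Pool.Agent.T5h70.TT.MSA
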