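import Pool.Agent.T5h70.TT.T_MSA

/-! Project TT, task MSC: from block to block. -/

set_option autoImplicit false

namespace Pool.Agent.T5h70.TT.MSC

open Relation Pool.Agent.T5h70.TT.MSA

lemma Nr_refl {r : ℤ} (hr : 0 ≤ r) (x : V) : Nr r x x := by
  unfold Nr
  simp [hr]

/-- paths of blocks -/
lemma chain (h : S_MSA) (good : V → Prop) (j : ℕ) (S : Set V) (hS : ∀ γ ∈ S, Gd good j γ) (γ γ' : V)
    (hγ : γ ∈ S) (hp : ReflTransGen (St S) γ γ') : ∀ x y, Cl good j γ x → Cl good j γ' y →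
    Rch good {z | par^[j] z ∈ S} x y := by
  obtain ⟨ih1, ih2, ih3⟩ := h good j
  induction hp with
  | refl =>
    intro x y hx hy
    refine Rch_mono ?_ (ih2 γ (hS γ hγ) x y hx hy)
    intro z hz
    have : par^[j] z = γ := hz
    show par^[j] z ∈ S
    rw [this]; exact hγ
  | @tail u v h1 h2 ihp =>
    intro x y hx hy
    obtain ⟨w, hw⟩ := ih1 u (hS u h2.2.1)
    refine (ihp x w hx hw).trans (Rch_mono ?_ (ih3 u v h2.1 (hS u h2.2.1) (hS v h2.2.2) w y hw hy))
    intro z hz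
    show par^[j] z ∈ S
    rcases hz with hz | hz
    · rw [hz]; exact h2.2.1
    · rw [hz]; exact h2.2.2

/-- clean points are in the skeleton -/
lemma cl_of_clean (good : V → Prop) (J : ℕ) (x : V) (hx : Clean good J x)
    (hJ : Gd good J (par^[J] x)) : ∀ j, j ≤ J → Cl good j (par^[j] x) x := by
  intro j
  induction j with
  | zero => intro _; exact rfl
  | succ j ih =>
    intro hj
    have hpar : Gd good (j + 1) (par^[j + 1] x) := by
      rcases Nat.lt_or_ge (j + 1) J with h | h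
      · exact hx (j + 1) h _ (Nr_refl (by norm_num) _)
      · have : j + 1 = J := by omega
        rw [this]; exact hJ
    refine ⟨par^[j] x, (Function.iterate_succ_apply' par j x).symm, ?_, ih (by omega)⟩
    rintro ⟨⟨δ, h1, h2, h3⟩, ⟨δ', h4, h5, h6⟩, ⟨ε, h7, h8, h9⟩, ⟨ε', h10, h11, h12⟩⟩
    have e1 := (hpar δ δ' h1 h4 h2 h5).1
    have e2 := (hpar δ ε h1 h7 h2 h8).2
    have e3 := (hpar δ ε' h1 h10 h2 h11).2
    apply h2
    apply hx j (by omega)
    rw [abs_le] at e1 e2 e3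
    constructor
    · rw [abs_le]; omega
    · rw [abs_le]; omega

theorem t_MSC (h : S_MSA) (h2 : S_SUPD) : S_MSC := by
  intro good J M hM x y hx1 hx2 hx3 hx4 hy1 hy2 hy3 hy4 hcx hcy
  set S : Set V := {β | 0 ≤ β.1 ∧ β.1 < M ∧ 0 ≤ β.2 ∧ β.2 < M} with hS
  have hSg : ∀ γ ∈ S, Gd good J γ := fun γ hγ => hM γ hγ.1 hγ.2.1 hγ.2.2.1 hγ.2.2.2
  have hxS : par^[J] x ∈ S := ⟨hx1, hx2, hx3, hx4⟩
  have hyS : par^[J] y ∈ S := ⟨hy1, hy2, hy3, hy4⟩
  have hpath : ReflTransGen (St S) (par^[J] x) (par^[J] y) := by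
    have e1 : ReflTransGen (St S) ((par^[J] x).1, (par^[J] x).2) ((par^[J] y).1, (par^[J] x).2) :=
      walk_row (S := S) (a := 0) (b := M - 1) (fun z h1 h3 => ⟨h1, by omega, hx3, hx4⟩) hx1 (by omega) hy1
        (by omega)
    have e2 : ReflTransGen (St S) ((par^[J] y).1, (par^[J] x).2) ((par^[J] y).1, (par^[J] y).2) :=
      walk_col (S := S) (a := 0) (b := M - 1) (fun z h1 h3 => ⟨hy1, hy2, h1, by omega⟩) hx3 (by omega) hy3
        (by omega)
    exact e1.trans e2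
  have hc := chain h good J S hSg _ _ hxS hpath x y
    (cl_of_clean good J x hcx (hSg _ hxS) J le_rfl) (cl_of_clean good J y hcy (hSg _ hyS) J le_rfl)
  refine Rch_mono ?_ hc
  intro z hz
  obtain ⟨z1, z2, z3, z4⟩ : par^[J] z ∈ S := hz
  obtain ⟨k1, k2, k3, k4⟩ := (h2.2.2.1 J z (par^[J] z)).1 rfl
  have hp : (0 : ℤ) < 16 ^ J := by positivity
  refine ⟨?_, ?_, ?_, ?_⟩
  · exact le_trans (mul_nonneg hp.le z1) k1
  · exact lt_of_lt_of_le k2 (mul_le_mul_of_nonneg_left (by omega) hp.le)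
  · exact le_trans (mul_nonneg hp.le z3) k3
  · exact lt_of_lt_of_le k4 (mul_le_mul_of_nonneg_left (by omega) hp.le)

end Pool.Agent.T5h70.TT.MSC
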