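import Pool.Agent.T5h70.TT.T_PRB

/-!
# PRA: the loss process gives the corner condition
-/

set_option autoImplicit false

namespace Pool.Agent.T5h70.TT.PRA

open Pool.Agent.T5h70.TT Pool.Agent.T5h70.TT.PRB

lemma nxt_ge (ρ : V → Fin 3) (g i : ℕ) (fl : Prop) (τ : ℕ) : τ ≤ nxt ρ g i fl τ := by
  rcases nxt_cases ρ g i fl τ with h | ⟨_, y, hy, _, _, h⟩
  · exact h.ge
  · omega

lemma t_mono (ρ : V → Fin 3) (g : ℕ) : Monotone fun i => (proc ρ g i).1 :=
  monotone_nat_of_le_succ fun i => nxt_ge ρ g i _ _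

lemma nxt_gt (ρ : V → Fin 3) (g i : ℕ) (fl : Prop) (τ y : ℕ) (h : τ ≤ g) (h1 : τ ≤ y)
    (h2 : y ≤ 2 * g) (h3 : Cnd ρ i fl τ y) : y < nxt ρ g i fl τ := by
  classical
  rw [nxt_eq ρ g i fl τ h]
  have : y + 1 ≤ ((Finset.Icc τ (2 * g)).filter fun y : ℕ => Cnd ρ i fl τ y).sup
      (fun y : ℕ => y + 1) :=
    Finset.le_sup (f := fun y : ℕ => y + 1)
      (Finset.mem_filter.2 ⟨Finset.mem_Icc.2 ⟨h1, h2⟩, h3⟩)
  exact lt_of_lt_of_le (Nat.lt_succ_self y) (this.trans (le_max_right _ _))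

theorem t_PRA : S_PRA := by
  intro ρ N g hO hN
  have hle : ∀ i, i ≤ N → (proc ρ g i).1 ≤ g := fun i hi => (t_mono ρ g hi).trans hN
  refine ⟨fun i => ((proc ρ g i).1 : ℤ), rfl, fun i _ => ?_, ?_, ?_⟩
  · exact Int.ofNat_le.2 (t_mono ρ g (Nat.le_succ i))
  · exact Int.ofNat_le.2 hN
  · intro i hi y hy1 hy2 hob hno
    obtain ⟨n, rfl⟩ := Int.eq_ofNat_of_zero_le ((Int.natCast_nonneg _).trans hy1)
    have hn1 : (proc ρ g i).1 ≤ n := Int.ofNat_le.1 hy1
    have hn2 : n ≤ 2 * g := by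
      have : ((n : ℕ) : ℤ) ≤ ((2 * g : ℕ) : ℤ) := by
        push_cast
        exact hy2
      exact_mod_cast this
    have hno2 : ∀ y' : ℕ, (proc ρ g i).1 ≤ y' → y' < n → ρ ((i : ℤ) + 1, (y' : ℤ)) ≠ 1 := by
      intro y' h1 h2
      exact hno y' (Int.ofNat_le.2 h1) (Int.ofNat_lt.2 h2)
    have key : ∀ fl : Prop, (proc ρ g i).2 = fl →
        (ρ ((i : ℤ) + 1, (n : ℤ)) = 2 ∨ (fl ∧ ρ ((i : ℤ), (n : ℤ)) = 2)) →
        (n : ℤ) < ((proc ρ g (i + 1)).1 : ℤ) := by
      intro fl hfl h
      have := nxt_gt ρ g i fl (proc ρ g i).1 n (hle i hi.le) hn1 hn2 ⟨h, hno2⟩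
      have e : (proc ρ g (i + 1)).1 = nxt ρ g i (proc ρ g i).2 (proc ρ g i).1 := rfl
      rw [e, hfl]
      exact_mod_cast this
    by_cases hfl : (proc ρ g i).2
    · refine key _ rfl ?_
      rcases hob with h | h
      · exact Or.inl h
      · exact Or.inr ⟨hfl, h⟩
    · rcases hob with h | h
      · exact key _ rfl (Or.inl h)
      · exfalso
        cases i with
        | zero => exact hfl trivial
        | succ i =>
          have e : (proc ρ g (i + 1)).2 =
            (nxt ρ g i (proc ρ g i).2 (proc ρ g i).1 = (proc ρ g i).1) := rfl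
          have e1 : (proc ρ g (i + 1)).1 = nxt ρ g i (proc ρ g i).2 (proc ρ g i).1 := rfl
          rw [e] at hfl
          rcases nxt_cases ρ g i (proc ρ g i).2 (proc ρ g i).1 with h1 | ⟨_, y, hy3, hy4, hc, h1⟩
          · exact hfl h1
          · rw [e1, h1] at hn1
            have hyn : (y : ℤ) ≤ 2 * g := by exact_mod_cast hy4
            rcases hc.1 with hc | ⟨_, hc⟩
            · have := hO ((i : ℤ) + 1, (y : ℤ)) (((i + 1 : ℕ) : ℤ), (n : ℤ)) hc h
                (by dsimp only; omega) (by dsimp only; omega) (by dsimp only; omega)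
                hyn (by dsimp only; omega) (by dsimp only; omega) (by dsimp only; omega) hy2
                (by push_cast; simp)
              simp only [Prod.mk.injEq] at this
              omega
            · have := hO ((i : ℤ), (y : ℤ)) (((i + 1 : ℕ) : ℤ), (n : ℤ)) hc h
                (by dsimp only; omega) (by dsimp only; omega) (by dsimp only; omega)
                hyn (by dsimp only; omega) (by dsimp only; omega) (by dsimp only; omega) hy2
                (by push_cast; simp)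
              simp only [Prod.mk.injEq] at this
              omega

end Pool.Agent.T5h70.TT.PRA
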