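import Pool.Agent.T5h70.TT.Stm

/-!
# PRB: the expected loss at a corner
-/

set_option autoImplicit false

namespace Pool.Agent.T5h70.TT.PRB

open Pool.Agent.T5h70.TT MeasureTheory ProbabilityTheory

/-- weighted Markov inequality -/
lemma markov {α ι : Type} [MeasurableSpace α] (μ : Measure α) [IsProbabilityMeasure μ]
    (s : Finset ι) (w : ι → ℝ) (E : ι → Set α) (A : Set α) (c : ℝ) (hA : MeasurableSet A)
    (hE : ∀ k ∈ s, MeasurableSet (E k))
    (h : ∀ x, A.indicator (fun _ => c) x ≤ ∑ k ∈ s, (E k).indicator (fun _ => w k) x) :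
    c * μ.real A ≤ ∑ k ∈ s, w k * μ.real (E k) := by
  have h1 : ∫ x, A.indicator (fun _ => c) x ∂μ ≤
      ∫ x, ∑ k ∈ s, (E k).indicator (fun _ => w k) x ∂μ := by
    refine integral_mono ?_ ?_ h
    · exact (integrable_const c).indicator hA
    · exact integrable_finsetSum s fun k hk => (integrable_const (w k)).indicator (hE k hk)
  rw [integral_indicator_const _ hA, integral_finsetSum s fun k hk =>
    (integrable_const (w k)).indicator (hE k hk)] at h1
  rw [smul_eq_mul, mul_comm] at h1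
  refine h1.trans (le_of_eq (Finset.sum_congr rfl fun k hk => ?_))
  rw [integral_indicator_const _ (hE k hk), smul_eq_mul, mul_comm]

lemma geo (p : ℝ) (hp : 0 < p) (hp1 : p ≤ 1) (n : ℕ) :
    ∑ y ∈ Finset.range n, ((y : ℝ) + 1) * (1 - p) ^ y ≤ 1 / p ^ 2 := by
  have h : ∀ n : ℕ, p ^ 2 * ∑ y ∈ Finset.range n, ((y : ℝ) + 1) * (1 - p) ^ y =
      1 - (1 - p) ^ n * (1 + n * p) := by
    intro n
    induction n with
    | zero => simp
    | succ n ih =>
      rw [Finset.sum_range_succ, mul_add, ih, pow_succ]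
      push_cast
      ring
  rw [le_div_iff₀ (by positivity), mul_comm, h n]
  have h2 : 0 ≤ (1 - p) ^ n * (1 + n * p) :=
    mul_nonneg (pow_nonneg (by linarith) n) (by positivity)
  linarith

/-- the condition of the definition of `nxt` -/
def Cnd (ρ : V → Fin 3) (i : ℕ) (fl : Prop) (τ y : ℕ) : Prop :=
  (ρ ((i : ℤ) + 1, (y : ℤ)) = 2 ∨ (fl ∧ ρ ((i : ℤ), (y : ℤ)) = 2)) ∧
    ∀ y' : ℕ, τ ≤ y' → y' < y → ρ ((i : ℤ) + 1, (y' : ℤ)) ≠ 1

open Classical in
lemma nxt_eq (ρ : V → Fin 3) (g i : ℕ) (fl : Prop) (τ : ℕ) (h : τ ≤ g) :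
    nxt ρ g i fl τ = max τ (((Finset.Icc τ (2 * g)).filter fun y : ℕ => Cnd ρ i fl τ y).sup
      (fun y : ℕ => y + 1)) := by
  unfold nxt
  rw [if_pos h]
  congr 2
  ext y
  rw [Finset.mem_filter, Finset.mem_filter]
  rfl

lemma nxt_of_gt (ρ : V → Fin 3) (g i : ℕ) (fl : Prop) (τ : ℕ) (h : ¬ τ ≤ g) :
    nxt ρ g i fl τ = τ := by
  unfold nxt
  rw [if_neg h]

/-- either no loss or there is a loss `y + 1` -/
lemma nxt_cases (ρ : V → Fin 3) (g i : ℕ) (fl : Prop) (τ : ℕ) :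
    nxt ρ g i fl τ = τ ∨ (τ ≤ g ∧ ∃ y, τ ≤ y ∧ y ≤ 2 * g ∧ Cnd ρ i fl τ y ∧
      nxt ρ g i fl τ = y + 1) := by
  classical
  by_cases h : τ ≤ g
  · rw [nxt_eq ρ g i fl τ h]
    rcases Finset.eq_empty_or_nonempty
      ((Finset.Icc τ (2 * g)).filter fun y : ℕ => Cnd ρ i fl τ y) with he | he
    · left
      rw [he]
      simp
    · right
      obtain ⟨y, hy, hy2⟩ := Finset.exists_mem_eq_sup _ he (fun y : ℕ => y + 1)
      rw [Finset.mem_filter, Finset.mem_Icc] at hy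
      refine ⟨h, y, hy.1.1, hy.1.2, hy.2, ?_⟩
      rw [hy2]
      have := hy.1.1
      omega
  · left
    exact nxt_of_gt ρ g i fl τ h

lemma nxt_le (ρ : V → Fin 3) (g i : ℕ) (fl : Prop) (τ : ℕ) (h : τ ≤ 2 * g + 1) :
    nxt ρ g i fl τ ≤ 2 * g + 1 := by
  rcases nxt_cases ρ g i fl τ with h1 | ⟨_, y, _, hy, _, h1⟩
  · omega
  · omega

lemma t_le (ρ : V → Fin 3) (g i : ℕ) : (proc ρ g i).1 ≤ 2 * g + 1 := by
  induction i with
  | zero => simp [proc]
  | succ i ih => exact nxt_le ρ g i _ _ ih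

/-- the columns `< i` -/
def SL (g i : ℕ) : Set V := {x | 0 ≤ x.1 ∧ x.1 < i ∧ 0 ≤ x.2 ∧ x.2 ≤ 2 * g}

lemma SL_finite (g i : ℕ) : (SL g i).Finite := by
  refine ((Set.finite_Icc (0 : ℤ) i).prod (Set.finite_Icc (0 : ℤ) (2 * g))).subset ?_
  rintro ⟨a, b⟩ ⟨h1, h2, h3, h4⟩
  exact ⟨⟨h1, h2.le⟩, ⟨h3, h4⟩⟩

lemma nxt_congr (ρ ρ' : V → Fin 3) (g i : ℕ) (fl : Prop) (τ : ℕ)
    (h : ∀ x ∈ SL g (i + 2), ρ x = ρ' x) : nxt ρ g i fl τ = nxt ρ' g i fl τ := by
  classical
  by_cases hτ : τ ≤ g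
  · rw [nxt_eq ρ g i fl τ hτ, nxt_eq ρ' g i fl τ hτ]
    congr 2
    refine Finset.filter_congr fun y hy => ?_
    rw [Finset.mem_Icc] at hy
    have e1 : ∀ y : ℕ, y ≤ 2 * g → ρ ((i : ℤ) + 1, (y : ℤ)) = ρ' ((i : ℤ) + 1, (y : ℤ)) := by
      intro y hy
      refine h _ ⟨by dsimp only; omega, by dsimp only; push_cast; omega, by dsimp only; omega, ?_⟩
      dsimp only
      exact_mod_cast hy
    have e2 : ρ ((i : ℤ), (y : ℤ)) = ρ' ((i : ℤ), (y : ℤ)) := by
      refine h _ ⟨by dsimp only; omega, by dsimp only; push_cast; omega, by dsimp only; omega, ?_⟩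
      dsimp only
      exact_mod_cast hy.2
    unfold Cnd
    rw [e1 y hy.2, e2]
    refine and_congr_right fun _ => forall_congr' fun y' => forall_congr' fun _ =>
      forall_congr' fun hy' => ?_
    rw [e1 y' (by omega)]
  · rw [nxt_of_gt ρ g i fl τ hτ, nxt_of_gt ρ' g i fl τ hτ]

lemma proc_congr (ρ ρ' : V → Fin 3) (g i : ℕ) (h : ∀ x ∈ SL g (i + 1), ρ x = ρ' x) :
    proc ρ g i = proc ρ' g i := by
  induction i with
  | zero => rfl
  | succ i ih =>
    have h2 := ih fun x hx => h x ⟨hx.1, by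
      have := hx.2.1
      push_cast at this ⊢
      omega, hx.2.2⟩
    simp only [proc, h2]
    rw [nxt_congr ρ ρ' g i _ _ h]

/-- the probability that there is a 2 at the depth `v + y` of column `j`, and no 1 at the depths `v + y'`,
`y' < y` of column `k` -/
lemma col_prob (hI : S_IND) (hS : S_SITE) (μ : Measure (V → Fin 3)) (p q : ℝ) (hμ : Prod3 μ p q)
    (j k : ℤ) (v y : ℕ) :
    μ.real {ρ | ρ (j, (v : ℤ) + y) = 2 ∧ ∀ y' : ℕ, y' < y → ρ (k, (v : ℤ) + y') ≠ 1} =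
      q * (1 - p) ^ y := by
  classical
  have h1 := (hI μ p q hμ).2 {(j, (v : ℤ) + y)}
    (((Finset.range y).image fun y' : ℕ => ((k, (v : ℤ) + y') : V) : Finset V) : Set V)
    (fun ρ => ρ (j, (v : ℤ) + y) = 2) (fun ρ => ∀ y' : ℕ, y' < y → ρ (k, (v : ℤ) + y') ≠ 1)
    (Set.finite_singleton _) (Finset.finite_toSet _) ?_ ?_ ?_
  · rw [h1, hμ.two]
    have h2 := (hS μ p q hμ ((Finset.range y).image fun y' : ℕ => ((k, (v : ℤ) + y') : V))).2.1
    rw [Finset.card_image_of_injective, Finset.card_range] at h2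
    · rw [← h2]
      congr 2
      ext ρ
      simp
    · intro a b hab
      simp only [Prod.mk.injEq, true_and] at hab
      omega
  · rw [Set.disjoint_singleton_left]
    simp only [Finset.coe_image, Finset.coe_range, Set.mem_image, Set.mem_Iio, Prod.mk.injEq,
      not_exists, not_and]
    intro x hx _ h
    omega
  · intro ρ ρ' h h2
    rw [← h _ (Set.mem_singleton _)]
    exact h2
  · intro ρ ρ' h h2 y' hy'
    rw [← h _ ?_]
    · exact h2 y' hy'
    · simp only [Finset.coe_image, Finset.coe_range, Set.mem_image, Set.mem_Iio]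
      exact ⟨y', hy', rfl⟩

/-- the same with `v` replaced by a random variable independent from the two columns -/
lemma rand_prob (hI : S_IND) (hS : S_SITE) (μ : Measure (V → Fin 3)) (p q : ℝ) (hμ : Prod3 μ p q)
    (hp1 : p ≤ 1) (hq : 0 ≤ q) (j k : ℤ) (y n : ℕ) (T : (V → Fin 3) → ℕ) (S : Set V)
    (hSf : S.Finite) (hTn : ∀ ρ, T ρ < n) (hT : ∀ ρ ρ', (∀ x ∈ S, ρ x = ρ' x) → T ρ = T ρ')
    (hj : ∀ x ∈ S, x.1 ≠ j) (hk : ∀ x ∈ S, x.1 ≠ k) :
    MeasurableSet {ρ : V → Fin 3 | ρ (j, (T ρ : ℤ) + y) = 2 ∧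
      ∀ y' : ℕ, y' < y → ρ (k, (T ρ : ℤ) + y') ≠ 1} ∧
    μ.real {ρ : V → Fin 3 | ρ (j, (T ρ : ℤ) + y) = 2 ∧ ∀ y' : ℕ, y' < y → ρ (k, (T ρ : ℤ) + y') ≠ 1} ≤
      q * (1 - p) ^ y := by
  classical
  have := hμ.prob
  have hX : ∀ v : ℕ, DepOn (((Finset.range (y + 1)).image fun y' : ℕ => ((j, (v : ℤ) + y') : V)) ∪
      (Finset.range (y + 1)).image fun y' : ℕ => ((k, (v : ℤ) + y') : V) : Finset V)
      (fun ρ => ρ (j, (v : ℤ) + y) = 2 ∧ ∀ y' : ℕ, y' < y → ρ (k, (v : ℤ) + y') ≠ 1) := by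
    intro v ρ ρ' h h2
    refine ⟨?_, fun y' hy' => ?_⟩
    · rw [← h _ ?_]
      · exact h2.1
      · simp only [Finset.coe_union, Finset.coe_image, Finset.coe_range]
        exact Or.inl ⟨y, Set.mem_Iio.2 (by omega), rfl⟩
    · rw [← h _ ?_]
      · exact h2.2 y' hy'
      · simp only [Finset.coe_union, Finset.coe_image, Finset.coe_range]
        exact Or.inr ⟨y', Set.mem_Iio.2 (by omega), rfl⟩
  have hD : ∀ v : ℕ, DepOn S (fun ρ => T ρ = v) := by
    intro v ρ ρ' h h2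
    show T ρ' = v
    rw [← hT ρ ρ' h]
    exact h2
  have hset : {ρ : V → Fin 3 | ρ (j, (T ρ : ℤ) + y) = 2 ∧
      ∀ y' : ℕ, y' < y → ρ (k, (T ρ : ℤ) + y') ≠ 1} =
      ⋃ v ∈ Finset.range n, {ρ | T ρ = v ∧ (ρ (j, (v : ℤ) + y) = 2 ∧
        ∀ y' : ℕ, y' < y → ρ (k, (v : ℤ) + y') ≠ 1)} := by
    ext ρ
    simp only [Set.mem_ofPred_eq, Set.mem_iUnion, Finset.mem_range, exists_prop]
    constructor
    · intro h
      exact ⟨T ρ, hTn ρ, rfl, h⟩
    · rintro ⟨v, _, rfl, h⟩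
      exact h
  have hm1 : ∀ v : ℕ, MeasurableSet {ρ : V → Fin 3 | T ρ = v} := fun v =>
    (hI μ p q hμ).1 S _ hSf (hD v)
  have hm2 : ∀ v : ℕ, MeasurableSet {ρ : V → Fin 3 | ρ (j, (v : ℤ) + y) = 2 ∧
        ∀ y' : ℕ, y' < y → ρ (k, (v : ℤ) + y') ≠ 1} := fun v =>
    (hI μ p q hμ).1 _ _ (Finset.finite_toSet _) (hX v)
  refine ⟨?_, ?_⟩
  · rw [hset]
    exact Finset.measurableSet_biUnion _ fun v _ => (hm1 v).inter (hm2 v)
  · rw [hset]
    refine (measureReal_biUnion_finset_le _ _).trans ?_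
    have e : ∀ v : ℕ, μ.real {ρ | T ρ = v ∧ (ρ (j, (v : ℤ) + y) = 2 ∧
        ∀ y' : ℕ, y' < y → ρ (k, (v : ℤ) + y') ≠ 1)} =
        μ.real {ρ | T ρ = v} * (q * (1 - p) ^ y) := by
      intro v
      rw [← col_prob hI hS μ p q hμ j k v y]
      refine (hI μ p q hμ).2 S _ (fun ρ => T ρ = v) _ hSf (Finset.finite_toSet _) ?_ (hD v) (hX v)
      rw [Set.disjoint_left]
      intro x hx hx2
      simp only [Finset.coe_union, Finset.coe_image, Finset.coe_range] at hx2
      rcases hx2 with ⟨a, _, rfl⟩ | ⟨a, _, rfl⟩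
      · exact hj _ hx rfl
      · exact hk _ hx rfl
    rw [Finset.sum_congr rfl fun v _ => e v, ← Finset.sum_mul]
    have h1 : ∑ v ∈ Finset.range n, μ.real {ρ : V → Fin 3 | T ρ = v} ≤ 1 := by
      rw [← measureReal_biUnion_finset (h := fun _ _ => measure_ne_top _ _)]
      · exact measureReal_le_one
      · intro a _ b _ hab
        rw [Function.onFun, Set.disjoint_left]
        intro ρ h1 h2
        exact hab (h1.symm.trans h2)
      · intro v _
        exact hm1 v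
    have h2 : 0 ≤ q * (1 - p) ^ y := mul_nonneg hq (pow_nonneg (by linarith) y)
    calc _ ≤ 1 * (q * (1 - p) ^ y) := mul_le_mul_of_nonneg_right h1 h2
      _ = _ := one_mul _

/-- the loss at `i - 1` (`0` for `i = 0`) -/
noncomputable def tp (g i : ℕ) (ρ : V → Fin 3) : ℕ := (proc ρ g (i - 1)).1

def X (g i y : ℕ) : Set (V → Fin 3) :=
  {ρ | ρ ((i : ℤ) + 1, ((proc ρ g i).1 : ℤ) + y) = 2 ∧
    ∀ y' : ℕ, y' < y → ρ ((i : ℤ) + 1, ((proc ρ g i).1 : ℤ) + y') ≠ 1}

def Z (g i y : ℕ) : Set (V → Fin 3) :=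
  {ρ | ρ ((i : ℤ), (tp g i ρ : ℤ) + y) = 2 ∧
    ∀ y' : ℕ, y' < y → ρ ((i : ℤ) + 1, (tp g i ρ : ℤ) + y') ≠ 1}

lemma flag (g i : ℕ) (ρ : V → Fin 3) (h : (proc ρ g i).2) : (proc ρ g i).1 = tp g i ρ := by
  unfold tp
  cases i with
  | zero => rfl
  | succ i =>
    simp only [proc, Nat.add_sub_cancel] at h ⊢
    exact h

lemma incr (g i : ℕ) (ρ : V → Fin 3) :
    ((proc ρ g (i + 1)).1 : ℝ) ≤ (proc ρ g i).1 + ∑ y ∈ Finset.range (2 * g + 1),
      ((X g i y).indicator (fun _ => (y : ℝ) + 1) ρ + (Z g i y).indicator (fun _ => (y : ℝ) + 1) ρ) := by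
  have hnn : ∀ y ∈ Finset.range (2 * g + 1), 0 ≤ (X g i y).indicator (fun _ => (y : ℝ) + 1) ρ +
      (Z g i y).indicator (fun _ => (y : ℝ) + 1) ρ := fun y _ =>
    add_nonneg (Set.indicator_nonneg (fun _ _ => by positivity) _)
      (Set.indicator_nonneg (fun _ _ => by positivity) _)
  have e : (proc ρ g (i + 1)).1 = nxt ρ g i (proc ρ g i).2 (proc ρ g i).1 := rfl
  rw [e]
  rcases nxt_cases ρ g i (proc ρ g i).2 (proc ρ g i).1 with h1 | ⟨_, y, hy1, hy2, hc, h1⟩
  · rw [h1]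
    have := Finset.sum_nonneg hnn
    linarith
  · rw [h1]
    obtain ⟨d, rfl⟩ := Nat.exists_eq_add_of_le hy1
    have hd : d ∈ Finset.range (2 * g + 1) := by
      rw [Finset.mem_range]
      omega
    have h2 := Finset.single_le_sum hnn hd
    have h3 : (d : ℝ) + 1 ≤ (X g i d).indicator (fun _ => (d : ℝ) + 1) ρ +
        (Z g i d).indicator (fun _ => (d : ℝ) + 1) ρ := by
      obtain ⟨hc1, hc2⟩ := hc
      rcases hc1 with hc1 | ⟨hf, hc1⟩
      · have hX : ρ ∈ X g i d := by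
          refine ⟨?_, fun y' hy' => ?_⟩
          · push_cast at hc1
            exact hc1
          · have := hc2 ((proc ρ g i).1 + y') (by omega) (by omega)
            push_cast at this
            exact this
        rw [Set.indicator_of_mem hX]
        have := Set.indicator_nonneg (s := Z g i d) (f := fun _ => (d : ℝ) + 1)
          (fun _ _ => by positivity) ρ
        linarith
      · have hZ : ρ ∈ Z g i d := by
          have hf2 := flag g i ρ hf
          refine ⟨?_, fun y' hy' => ?_⟩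
          · rw [← hf2]
            push_cast at hc1
            exact hc1
          · rw [← hf2]
            have := hc2 ((proc ρ g i).1 + y') (by omega) (by omega)
            push_cast at this
            exact this
        rw [Set.indicator_of_mem hZ]
        have := Set.indicator_nonneg (s := X g i d) (f := fun _ => (d : ℝ) + 1)
          (fun _ _ => by positivity) ρ
        linarith
    push_cast
    linarith

lemma total (g N : ℕ) (ρ : V → Fin 3) :
    ((proc ρ g N).1 : ℝ) ≤ ∑ i ∈ Finset.range N, ∑ y ∈ Finset.range (2 * g + 1),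
      ((X g i y).indicator (fun _ => (y : ℝ) + 1) ρ + (Z g i y).indicator (fun _ => (y : ℝ) + 1) ρ) := by
  induction N with
  | zero => simp [proc]
  | succ N ih =>
    rw [Finset.sum_range_succ]
    have := incr g N ρ
    linarith

theorem t_PRB (hI : S_IND) (hS : S_SITE) : S_PRB := by
  intro μ p q hμ hp N g
  have := hμ.prob
  have hp1 : p ≤ 1 := by
    rw [← hμ.one 0]
    exact measureReal_le_one
  have hq : 0 ≤ q := by
    rw [← hμ.two 0]
    exact measureReal_nonneg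
  have hXp : ∀ i y : ℕ, MeasurableSet (X g i y) ∧ μ.real (X g i y) ≤ q * (1 - p) ^ y := by
    intro i y
    refine rand_prob hI hS μ p q hμ hp1 hq ((i : ℤ) + 1) ((i : ℤ) + 1) y (2 * g + 2)
      (fun ρ => (proc ρ g i).1) (SL g (i + 1)) (SL_finite g (i + 1)) (fun ρ => ?_) ?_ ?_ ?_
    · have := t_le ρ g i
      omega
    · intro ρ ρ' h
      show (proc ρ g i).1 = (proc ρ' g i).1
      rw [proc_congr ρ ρ' g i h]
    · rintro x ⟨_, h, _⟩
      push_cast at h
      omega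
    · rintro x ⟨_, h, _⟩
      push_cast at h
      omega
  have hZp : ∀ i y : ℕ, MeasurableSet (Z g i y) ∧ μ.real (Z g i y) ≤ q * (1 - p) ^ y := by
    intro i y
    refine rand_prob hI hS μ p q hμ hp1 hq ((i : ℤ)) ((i : ℤ) + 1) y (2 * g + 2)
      (fun ρ => tp g i ρ) (SL g i) (SL_finite g i) (fun ρ => ?_) ?_ ?_ ?_
    · have := t_le ρ g (i - 1)
      show (proc ρ g (i - 1)).1 < _
      omega
    · intro ρ ρ' h
      show (proc ρ g (i - 1)).1 = (proc ρ' g (i - 1)).1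
      cases i with
      | zero => rfl
      | succ i =>
        rw [Nat.add_sub_cancel, proc_congr ρ ρ' g i h]
    · rintro x ⟨_, h, _⟩
      omega
    · rintro x ⟨_, h, _⟩
      omega
  have hA : MeasurableSet {ρ : V → Fin 3 | g < (proc ρ g N).1} := by
    refine (hI μ p q hμ).1 (SL g (N + 1)) (fun ρ => g < (proc ρ g N).1) (SL_finite g (N + 1)) ?_
    intro ρ ρ' h h2
    show g < (proc ρ' g N).1
    rw [← proc_congr ρ ρ' g N h]
    exact h2
  have hmk := markov μ ((Finset.range N ×ˢ Finset.range (2 * g + 1)) ×ˢ (Finset.univ : Finset Bool))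
    (fun k => (k.1.2 : ℝ) + 1)
    (fun k => if k.2 then X g k.1.1 k.1.2 else Z g k.1.1 k.1.2)
    {ρ : V → Fin 3 | g < (proc ρ g N).1} ((g : ℝ) + 1) hA (fun k _ => by
      split_ifs
      · exact (hXp _ _).1
      · exact (hZp _ _).1) ?_
  · have h1 : ∑ k ∈ (Finset.range N ×ˢ Finset.range (2 * g + 1)) ×ˢ (Finset.univ : Finset Bool),
        ((k.1.2 : ℝ) + 1) * μ.real (if k.2 then X g k.1.1 k.1.2 else Z g k.1.1 k.1.2) ≤
        ∑ k ∈ (Finset.range N ×ˢ Finset.range (2 * g + 1)) ×ˢ (Finset.univ : Finset Bool),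
        ((k.1.2 : ℝ) + 1) * (q * (1 - p) ^ k.1.2) := by
      refine Finset.sum_le_sum fun k _ => mul_le_mul_of_nonneg_left ?_ (by positivity)
      split_ifs
      · exact (hXp _ _).2
      · exact (hZp _ _).2
    have h2 : ∑ k ∈ (Finset.range N ×ˢ Finset.range (2 * g + 1)) ×ˢ (Finset.univ : Finset Bool),
        ((k.1.2 : ℝ) + 1) * (q * (1 - p) ^ k.1.2) =
        2 * N * q * ∑ y ∈ Finset.range (2 * g + 1), ((y : ℝ) + 1) * (1 - p) ^ y := by
      rw [Finset.sum_product, Finset.sum_product]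
      simp only [Finset.sum_const, Finset.card_univ, Fintype.card_bool, Finset.card_range,
        nsmul_eq_mul, Finset.mul_sum]
      refine Finset.sum_congr rfl fun y _ => ?_
      push_cast
      ring
    have h3 := geo p hp hp1 (2 * g + 1)
    have h4 : ((g : ℝ) + 1) * μ.real {ρ : V → Fin 3 | g < (proc ρ g N).1} ≤
        2 * N * q * (1 / p ^ 2) := by
      refine (hmk.trans h1).trans ?_
      rw [h2]
      exact mul_le_mul_of_nonneg_left h3 (by positivity)
    rw [le_div_iff₀ (by positivity)]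
    have h5 : 2 * (N : ℝ) * q * (1 / p ^ 2) * p ^ 2 = 2 * N * q := by
      field_simp
    nlinarith [pow_pos hp 2, mul_le_mul_of_nonneg_right h4 (pow_pos hp 2).le]
  · intro ρ
    have h1 := total g N ρ
    have h2 : ∑ i ∈ Finset.range N, ∑ y ∈ Finset.range (2 * g + 1),
      ((X g i y).indicator (fun _ => (y : ℝ) + 1) ρ +
        (Z g i y).indicator (fun _ => (y : ℝ) + 1) ρ) =
        ∑ k ∈ (Finset.range N ×ˢ Finset.range (2 * g + 1)) ×ˢ (Finset.univ : Finset Bool),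
          (if k.2 then X g k.1.1 k.1.2 else Z g k.1.1 k.1.2).indicator
            (fun _ => (k.1.2 : ℝ) + 1) ρ := by
      rw [Finset.sum_product, Finset.sum_product]
      refine Finset.sum_congr rfl fun i _ => Finset.sum_congr rfl fun y _ => ?_
      rw [Fintype.sum_bool]
      simp
    rw [h2] at h1
    refine le_trans ?_ h1
    by_cases h3 : g < (proc ρ g N).1
    · rw [Set.indicator_of_mem (by exact h3)]
      exact_mod_cast h3
    · rw [Set.indicator_of_notMem (by exact h3)]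
      positivity

end Pool.Agent.T5h70.TT.PRB
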