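import Pool.Agent.T5h70.TT.Stm

/-!
# PUSH: relabelling of the sites
-/

set_option autoImplicit false

namespace Pool.Agent.T5h70.TT.PUSH

open Pool.Agent.T5h70.TT MeasureTheory ProbabilityTheory

theorem t_PUSH : S_PUSH := by
  intro μ p q hμ φ hφ
  have hm : Measurable (fun (σ : V → Fin 3) (w : V) => σ (φ w)) :=
    measurable_pi_lambda _ fun w => measurable_pi_apply (φ w)
  have := hμ.prob
  refine ⟨hm, ?_, ?_, ?_, ?_⟩
  · exact Measure.isProbabilityMeasure_map hm.aemeasurable
  · have h := hμ.ind.precomp hφ
    rw [iIndepFun_iff_measure_inter_preimage_eq_mul] at h ⊢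
    intro S sets hs
    have h2 := h S hs
    have e1 : ∀ i ∈ S, (μ.map fun (σ : V → Fin 3) (w : V) => σ (φ w))
        ((fun σ : V → Fin 3 => σ i) ⁻¹' sets i) = μ ((fun σ : V → Fin 3 => σ (φ i)) ⁻¹' sets i) := by
      intro i hi
      rw [Measure.map_apply hm ((measurable_pi_apply i) (hs i hi))]
      rfl
    rw [Finset.prod_congr rfl e1, Measure.map_apply hm]
    · rw [← h2]
      congr 1
      ext σ
      simp
    · exact Finset.measurableSet_biInter _ fun i hi => (measurable_pi_apply i) (hs i hi)
  · intro x
    exact (map_measureReal_apply hm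
      ((measurable_pi_apply x) (measurableSet_singleton (1 : Fin 3)))).trans (hμ.one (φ x))
  · intro x
    exact (map_measureReal_apply hm
      ((measurable_pi_apply x) (measurableSet_singleton (2 : Fin 3)))).trans (hμ.two (φ x))

end Pool.Agent.T5h70.TT.PUSH
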