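import Pool.Agent.T5h70.TT.T_MANY

/-!
# Project TT, task SITE: product formulas (helper60)
-/

set_option autoImplicit false
set_option linter.all false

namespace Pool.Agent.T5h70.TT.SITE

open Pool.Agent.T5h70.TT
open MeasureTheory ProbabilityTheory Filter Topology

theorem t_SITE (h : S_IND) : S_SITE := by
  intro μ p q hμ S
  have := hμ.prob
  have key : ∀ (f : Fin 3 → Prop) (r : ℝ), (∀ x, μ.real {σ | f (σ x)} = r) →
      μ.real {σ | ∀ x ∈ S, f (σ x)} = r ^ S.card := by
    intro f r hr
    have h1 := MANY.t_MANY h μ p q hμ V S (fun x => {x}) (fun x σ => f (σ x))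
      (fun x _ => Set.finite_singleton x) (fun x _ σ τ hστ hσ => by
        have h2 := hστ x rfl
        change f (τ x)
        rw [← h2]
        exact hσ) (fun i _ j _ hij => Set.disjoint_singleton.2 hij)
    rw [h1, Finset.prod_congr rfl fun x _ => hr x, Finset.prod_const]
  have hm : ∀ (f : Fin 3 → Prop) (x : V), MeasurableSet {σ : V → Fin 3 | f (σ x)} := by
    intro f x
    refine (h μ p q hμ).1 {x} (fun σ => f (σ x)) (Set.finite_singleton x) ?_
    intro σ τ hστ hσ
    have h2 := hστ x rfl
    change f (τ x)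
    rw [← h2]
    exact hσ
  have hc : ∀ (f : Fin 3 → Prop) (x : V), μ.real {σ | ¬ f (σ x)} = 1 - μ.real {σ | f (σ x)} := by
    intro f x
    have h1 := measureReal_compl (μ := μ) (hm f x)
    rw [probReal_univ] at h1
    rw [← h1]
    rfl
  refine ⟨key (fun a => a = 1) p hμ.one, key (fun a => a ≠ 1) (1 - p) fun x => ?_,
    key (fun a => a ≠ 2) (1 - q) fun x => ?_, key (fun a => a = 2) q hμ.two⟩
  · rw [← hμ.one x]
    exact hc (fun a => a = 1) x
  · rw [← hμ.two x]
    exact hc (fun a => a = 2) x

end Pool.Agent.T5h70.TT.SITE
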