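import Pool.Agent.T5h70.TT.Stm

/-!
# SUM: the union bound
-/

set_option autoImplicit false

namespace Pool.Agent.T5h70.TT.SUM

open Pool.Agent.T5h70.TT MeasureTheory ProbabilityTheory

theorem t_SUM (h1 : S_CHN) (h2 : S_ALP) (h3 : S_GDP) (h4 : S_CLP) (h5 : S_TRI) (h6 : S_SITE) :
    S_SUM := by
  classical
  intro μ p q hμ g δ hg hδ hδ2 J m ℓ L hJ hm hℓ hL
  have := hμ.prob
  have hδ0 : 0 ≤ δ := measureReal_nonneg.trans (hδ 0)
  set A1 : Set (V → Fin 3) := {σ | ∀ x ∈ ({0} : Finset V), σ x = 2}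
  set A2 : Set (V → Fin 3) := {σ | Big L (2 * (10 * g : ℕ)) σ}
  set B : V → Set (V → Fin 3) := fun β => {σ | ¬ Gd (fun z => Good g (cen g z) σ) J β}
  set A4 : Set (V → Fin 3) := {σ | ¬ Clean (fun z => Good g (cen g z) σ) J 0}
  set A5 : Set (V → Fin 3) :=
    {σ | ∀ i j : ℕ, i < m → j < m → ¬ Trial g J (3 * (i : ℤ), 3 * (j : ℤ)) σ}
  set S : Finset (ℕ × ℕ) := Finset.range (3 * m) ×ˢ Finset.range (3 * m)
  have hsub : {σ | ¬ ∃ t : ℕ, step^[t] σ 0 = 1} ⊆
      A1 ∪ (A2 ∪ ((⋃ k ∈ S, B ((k.1 : ℤ), (k.2 : ℤ))) ∪ (A4 ∪ A5))) := by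
    intro σ hσ
    by_contra hcon
    simp only [Set.mem_union, not_or] at hcon
    obtain ⟨c1, c2, c3, c4, c5⟩ := hcon
    refine hσ (h1 σ g J (3 * m) ℓ L hg hJ (by omega) (by push_cast; exact hℓ) hL ?_ ?_ ?_ ?_ ?_)
    · intro hb
      apply c2
      show Big L (2 * (10 * g : ℕ)) σ
      have e : (2 * ((10 * g : ℕ) : ℤ)) = 20 * g := by
        push_cast
        ring
      rw [e]
      exact hb
    · intro h0
      apply c1
      intro x hx
      rw [Finset.mem_singleton] at hx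
      rw [hx, h0]
    · intro β b1 b2 b3 b4
      by_contra hb
      apply c3
      simp only [Set.mem_iUnion]
      refine ⟨(β.1.toNat, β.2.toNat), ?_, ?_⟩
      · rw [Finset.mem_product, Finset.mem_range, Finset.mem_range]
        push_cast at b2 b4
        constructor
        · dsimp only
          omega
        · dsimp only
          omega
      · show ¬ Gd (fun z => Good g (cen g z) σ) J ((β.1.toNat : ℤ), (β.2.toNat : ℤ))
        rw [Int.toNat_of_nonneg b1, Int.toNat_of_nonneg b3]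
        exact hb
    · by_contra hc
      exact c4 hc
    · have c5' : ¬ ∀ i j : ℕ, i < m → j < m → ¬ Trial g J (3 * (i : ℤ), 3 * (j : ℤ)) σ := c5
      push Not at c5'
      obtain ⟨i, j, hi, hj, ht⟩ := c5'
      refine ⟨(3 * (i : ℤ), 3 * (j : ℤ)), ?_, ?_, ?_, ?_, ht⟩
      · dsimp only
        omega
      · dsimp only
        push_cast
        omega
      · dsimp only
        omega
      · dsimp only
        push_cast
        omega
  have p1 : μ.real A1 ≤ q := by
    have := (h6 μ p q hμ {0}).2.2.2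
    rw [Finset.card_singleton, pow_one] at this
    exact this.le
  have p2 := h2 μ p q hμ L (10 * g)
  have p3 : μ.real (⋃ k ∈ S, B ((k.1 : ℤ), (k.2 : ℤ))) ≤
      9 * (m : ℝ) ^ 2 * (1 / 16 ^ 4 * (1 / 2) ^ (2 ^ J)) := by
    refine (measureReal_biUnion_finset_le _ _).trans ?_
    have hb : ∀ k ∈ S, μ.real (B ((k.1 : ℤ), (k.2 : ℤ))) ≤ 1 / 16 ^ 4 * (1 / 2) ^ (2 ^ J) := by
      intro k _
      refine (h3 μ p q hμ g δ hg hδ J _).trans ?_
      refine mul_le_mul_of_nonneg_left ?_ (by positivity)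
      exact pow_le_pow_left₀ (by positivity) hδ2 _
    refine (Finset.sum_le_sum hb).trans ?_
    rw [Finset.sum_const, nsmul_eq_mul, Finset.card_product, Finset.card_range]
    push_cast
    apply le_of_eq
    ring
  have p4 := h4 μ p q hμ g δ hg hδ hδ2 J 0
  have p5 := h5 μ p q hμ g δ hg hδ hδ2 J m hJ
  refine (measureReal_mono hsub (measure_ne_top _ _)).trans ?_
  refine (measureReal_union_le _ _).trans ?_
  have u2 := measureReal_union_le (μ := μ) A2
    ((⋃ k ∈ S, B ((k.1 : ℤ), (k.2 : ℤ))) ∪ (A4 ∪ A5))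
  have u3 := measureReal_union_le (μ := μ) (⋃ k ∈ S, B ((k.1 : ℤ), (k.2 : ℤ))) (A4 ∪ A5)
  have u4 := measureReal_union_le (μ := μ) A4 A5
  have p2' : μ.real A2 ≤ 2 * (2 * L + 1) ^ 2 * (4 * (10 * g) + 3) ^ 2 *
      (2 * (4 * (10 * g) + 3) * q) ^ (10 * g + 1) := by
    refine p2.trans (le_of_eq ?_)
    push_cast
    ring
  linarith

end Pool.Agent.T5h70.TT.SUM
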