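import Pool.Agent.T5h70.TT.Stm

/-! # Project TT, task SUPD (helper7) -/

set_option autoImplicit false

namespace Pool.Agent.T5h70.TT.SUPD

open Pool.Agent.T5h70.TT

lemma iter_par (j : ℕ) (z : V) : par^[j] z = (z.1 / 16 ^ j, z.2 / 16 ^ j) := by
  induction j with
  | zero => simp
  | succ j ih =>
    rw [Function.iterate_succ_apply', ih]
    unfold par
    simp only [Prod.mk.injEq]
    rw [Int.ediv_ediv_of_nonneg (by positivity), Int.ediv_ediv_of_nonneg (by positivity), ← pow_succ]
    exact ⟨rfl, rfl⟩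

lemma div_iff (a b d : ℤ) (hd : 0 < d) : a / d = b ↔ d * b ≤ a ∧ a < d * (b + 1) := by
  constructor
  · rintro rfl
    constructor
    · rw [mul_comm]
      exact Int.ediv_mul_le a hd.ne'
    · rw [mul_comm]
      exact Int.lt_ediv_add_one_mul_self a hd
  · rintro ⟨h1, h2⟩
    apply le_antisymm
    · rw [← Int.lt_add_one_iff]
      exact Int.ediv_lt_of_lt_mul hd (by rw [mul_comm]; exact h2)
    · exact (Int.le_ediv_iff_mul_le hd).2 (by rw [mul_comm]; exact h1)

lemma par_iff (j : ℕ) (z β : V) : par^[j] z = β ↔ (16 ^ j * β.1 ≤ z.1 ∧ z.1 < 16 ^ j * (β.1 + 1) ∧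
    16 ^ j * β.2 ≤ z.2 ∧ z.2 < 16 ^ j * (β.2 + 1)) := by
  rw [iter_par, Prod.ext_iff]
  simp only
  rw [div_iff _ _ _ (by positivity), div_iff _ _ _ (by positivity)]
  tauto

lemma nr_par (z z' : V) (h : Nr 2 z z') : Nr 2 (par z) (par z') := by
  obtain ⟨h1, h2⟩ := h
  rw [abs_le] at h1 h2
  unfold par
  constructor <;> rw [abs_le] <;> simp only <;> omega

lemma nr_iter (j : ℕ) (z z' : V) (h : Nr 2 z z') : Nr 2 (par^[j] z) (par^[j] z') := by
  induction j with
  | zero => exact h
  | succ j ih =>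
    rw [Function.iterate_succ_apply', Function.iterate_succ_apply']
    exact nr_par _ _ ih

theorem t_SUPD : S_SUPD := by
  refine ⟨?_, ?_, par_iff, nr_iter, ?_⟩
  · intro g j β
    apply Set.Finite.subset (s := Set.Icc (100 * (g : ℤ) * (16 ^ j * β.1) - 125 * g)
      (100 * (g : ℤ) * (16 ^ j * (β.1 + 1)) + 125 * g) ×ˢ
      Set.Icc (100 * (g : ℤ) * (16 ^ j * β.2) - 125 * g)
      (100 * (g : ℤ) * (16 ^ j * (β.2 + 1)) + 125 * g))
      ((Set.finite_Icc _ _).prod (Set.finite_Icc _ _))
    rintro x ⟨z, hz, h1, h2⟩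
    rw [par_iff] at hz
    obtain ⟨a1, a2, a3, a4⟩ := hz
    rw [abs_le] at h1 h2
    unfold cen at h1 h2
    simp only at h1 h2
    have hg : (0 : ℤ) ≤ 100 * g := by positivity
    have b1 := mul_le_mul_of_nonneg_left a1 hg
    have b2 := mul_le_mul_of_nonneg_left a2.le hg
    have b3 := mul_le_mul_of_nonneg_left a3 hg
    have b4 := mul_le_mul_of_nonneg_left a4.le hg
    constructor
    · constructor <;> linarith [h1.1, h1.2]
    · constructor <;> linarith [h2.1, h2.2]
  · intro g j β β' hg hn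
    rw [Set.disjoint_left]
    rintro x ⟨z, hz, h1, h2⟩ ⟨z', hz', h1', h2'⟩
    apply hn
    rw [← hz, ← hz']
    apply nr_iter
    rw [abs_le] at h1 h2 h1' h2'
    unfold cen at h1 h2 h1' h2'
    simp only at h1 h2 h1' h2'
    have hg' : (1 : ℤ) ≤ g := by exact_mod_cast hg
    constructor
    · rw [abs_le]
      constructor
      · by_contra h
        rw [not_le] at h
        have h3 : z.1 - z'.1 ≤ -3 := by omega
        nlinarith
      · by_contra h
        rw [not_le] at h
        have h3 : 3 ≤ z.1 - z'.1 := by omega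
        nlinarith
    · rw [abs_le]
      constructor
      · by_contra h
        rw [not_le] at h
        have h3 : z.2 - z'.2 ≤ -3 := by omega
        nlinarith
      · by_contra h
        rw [not_le] at h
        have h3 : 3 ≤ z.2 - z'.2 := by omega
        nlinarith
  · intro J β hJ
    obtain ⟨k, rfl⟩ : ∃ k, J = k + 1 := ⟨J - 1, by omega⟩
    rw [par_iff]
    unfold tri
    simp only [Nat.add_sub_cancel]
    have h : (0 : ℤ) < 16 ^ k := by positivity
    rw [pow_succ]
    refine ⟨?_, ?_, ?_, ?_⟩ <;> nlinarith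

end Pool.Agent.T5h70.TT.SUPD
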