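import Pool.Agent.T5h70.TT.Stm

/-!
# TRA: the model on a probability space
-/

set_option autoImplicit false

namespace Pool.Agent.T5h70.TT.TRA

open Pool.Agent.T5h70.TT MeasureTheory ProbabilityTheory

universe u

lemma cnt_congr (i : Fin 3) (ξ ξ' : V → Fin 3) (x : V) (h : ∀ y ∈ nbrs x, ξ y = ξ' y) :
    cnt i ξ x = cnt i ξ' x := by
  unfold cnt
  congr 1
  exact Finset.filter_congr fun y hy => by rw [h y hy]

lemma step_congr (ξ ξ' : V → Fin 3) (x : V) (h : ∀ y ∈ insert x (nbrs x), ξ y = ξ' y) :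
    step ξ x = step ξ' x := by
  have h1 : ∀ i, cnt i ξ x = cnt i ξ' x := fun i =>
    cnt_congr i ξ ξ' x fun y hy => h y (Finset.mem_insert_of_mem hy)
  unfold step
  rw [h1, h1, h x (Finset.mem_insert_self _ _)]

lemma step_meas : Measurable step := by
  classical
  refine measurable_pi_lambda _ fun x => ?_
  set F : ((insert x (nbrs x) : Finset V) → Fin 3) → Fin 3 :=
    fun τ => step (fun y => if h : y ∈ insert x (nbrs x) then τ ⟨y, h⟩ else 0) x with hF
  have e : (fun ξ : V → Fin 3 => step ξ x) =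
      F ∘ fun ξ => (fun y : (insert x (nbrs x) : Finset V) => ξ y) := by
    funext ξ
    rw [Function.comp_apply, hF]
    refine step_congr _ _ x fun y hy => ?_
    rw [dif_pos hy]
  rw [e]
  exact (measurable_of_countable F).comp (measurable_pi_lambda _ fun y => measurable_pi_apply _)

lemma ev_meas (i : Fin 3) : MeasurableSet {σ : V → Fin 3 | ∃ t : ℕ, step^[t] σ 0 = i} := by
  have e : {σ : V → Fin 3 | ∃ t : ℕ, step^[t] σ 0 = i} =
      ⋃ t : ℕ, (fun σ : V → Fin 3 => step^[t] σ 0) ⁻¹' {i} := by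
    ext σ
    simp
  rw [e]
  exact MeasurableSet.iUnion fun t =>
    ((measurable_pi_apply (0 : V)).comp (step_meas.iterate t)) (measurableSet_singleton i)

lemma law {Ω : Type u} [MeasurableSpace Ω] (P : Measure Ω) [IsProbabilityMeasure P]
    (ξ : V → Ω → Fin 3) (p q : ℝ) (hm : ∀ x, Measurable (ξ x)) (hi : iIndepFun ξ P)
    (h1 : ∀ x, P.real {ω | ξ x ω = 1} = p) (h2 : ∀ x, P.real {ω | ξ x ω = 2} = q) :
    Measurable (fun ω x => ξ x ω) ∧ Prod3 (P.map fun ω x => ξ x ω) p q := by
  have hM : Measurable (fun ω x => ξ x ω) := measurable_pi_lambda _ hm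
  refine ⟨hM, ?_, ?_, ?_, ?_⟩
  · exact Measure.isProbabilityMeasure_map hM.aemeasurable
  · rw [iIndepFun_iff_measure_inter_preimage_eq_mul] at hi ⊢
    intro S sets hs
    have h2 := hi S hs
    have e1 : ∀ i ∈ S, (P.map fun ω x => ξ x ω) ((fun σ : V → Fin 3 => σ i) ⁻¹' sets i) =
        P (ξ i ⁻¹' sets i) := by
      intro i hi
      rw [Measure.map_apply hM ((measurable_pi_apply i) (hs i hi))]
      rfl
    rw [Finset.prod_congr rfl e1, Measure.map_apply hM]
    · rw [← h2]
      congr 1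
      ext σ
      simp
    · exact Finset.measurableSet_biInter _ fun i hi => (measurable_pi_apply i) (hs i hi)
  · intro x
    exact (map_measureReal_apply hM
      ((measurable_pi_apply x) (measurableSet_singleton (1 : Fin 3)))).trans (h1 x)
  · intro x
    exact (map_measureReal_apply hM
      ((measurable_pi_apply x) (measurableSet_singleton (2 : Fin 3)))).trans (h2 x)

theorem t_TRA (h : S_MAIN) : S_TRA.{u} := by
  intro θ hθ
  obtain ⟨ε, p₀, hε, hp₀, H⟩ := h θ hθ
  refine ⟨ε, p₀, hε, hp₀, ?_⟩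
  intro Ω mΩ P ξ p q hP hm hi h1 h2 hp hpp hq
  obtain ⟨hM, hL⟩ := law P ξ p q hm hi h1 h2
  have hq0 : 0 ≤ q := by
    rw [← h2 0]
    exact measureReal_nonneg
  refine (H _ p q hL hp hpp hq0 hq).trans (le_of_eq ?_)
  exact map_measureReal_apply hM (ev_meas 1)

end Pool.Agent.T5h70.TT.TRA
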