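import Pool.Agent.T5h70.TT.Stm

/-! TRI -/

set_option autoImplicit false

namespace Pool.Agent.T5h70.TT.TRI

open Pool.Agent.T5h70.TT MeasureTheory

variable {μ : Measure (V → Fin 3)} {p q : ℝ}

theorem seg_card (c : V) (g : ℕ) :
    ((Finset.range g).image fun k : ℕ => ((c.1 + (k : ℤ), c.2) : V)).card = g := by
  rw [Finset.card_image_of_injective, Finset.card_range]
  intro a b h
  have := congrArg Prod.fst h
  simp only at this
  omega

noncomputable def box (c : V) (g : ℕ) : Finset V :=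
  Finset.Icc (c.1 - 3 * g) (c.1 + 3 * g) ×ˢ Finset.Icc (c.2 - 3 * g) (c.2 + 3 * g)

theorem box_card (c : V) (g : ℕ) : (box c g).card = (6 * g + 1) ^ 2 := by
  unfold box
  rw [Finset.card_product, Int.card_Icc, Int.card_Icc, pow_two]
  congr 1 <;> omega

theorem mem_box (c : V) (g : ℕ) (x : V) : x ∈ box c g ↔ Nr (3 * g) x c := by
  unfold box Nr
  rw [Finset.mem_product, Finset.mem_Icc, Finset.mem_Icc, abs_le, abs_le]
  constructor <;> intro h <;> refine ⟨⟨?_, ?_⟩, ⟨?_, ?_⟩⟩ <;> omega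

theorem nuc_ge (h2 : S_FKG) (h3 : S_SITE) (h : Prod3 μ p q) (g : ℕ) (c : V) :
    p ^ g * (1 - q) ^ ((6 * g + 1) ^ 2) ≤ μ.real {σ | Nuc g c σ} := by
  have := h.prob
  set F1 : (V → Fin 3) → Prop := fun σ => ∀ k : ℤ, 0 ≤ k → k < g → σ (c.1 + k, c.2) = 1 with hF1
  set F2 : (V → Fin 3) → Prop := fun σ => ∀ x, Nr (3 * g) x c → σ x ≠ 2 with hF2
  have e1 : μ.real {σ | F1 σ} = p ^ g := by
    have h4 := (h3 μ p q h ((Finset.range g).image fun k : ℕ => ((c.1 + (k : ℤ), c.2) : V))).1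
    rw [seg_card] at h4
    rw [← h4]
    congr 1
    ext σ
    simp only [Set.mem_ofPred_eq, hF1, Finset.mem_image, Finset.mem_range]
    constructor
    · rintro h5 x ⟨k, hk, rfl⟩
      exact h5 k (by omega) (by exact_mod_cast hk)
    · intro h5 k hk1 hk2
      refine h5 _ ⟨k.toNat, by omega, ?_⟩
      rw [Int.toNat_of_nonneg hk1]
  have e2 : μ.real {σ | F2 σ} = (1 - q) ^ ((6 * g + 1) ^ 2) := by
    have h4 := (h3 μ p q h (box c g)).2.2.1
    rw [box_card] at h4
    rw [← h4]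
    congr 1
    ext σ
    simp only [Set.mem_ofPred_eq, hF2, mem_box]
  have key := h2 μ p q h (box c g : Set V) F1 F2 (Finset.finite_toSet _)
    (by
      intro σ τ hστ h5 k hk1 hk2
      rw [← hστ _ ?_]
      · exact h5 k hk1 hk2
      · rw [Finset.mem_coe, mem_box]
        refine ⟨abs_le.2 ⟨?_, ?_⟩, abs_le.2 ⟨?_, ?_⟩⟩ <;> simp only <;> omega)
    (by
      intro σ τ hστ h5 x hx
      rw [← hστ _ (by rw [Finset.mem_coe, mem_box]; exact hx)]
      exact h5 x hx)
    (by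
      intro σ τ hστ h5 k hk1 hk2
      exact (hστ _).1 (h5 k hk1 hk2))
    (by
      intro σ τ hστ h5 x hx h6
      exact h5 x hx ((hστ x).2 h6))
  rw [e1, e2] at key
  exact key

theorem t_TRI (h1 : S_MANY) (h2 : S_FKG) (h3 : S_SITE) (h4 : S_DEPI) (h5 : S_SUPD) (h6 : S_CLD)
    (h7 : S_CLP) (h8 : S_IND) : S_TRI := by
  intro μ p q h g δ hg hδ hδ2 J m hJ
  have := h.prob
  have hp0 : 0 ≤ p := by
    rw [← h.one (0, 0)]
    exact measureReal_nonneg
  have hq1 : 0 ≤ 1 - q := by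
    have h9 : q ≤ 1 := by
      rw [← h.two (0, 0)]
      exact measureReal_le_one
    linarith
  set F : V → (V → Fin 3) → Prop := fun z σ => Good g (cen g z) σ with hF
  have hdep : ∀ z, DepOn {x | Nr (125 * g) x (cen g z)} (F z) := fun z => (h4 g (cen g z) hg).1
  have hinc : ∀ z, Inc (F z) := fun z => (h4 g (cen g z) hg).2.1
  obtain ⟨hC1, _, hC3⟩ := h6 g F hdep hinc J
  have hC3' := hC3 hJ
  -- the trials
  have hsub : ∀ β : V, {x | Nr (125 * g) x (cen g (tri J β))} ⊆ Sup g J β := by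
    intro β x hx
    exact ⟨tri J β, h5.2.2.2.2 J β hJ, hx⟩
  have hN : ∀ β : V, DepOn (Sup g J β) (Nuc g (cen g (tri J β))) := by
    intro β σ τ hστ
    exact (h4 g (cen g (tri J β)) hg).2.2.1 σ τ fun x hx => hστ x (hsub β hx)
  have hTd : ∀ β : V, DepOn (Sup g J β) (fun σ => Trial g J β σ) := by
    intro β σ τ hστ hT
    exact ⟨hN β σ τ hστ hT.1, hC3' β σ τ hστ hT.2⟩
  have hTd' : ∀ β : V, DepOn (Sup g J β) (fun σ => ¬ Trial g J β σ) := by
    intro β σ τ hστ hT hT'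
    exact hT (hTd β τ σ (fun x hx => (hστ x hx).symm) hT')
  set P : ℝ := p ^ g * (1 - q) ^ ((6 * g + 1) ^ 2) with hP
  have hP0 : 0 ≤ P := by positivity
  have hTge : ∀ β : V, P / 2 ≤ μ.real {σ | Trial g J β σ} := by
    intro β
    have k1 := nuc_ge h2 h3 h g (cen g (tri J β))
    have k2 : 1 / 2 ≤ μ.real {σ | Clean (fun z => F z σ) J (tri J β)} := by
      have k3 := h7 μ p q h g δ hg hδ hδ2 J (tri J β)
      have k4 : (1 : ℝ) ≤ μ.real {σ | Clean (fun z => F z σ) J (tri J β)} +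
          μ.real {σ | ¬ Clean (fun z => F z σ) J (tri J β)} := by
        have k5 := measureReal_union_le (μ := μ) {σ | Clean (fun z => F z σ) J (tri J β)}
          {σ | ¬ Clean (fun z => F z σ) J (tri J β)}
        have k6 : {σ | Clean (fun z => F z σ) J (tri J β)} ∪
            {σ | ¬ Clean (fun z => F z σ) J (tri J β)} = Set.univ := by
          ext σ
          simp only [Set.mem_union, Set.mem_ofPred_eq, Set.mem_univ, iff_true]
          exact em _
        rw [k6, probReal_univ] at k5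
        exact k5
      have k7 : μ.real {σ | ¬ Clean (fun z => F z σ) J (tri J β)} ≤ 50 * δ := k3
      have k8 : 50 * δ ≤ 1 / 2 := by
        norm_num at hδ2
        linarith
      linarith
    have k3 := h2 μ p q h (Sup g J β) (Nuc g (cen g (tri J β)))
      (fun σ => Clean (fun z => F z σ) J (tri J β)) (h5.1 g J β) (hN β) (hC3' β)
      (h4 g (cen g (tri J β)) hg).2.2.2 (hC1 _)
    calc P / 2 = P * (1 / 2) := by ring
      _ ≤ μ.real {σ | Nuc g (cen g (tri J β)) σ} *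
          μ.real {σ | Clean (fun z => F z σ) J (tri J β)} :=
          mul_le_mul k1 k2 (by norm_num) measureReal_nonneg
      _ ≤ _ := k3
  have hTle : ∀ β : V, μ.real {σ | ¬ Trial g J β σ} ≤ Real.exp (-(P / 2)) := by
    intro β
    have hm : MeasurableSet {σ | Trial g J β σ} :=
      (h8 μ p q h).1 (Sup g J β) _ (h5.1 g J β) (hTd β)
    have k1 : {σ | ¬ Trial g J β σ} = {σ | Trial g J β σ}ᶜ := rfl
    rw [k1, probReal_compl_eq_one_sub hm]
    have k2 := Real.add_one_le_exp (-(P / 2))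
    have k3 := hTge β
    linarith
  have hmany := h1 μ p q h (ℕ × ℕ) (Finset.range m ×ˢ Finset.range m)
    (fun w => Sup g J (3 * (w.1 : ℤ), 3 * (w.2 : ℤ)))
    (fun w σ => ¬ Trial g J (3 * (w.1 : ℤ), 3 * (w.2 : ℤ)) σ) (fun w _ => h5.1 g J _)
    (fun w _ => hTd' _)
    (by
      rintro ⟨i, j⟩ _ ⟨i', j'⟩ _ hne
      apply h5.2.1 g J _ _ hg
      rintro ⟨k1, k2⟩
      simp only [abs_le] at k1 k2
      apply hne
      rw [Prod.mk.injEq]
      constructor <;> omega)
  have hset : {σ : V → Fin 3 | ∀ i j : ℕ, i < m → j < m → ¬ Trial g J (3 * (i : ℤ), 3 * (j : ℤ)) σ} =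
      {σ | ∀ w ∈ Finset.range m ×ˢ Finset.range m,
        ¬ Trial g J (3 * (w.1 : ℤ), 3 * (w.2 : ℤ)) σ} := by
    ext σ
    simp only [Set.mem_ofPred_eq, Finset.mem_product, Finset.mem_range]
    constructor
    · rintro k1 ⟨i, j⟩ ⟨k2, k3⟩
      exact k1 i j k2 k3
    · intro k1 i j k2 k3
      exact k1 (i, j) ⟨k2, k3⟩
  rw [hset]
  calc μ.real {σ | ∀ w ∈ Finset.range m ×ˢ Finset.range m,
        ¬ Trial g J (3 * (w.1 : ℤ), 3 * (w.2 : ℤ)) σ}
      = ∏ w ∈ Finset.range m ×ˢ Finset.range m,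
        μ.real {σ | ¬ Trial g J (3 * (w.1 : ℤ), 3 * (w.2 : ℤ)) σ} := hmany
    _ ≤ ∏ _w ∈ Finset.range m ×ˢ Finset.range m, Real.exp (-(P / 2)) :=
        Finset.prod_le_prod (fun _ _ => measureReal_nonneg) fun w _ => hTle _
    _ = Real.exp (-(P / 2 * (m : ℝ) ^ 2)) := by
        rw [Finset.prod_const, Finset.card_product, Finset.card_range, ← Real.exp_nat_mul]
        congr 1
        push_cast
        ring

end Pool.Agent.T5h70.TT.TRI
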