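import Pool.Agent.T5h70.TT.T_AL
import Pool.Agent.T5h70.TT.T_ALP
import Pool.Agent.T5h70.TT.T_AS1
import Pool.Agent.T5h70.TT.T_AS2
import Pool.Agent.T5h70.TT.T_AS3
import Pool.Agent.T5h70.TT.T_AS4
import Pool.Agent.T5h70.TT.T_CHN
import Pool.Agent.T5h70.TT.T_CLD
import Pool.Agent.T5h70.TT.T_CLP
import Pool.Agent.T5h70.TT.T_COL
import Pool.Agent.T5h70.TT.T_COLF
import Pool.Agent.T5h70.TT.T_DEPI
import Pool.Agent.T5h70.TT.T_DOM
import Pool.Agent.T5h70.TT.T_FKG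
import Pool.Agent.T5h70.TT.T_GDD
import Pool.Agent.T5h70.TT.T_GDP
import Pool.Agent.T5h70.TT.T_GP0
import Pool.Agent.T5h70.TT.T_GP1
import Pool.Agent.T5h70.TT.T_GP2
import Pool.Agent.T5h70.TT.T_GP3
import Pool.Agent.T5h70.TT.T_GROW
import Pool.Agent.T5h70.TT.T_IND
import Pool.Agent.T5h70.TT.T_MAIN
import Pool.Agent.T5h70.TT.T_MANY
import Pool.Agent.T5h70.TT.T_MSA
import Pool.Agent.T5h70.TT.T_MSC
import Pool.Agent.T5h70.TT.T_NUCF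
import Pool.Agent.T5h70.TT.T_PRA
import Pool.Agent.T5h70.TT.T_PRB
import Pool.Agent.T5h70.TT.T_PUSH
import Pool.Agent.T5h70.TT.T_SITE
import Pool.Agent.T5h70.TT.T_SUM
import Pool.Agent.T5h70.TT.T_SUPD
import Pool.Agent.T5h70.TT.T_SYM
import Pool.Agent.T5h70.TT.T_TRA
import Pool.Agent.T5h70.TT.T_TRI
import Pool.Agent.T5h70.TT.Seq

/-!
# Project TT: assembly
-/

set_option autoImplicit false

namespace Pool.Agent.T5h70.TT

universe u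

theorem all_TRA : S_TRA.{u} := by
  have IND := IND.t_IND
  have SITE := SITE.t_SITE IND
  have MANY := MANY.t_MANY IND
  have FKG := FKG.t_FKG
  have COLF := COLF.t_COLF COL.t_COL
  have GROW := GROW.t_GROW COLF
  have MSC := MSC.t_MSC MSA.t_MSA SUPD.t_SUPD
  have CHN := CHN.t_CHN AL.t_AL DOM.t_DOM GROW NUCF.t_NUCF MSC SUPD.t_SUPD
  have CLD := CLD.t_CLD GDD.t_GDD SUPD.t_SUPD
  have ALP := ALP.t_ALP SITE MANY
  have PRB := PRB.t_PRB IND SITE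
  have GP3 := GP3.t_GP3 PRA.t_PRA PRB PUSH.t_PUSH
  have GDP := GDP.t_GDP IND DEPI.t_DEPI SUPD.t_SUPD GDD.t_GDD
  have CLP := CLP.t_CLP GDP
  have TRI := TRI.t_TRI MANY FKG SITE DEPI.t_DEPI SUPD.t_SUPD CLD CLP IND
  have SUM := SUM.t_SUM CHN ALP GDP CLP TRI SITE
  exact TRA.t_TRA (MAIN.t_MAIN SUM (GP0.t_GP0 SITE) (GP1.t_GP1 SITE) (GP2.t_GP2 SITE) GP3
    AS1.t_AS1 AS2.t_AS2 AS3.t_AS3 AS4.t_AS4)

end Pool.Agent.T5h70.TT
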