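import Pool.Agent.T5h70.TT.Def

/-!
# Project TT: statements of the tasks

MP_daac75_pr, both parts: if `q ≪ p ^ 2` then the origin is eventually in state 1 with probability `→ 1`.

Plan. `g ≈ 4 log(1/p) / p`. The 2s of the box of radius `L` are covered by a closed set `D` (rectangles of side
at most `20 g`, Aizenman–Lebowitz; here is the only use of `L = exp(O(log²(1/p)/p))`, the probability of
a bigger rectangle is `(g q) ^ (10 g)`), so the 1s dominate the bootstrap percolation with the sites of `D` closed. A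
square of radius `3 g` (all sites but the 2s) grows to the four neighbouring squares at distance `100 g` if the block is good:
no two 2s close to each other (`G0`), at most one 2 in two adjacent lines (`G1`), a 1 in every segment of length `g`
(`G2`), and the total loss at the corners is at most `g` (`G3`): a 2 at depth `y` below the corner is harmful if there is no 1 above
it in its column (or the next one), so the expected loss per column is `≤ 2 q ∑ (y+1) (1-p)^y = 2 q / p²`. So blocks are good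
with probability close to one, independent at distance `≥ 3`, and a multiscale argument with squares of `16 × 16` blocks
(`Gd`) connects the origin to a place where a segment of `g` 1s is the seed of a full square.
-/

set_option autoImplicit false

namespace Pool.Agent.T5h70.TT

open MeasureTheory ProbabilityTheory Filter Topology

universe u

/-! ## Probability tools -/

/-- **IND**. Events which depend on finitely many sites are measurable (the restriction to a finite set is measurable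
to a discrete countable space), and independence for disjoint sets of sites (`iIndepFun.indepFun_finset`). -/
def S_IND : Prop :=
  ∀ (μ : Measure (V → Fin 3)) (p q : ℝ), Prod3 μ p q →
    (∀ (S : Set V) (F : (V → Fin 3) → Prop), S.Finite → DepOn S F → MeasurableSet {σ | F σ}) ∧
    (∀ (S T : Set V) (F G : (V → Fin 3) → Prop), S.Finite → T.Finite → Disjoint S T →
      DepOn S F → DepOn T G →
      μ.real {σ | F σ ∧ G σ} = μ.real {σ | F σ} * μ.real {σ | G σ})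

/-- **FKG**. The law of the restriction to the finite set `S` is the product weight on `S → Fin 3`; apply
`fkg` of `Mathlib.Combinatorics.SetFamily.FourFunctions` with the order `2 < 0 < 1` on `Fin 3`
(recode by a bijection of `Fin 3`). -/
def S_FKG : Prop :=
  ∀ (μ : Measure (V → Fin 3)) (p q : ℝ), Prod3 μ p q → ∀ (S : Set V) (F G : (V → Fin 3) → Prop),
    S.Finite → DepOn S F → DepOn S G → Inc F → Inc G →
    μ.real {σ | F σ} * μ.real {σ | G σ} ≤ μ.real {σ | F σ ∧ G σ}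

/-- **PUSH**: relabelling of the sites. -/
def S_PUSH : Prop :=
  ∀ (μ : Measure (V → Fin 3)) (p q : ℝ), Prod3 μ p q → ∀ φ : V → V, Function.Injective φ →
    Measurable (fun (σ : V → Fin 3) (w : V) => σ (φ w)) ∧
    Prod3 (μ.map fun (σ : V → Fin 3) (w : V) => σ (φ w)) p q

/-- **SITE**: product formulas for finite sets of sites (from IND by induction). -/
def S_SITE : Prop :=
  ∀ (μ : Measure (V → Fin 3)) (p q : ℝ), Prod3 μ p q → ∀ S : Finset V,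
    μ.real {σ | ∀ x ∈ S, σ x = 1} = p ^ S.card ∧ μ.real {σ | ∀ x ∈ S, σ x ≠ 1} = (1 - p) ^ S.card ∧
    μ.real {σ | ∀ x ∈ S, σ x ≠ 2} = (1 - q) ^ S.card ∧ μ.real {σ | ∀ x ∈ S, σ x = 2} = q ^ S.card

/-- **MANY** (from IND): independence of a finite family. -/
def S_MANY : Prop :=
  ∀ (μ : Measure (V → Fin 3)) (p q : ℝ), Prod3 μ p q → ∀ (ι : Type) (s : Finset ι) (A : ι → Set V)
    (F : ι → (V → Fin 3) → Prop), (∀ i ∈ s, (A i).Finite) → (∀ i ∈ s, DepOn (A i) (F i)) →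
    (∀ i ∈ s, ∀ j ∈ s, i ≠ j → Disjoint (A i) (A j)) →
    μ.real {σ | ∀ i ∈ s, F i σ} = ∏ i ∈ s, μ.real {σ | F i σ}

/-! ## Deterministic part -/

/-- **AL** (Aizenman–Lebowitz). Consider finite families `R` of quadruples `(a,b,c,d)` with: the rectangle is in the
box of radius `L`, `Sp σ a b c d`, `max (b-a) (d-c) ≤ K`, and either `a = b, c = d` or the rectangle contains two
distinct 2s `y, z` with `Nr 2 y z`; and every 2 of the box is in one of the rectangles. Start: one point rectangles. As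
long as two distinct members are near (`a₂ ≤ b₁ + 2`, `a₁ ≤ b₂ + 2`, `c₂ ≤ d₁ + 2`, `c₁ ≤ d₂ + 2`), replace them by
their bounding rectangle: `Sp` holds (`[a₁-1,b₁] ∪ [a₂-1,b₂] ⊇ [a-1,b]` as integer intervals), its sides are at most
`2 K + 2`, so at most `K` as `¬ Big`; the number of the members decreases (strong induction on the number). At the end no two
distinct members are near; `D` is the union. `Clo D`: two neighbours `y ≠ z` of `x` are at sup distance `≤ 2`, so they are in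
the same rectangle; then `x` is in it. -/
def S_AL : Prop :=
  ∀ (σ : V → Fin 3) (L K : ℤ), 0 ≤ K → ¬ Big L K σ →
    ∃ D : Set V, (∀ x, Nr L x 0 → σ x = 2 → x ∈ D) ∧ Clo D ∧
      ∀ x ∈ D, σ x = 2 ∨ ∃ y z, y ≠ z ∧ σ y = 2 ∧ σ z = 2 ∧ Nr 2 y z ∧ Nr K x y ∧ Nr K x z

/-- **DOM**. By induction on `t`: `Nr (L - t) x 0`, `step^[t] σ x = 2` imply `x ∈ D` (a site which becomes 2 has two
neighbours in state 2). Let `O_t` be the set of the sites of the box of radius `ℓ` in state 1 at time `t ≤ (2ℓ+1)^2`. If `O_t`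
is not closed (there is `x ∉ D` in the box, `x ∉ O_t`, with two neighbours in `O_t`) then `x ∈ O_{t+1}`:
its state is not 2, so it is 0, and the number of its neighbours in state 2 is at most one, as these are in `D`. So
`O_t` is closed for some `t ≤ (2ℓ+1)^2`, and contains `Occ` (states 1 remain). -/
def S_DOM : Prop :=
  ∀ (σ : V → Fin 3) (D : Set V) (ℓ L : ℕ), (∀ x, Nr L x 0 → σ x = 2 → x ∈ D) → Clo D →
    ℓ + (2 * ℓ + 1) ^ 2 + 1 ≤ L → ∀ x, Occ σ D ℓ x → ∃ t : ℕ, step^[t] σ x = 1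

/-- **COL**: growth over the columns `1, …, N` of `[0,N] × [0,H]`; `T` blocked, `I` initially occupied, `O` occupied.
Induction on `i`: column `i` is filled for `b i ≤ v ≤ H - t i` (except `T`). Let `lo = b i`, `hi = H - t i`. *Spread*: if
`(i+1, w) ∈ O` for some `w ∈ [A,B]`, `(i, v) ∈ O` and `(i+1, v) ∉ T` for all `v ∈ [A,B]`, then `(i+1, v) ∈ O` on `[A,B]`
(neighbours `(i, v)`, `(i+1, v ± 1)`). An obstacle is a `y₀ ∈ [lo,hi]` with `(i, y₀) ∈ T` or `(i+1, y₀) ∈ T`; there is at most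
one (4th hypothesis). No obstacle: `[lo,hi]` contains an `I` site (5th), spread. With the obstacle `y₀`: if
`y₀ ≤ v` and `v ≤ H - t (i+1)` then `(y₀, hi]` contains an `I` site (if the depth `y = H - y₀` is `≤ 2g` by the corner condition, as
`y ≥ t (i+1)`; if `y > 2 g` then `hi - y₀ > g` and the 5th hypothesis), so `(y₀,hi]` is filled; in the same way below; and
`(i+1, y₀)`, if it is not in `T`, has the neighbours `(i+1, y₀ ± 1)` in `O`. -/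
def S_COL : Prop :=
  ∀ (O T I : Set V) (N g : ℕ) (H : ℤ) (t b : ℕ → ℤ), 1 ≤ g → 4 * (g : ℤ) ≤ H →
    (∀ x : V, 1 ≤ x.1 → x.1 ≤ N → 0 ≤ x.2 → x.2 ≤ H → x ∉ T →
      ∀ y ∈ nbrs x, ∀ z ∈ nbrs x, y ≠ z → y ∈ O → z ∈ O → x ∈ O) →
    (∀ x : V, 1 ≤ x.1 → x.1 ≤ N → 0 ≤ x.2 → x.2 ≤ H → x ∈ I → x ∈ O) →
    (∀ v : ℤ, 0 ≤ v → v ≤ H → ((0 : ℤ), v) ∉ T → ((0 : ℤ), v) ∈ O) →
    (∀ x ∈ T, ∀ y ∈ T, 0 ≤ x.1 → x.1 ≤ N → 0 ≤ x.2 → x.2 ≤ H →
      0 ≤ y.1 → y.1 ≤ N → 0 ≤ y.2 → y.2 ≤ H → |x.1 - y.1| ≤ 1 → x = y) →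
    (∀ u v : ℤ, 1 ≤ u → u ≤ N → 0 ≤ v → v + g - 1 ≤ H →
      ∃ k : ℤ, 0 ≤ k ∧ k < g ∧ (u, v + k) ∈ I) →
    t 0 = 0 → (∀ i < N, t i ≤ t (i + 1)) → t N ≤ g →
    (∀ i : ℕ, i < N → ∀ y : ℤ, t i ≤ y → y ≤ 2 * g →
      (((i : ℤ) + 1, H - y) ∈ T ∨ ((i : ℤ), H - y) ∈ T) →
      (∀ y' : ℤ, t i ≤ y' → y' < y → ((i : ℤ) + 1, H - y') ∉ I) → y < t (i + 1)) →
    b 0 = 0 → (∀ i < N, b i ≤ b (i + 1)) → b N ≤ g →
    (∀ i : ℕ, i < N → ∀ y : ℤ, b i ≤ y → y ≤ 2 * g →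
      (((i : ℤ) + 1, y) ∈ T ∨ ((i : ℤ), y) ∈ T) →
      (∀ y' : ℤ, b i ≤ y' → y' < y → ((i : ℤ) + 1, y') ∉ I) → y < b (i + 1)) →
    ∀ i : ℕ, i ≤ N → ∀ v : ℤ, b i ≤ v → v ≤ H - t i → ((i : ℤ), v) ∉ T → ((i : ℤ), v) ∈ O

/-- **COLF** (from COL): the same in a frame. Apply COL to the preimages of `O`, of the 2s and of the 1s under
`(u, v) ↦ fr c E (u0 + u) (v0 + v)` (injective, maps neighbours to neighbours; differences of coordinates are preserved up to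
sign and exchange). -/
def S_COLF : Prop :=
  ∀ (σ : V → Fin 3) (O : Set V) (g : ℕ) (c : V), 1 ≤ g → Env σ O (104 * g) c → G1 g c σ →
    G2 g c σ → ∀ E ∈ frs, ∀ (N : ℕ) (H u0 v0 : ℤ), 4 * (g : ℤ) ≤ H →
      -(104 * g) ≤ u0 → u0 + N ≤ 104 * g → -(104 * g) ≤ v0 → v0 + H ≤ 104 * g →
      (∀ v : ℤ, 0 ≤ v → v ≤ H → σ (fr c E u0 (v0 + v)) ≠ 2 → fr c E u0 (v0 + v) ∈ O) →
      Cor0 (fun w => σ (fr c E (u0 + w.1) (v0 + H - w.2))) N g →
      Cor0 (fun w => σ (fr c E (u0 + w.1) (v0 + w.2))) N g →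
      ∀ i v : ℤ, 0 ≤ i → i ≤ N → g ≤ v → v ≤ H - g →
        σ (fr c E (u0 + i) (v0 + v)) ≠ 2 → fr c E (u0 + i) (v0 + v) ∈ O

/-- **GROW** (from COLF). Let `z' = z + e`, `E = (e, f)` a frame. Stage 1: COLF with `E`, `u0 = 3g`, `v0 = -3g`,
`N = 101 g`, `H = 6 g` (corners: the first items of `G3` for `(e, -f)` and `(e, f)`): filled for
`3g ≤ u ≤ 104 g`, `-2g ≤ v ≤ 2g`. Stage 2: COLF with the frame `(f, e)`, `u0 = 2g`, `v0 = -3g`, `N = g`, `H = 107 g`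
(the first column is in the core or filled in stage 1; corners: the second item of `G3` for `(f, -e)`, the third for
`(f, e)`): filled for `2g ≤ v ≤ 3g`, `-2g ≤ u ≤ 103 g`. The same with `-f` for `f`. -/
def S_GROW : Prop :=
  ∀ (σ : V → Fin 3) (O : Set V) (g : ℕ) (z z' : V), 1 ≤ g → Env σ O (104 * g) (cen g z) →
    G1 g (cen g z) σ → G2 g (cen g z) σ → G3 g (cen g z) σ → z' ∈ nbrs z →
    (∀ x, Nr (3 * g) x (cen g z) → σ x ≠ 2 → x ∈ O) →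
    ∀ x, Nr (3 * g) x (cen g z') → σ x ≠ 2 → x ∈ O

/-- **NUCF**. The segment of `g` 1s, then the segments above it row by row (each contains a 1 by `G2`, which spreads;
there are no 2s), up to `3 g`, and below; then the columns of length `6 g + 1` to the right and to the left. -/
def S_NUCF : Prop :=
  ∀ (σ : V → Fin 3) (O : Set V) (g : ℕ) (c : V), 1 ≤ g → Env σ O (104 * g) c → G2 g c σ →
    Nuc g c σ → ∀ x, Nr (3 * g) x c → x ∈ O

/-- **MSA**. Induction on `j`; all three statements together. Step. Let `Gd (j+1) β`; the bad children of `β` are pairwise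
`Nr 2`. *Clean line*: a coordinate `r` such that not both `∃` bad child `≤ r` and `∃` bad child `≥ r`; one of
`16 β.2`, `16 β.2 + 15` is a clean row and the same for the columns; the children of a clean row are not `InW`. The
children not `InW` are good, and are connected by steps between neighbouring children not `InW`: every child not `InW` is in a
clean row or a clean column, go along it to the clean column `c*` (row `r*`), then to `(c*, r*)`. For neighbours `β, β'` (say in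
direction 1): one of the three rows `16 β.2 + 0, 5, 10` is clean for both (each excludes at most one of them). Compose with the
statements for `j`. -/
def S_MSA : Prop :=
  ∀ (good : V → Prop) (j : ℕ), (∀ β, Gd good j β → ∃ x, Cl good j β x) ∧
    (∀ β, Gd good j β → ∀ x y, Cl good j β x → Cl good j β y →
      Rch good {z | par^[j] z = β} x y) ∧
    (∀ β β', β' ∈ nbrs β → Gd good j β → Gd good j β' → ∀ x y, Cl good j β x → Cl good j β' y →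
      Rch good {z | par^[j] z = β ∨ par^[j] z = β'} x y)

/-- **MSC** (from MSA). `Clean` implies `Cl good j (par^[j] x) x` for `j ≤ J` by induction: if the block of `x` of level
`j` were in `InW` then (the bad children are pairwise `Nr 2`, if the parent is good) it would be `Nr 2` to a bad child. So
`Cl good J (par^[J] x) x`, as the blocks of level `j < J` of `x` and their parent are good (`Clean`, and the hypothesis for the
level `J`). Then go from block to block of level `J` in the square `[0,M)²`. -/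
def S_MSC : Prop :=
  ∀ (good : V → Prop) (J : ℕ) (M : ℤ),
    (∀ β : V, 0 ≤ β.1 → β.1 < M → 0 ≤ β.2 → β.2 < M → Gd good J β) →
    ∀ x y : V, 0 ≤ (par^[J] x).1 → (par^[J] x).1 < M → 0 ≤ (par^[J] x).2 → (par^[J] x).2 < M →
      0 ≤ (par^[J] y).1 → (par^[J] y).1 < M → 0 ≤ (par^[J] y).2 → (par^[J] y).2 < M →
      Clean good J x → Clean good J y →
      Rch good {z | 0 ≤ z.1 ∧ z.1 < 16 ^ J * M ∧ 0 ≤ z.2 ∧ z.2 < 16 ^ J * M} x y

/-- **CHN** (from AL, DOM, GROW, NUCF, MSC). Let `D` be the set of AL for `K = 20 g`, `O = Occ σ D ℓ`. For an index `z` in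
`[0, 16^J M)²` with a good block: `D` has no other sites than 2s at distance `≤ 104 g` of `cen g z` (otherwise there are two
2s `Nr 2` at distance `≤ 124 g`, `G0`), so `Env σ O (104 g) (cen g z)`. The trial gives a full core (NUCF; `Good` at the index
of the trial is part of `Clean`, `j = 0`), GROW along the path of MSC from `tri J β` to `0`, so the core of `0` is
full, `σ 0 ≠ 2`, DOM. (`par^[J] (tri J β) = β`.) -/
def S_CHN : Prop :=
  ∀ (σ : V → Fin 3) (g J M ℓ L : ℕ), 1 ≤ g → 1 ≤ J → 1 ≤ M →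
    100 * g * (16 ^ J * M) + 104 * g ≤ ℓ → ℓ + (2 * ℓ + 1) ^ 2 + 1 ≤ L →
    ¬ Big L (20 * g) σ → σ 0 ≠ 2 →
    (∀ β : V, 0 ≤ β.1 → β.1 < M → 0 ≤ β.2 → β.2 < M → Gd (fun z => Good g (cen g z) σ) J β) →
    Clean (fun z => Good g (cen g z) σ) J 0 →
    (∃ β : V, 0 ≤ β.1 ∧ β.1 < M ∧ 0 ≤ β.2 ∧ β.2 < M ∧ Trial g J β σ) →
    ∃ t : ℕ, step^[t] σ 0 = 1

/-! ## Dependence and monotonicity -/

/-- **DEPI**. -/
def S_DEPI : Prop :=
  ∀ (g : ℕ) (c : V), 1 ≤ g →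
    DepOn {x | Nr (125 * g) x c} (Good g c) ∧ Inc (Good g c) ∧
    DepOn {x | Nr (125 * g) x c} (Nuc g c) ∧ Inc (Nuc g c)

/-- **SUPD**. `par^[j] z = β` iff `z ∈ 16^j β + [0,16^j)²`. `Nr 2 z z'` implies `Nr 2 (par z) (par z')`; and
`|100 g (z - z')| ≤ 250 g` implies `|z - z'| ≤ 2`. For `tri`: see CLD. -/
def S_SUPD : Prop :=
  (∀ (g j : ℕ) (β : V), (Sup g j β).Finite) ∧
  (∀ (g j : ℕ) (β β' : V), 1 ≤ g → ¬ Nr 2 β β' → Disjoint (Sup g j β) (Sup g j β')) ∧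
  (∀ (j : ℕ) (z β : V), par^[j] z = β ↔ (16 ^ j * β.1 ≤ z.1 ∧ z.1 < 16 ^ j * (β.1 + 1) ∧
    16 ^ j * β.2 ≤ z.2 ∧ z.2 < 16 ^ j * (β.2 + 1))) ∧
  (∀ (j : ℕ) (z z' : V), Nr 2 z z' → Nr 2 (par^[j] z) (par^[j] z')) ∧
  (∀ (J : ℕ) (β : V), 1 ≤ J → par^[J] (tri J β) = β)

/-- **GDD**. Induction on `j`. -/
def S_GDD : Prop :=
  ∀ (g : ℕ) (F : V → (V → Fin 3) → Prop), (∀ z, DepOn {x | Nr (125 * g) x (cen g z)} (F z)) →
    (∀ z, Inc (F z)) → ∀ (j : ℕ) (β : V),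
      DepOn (Sup g j β) (fun σ => Gd (fun z => F z σ) j β) ∧
      Inc (fun σ => Gd (fun z => F z σ) j β)

/-- **CLD** (from GDD). A clean condition at `x = tri J β` concerns the blocks `γ` of level `j < J` with
`Nr 2 γ (par^[j] x)`; the indices `z` with `par^[j] z = γ` have `Nr 2 (par^[J-1] z) (par^[J-1] x)`, and
`par^[J-1] x = 16 β + (8,8)`, so `par^[J] z = β`. -/
def S_CLD : Prop :=
  ∀ (g : ℕ) (F : V → (V → Fin 3) → Prop), (∀ z, DepOn {x | Nr (125 * g) x (cen g z)} (F z)) →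
    (∀ z, Inc (F z)) → ∀ J : ℕ,
      (∀ x, Inc (fun σ => Clean (fun z => F z σ) J x)) ∧
      (∀ x, ∃ S : Set V, S.Finite ∧ DepOn S (fun σ => Clean (fun z => F z σ) J x)) ∧
      (1 ≤ J → ∀ β, DepOn (Sup g J β) (fun σ => Clean (fun z => F z σ) J (tri J β)))

/-! ## Probability estimates -/

/-- **ALP** (from SITE, MANY). At most `(2L+1)² (4κ+3)²` quadruples. If `b - a > 2 κ`, the `κ + 1` disjoint pairs of columns
`a + 2k, a + 2k + 1`, `0 ≤ k ≤ κ`, contain a 2 in `[c,d]`: probability at most `(2 (4κ+3) q) ^ (κ+1)`. The same for rows. -/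
def S_ALP : Prop :=
  ∀ (μ : Measure (V → Fin 3)) (p q : ℝ), Prod3 μ p q → ∀ L κ : ℕ,
    μ.real {σ | Big L (2 * κ) σ} ≤
      2 * (2 * L + 1) ^ 2 * (4 * κ + 3) ^ 2 * (2 * (4 * κ + 3) * q) ^ (κ + 1)

/-- **PRA**. `t i = (proc ρ g i).1`. If the flag is off at `i` then `t i = y'' + 1` for a 2 in column `i - 1` or `i` at depth
`y''`, so by `One2` there is no 2 in column `i` at a depth `≥ t i`. -/
def S_PRA : Prop :=
  ∀ (ρ : V → Fin 3) (N g : ℕ), One2 ρ N g → (proc ρ g N).1 ≤ g → Cor0 ρ N g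

/-- **PRB** (from IND, SITE). Let `t i = (proc ρ g i).1`, `X i y` the event that there is a 2 at `(i+1, t i + y)` and no 1 at
`(i+1, y')`, `t i ≤ y' < t i + y`; and (`i ≥ 1`) `Z i y` the event that there is a 2 at `(i, t (i-1) + y)` and no 1 at `(i+1, y')`,
`t (i-1) ≤ y' < t (i-1) + y` (`i = 0`: with `t (i-1) = 0`). `t i` depends on the columns `≤ i`, so (sum over the values
of `t i`, `t (i-1)`, which are `≤ 2g+1`) `P (X i y), P (Z i y) ≤ q (1-p)^y`. If the flag is on at `i` then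
`t i = t (i-1)`. So `t (i+1) - t i ≤ ∑_y (y+1) (1_{X i y} + 1_{Z i y})`, and
`(g+1) P (t N > g) ≤ E t N ≤ 2 N ∑ (y+1) q (1-p)^y ≤ 2 N q / p²`. -/
def S_PRB : Prop :=
  ∀ (μ : Measure (V → Fin 3)) (p q : ℝ), Prod3 μ p q → 0 < p → ∀ N g : ℕ,
    μ.real {ρ | g < (proc ρ g N).1} ≤ 2 * N * q / (p ^ 2 * (g + 1))

/-- **GP0** (from SITE): union bound. -/
def S_GP0 : Prop :=
  ∀ (μ : Measure (V → Fin 3)) (p q : ℝ), Prod3 μ p q → ∀ (g : ℕ) (c : V), 1 ≤ g →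
    μ.real {σ | ¬ G0 g c σ} ≤ 24 * (251 * g) ^ 2 * q ^ 2

/-- **GP1** (from SITE): union bound. -/
def S_GP1 : Prop :=
  ∀ (μ : Measure (V → Fin 3)) (p q : ℝ), Prod3 μ p q → ∀ (g : ℕ) (c : V), 1 ≤ g →
    μ.real {σ | ¬ G1 g c σ} ≤ 6 * (209 * g) ^ 3 * q ^ 2

/-- **GP2** (from SITE): union bound. -/
def S_GP2 : Prop :=
  ∀ (μ : Measure (V → Fin 3)) (p q : ℝ), Prod3 μ p q → ∀ (g : ℕ) (c : V), 1 ≤ g →
    μ.real {σ | ¬ G2 g c σ} ≤ 2 * (209 * g) ^ 2 * (1 - p) ^ g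

/-- **GP3** (from PRA, PRB, PUSH). The map `w ↦ fr c E (…)` is injective; `G1` implies `One2` for the strips. Eight
corners with `N = 101 g`, sixteen with `N = g`. -/
def S_GP3 : Prop :=
  ∀ (μ : Measure (V → Fin 3)) (p q : ℝ), Prod3 μ p q → 0 < p → ∀ (g : ℕ) (c : V), 1 ≤ g →
    μ.real {σ | G1 g c σ ∧ ¬ G3 g c σ} ≤ 2000 * q / p ^ 2

/-- **GDP** (from IND, DEPI, SUPD, GDD). Induction on `j`: `¬ Gd (j+1) β` gives two children, not `Nr 2`, which are not good: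
at most `256²` pairs, and the two events are independent (SUPD). `256 ^ 2 = 16 ^ 4`. -/
def S_GDP : Prop :=
  ∀ (μ : Measure (V → Fin 3)) (p q : ℝ), Prod3 μ p q → ∀ (g : ℕ) (δ : ℝ), 1 ≤ g →
    (∀ z, μ.real {σ | ¬ Good g (cen g z) σ} ≤ δ) → ∀ (j : ℕ) (β : V),
      μ.real {σ | ¬ Gd (fun z => Good g (cen g z) σ) j β} ≤ 1 / 16 ^ 4 * (16 ^ 4 * δ) ^ (2 ^ j)

/-- **CLP** (from GDP). `25 ∑_j 16^(-4) (16^4 δ)^(2^j) ≤ 50 δ`. -/
def S_CLP : Prop :=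
  ∀ (μ : Measure (V → Fin 3)) (p q : ℝ), Prod3 μ p q → ∀ (g : ℕ) (δ : ℝ), 1 ≤ g →
    (∀ z, μ.real {σ | ¬ Good g (cen g z) σ} ≤ δ) → 16 ^ 4 * δ ≤ 1 / 2 → ∀ (J : ℕ) (x : V),
      μ.real {σ | ¬ Clean (fun z => Good g (cen g z) σ) J x} ≤ 50 * δ

/-- **TRI** (from MANY, FKG, SITE, DEPI, SUPD, CLD, CLP). The trials at `(3 i, 3 j)` are independent (SUPD). `Nuc` and `Clean`
are increasing; `P (Nuc) ≥ p^g (1-q)^((6g+1)^2)` (SITE, FKG), `P (Clean) ≥ 1 - 50 δ ≥ 1/2`; `1 - x ≤ exp (-x)`. -/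
def S_TRI : Prop :=
  ∀ (μ : Measure (V → Fin 3)) (p q : ℝ), Prod3 μ p q → ∀ (g : ℕ) (δ : ℝ), 1 ≤ g →
    (∀ z, μ.real {σ | ¬ Good g (cen g z) σ} ≤ δ) → 16 ^ 4 * δ ≤ 1 / 2 → ∀ J m : ℕ, 1 ≤ J →
      μ.real {σ | ∀ i j : ℕ, i < m → j < m → ¬ Trial g J (3 * (i : ℤ), 3 * (j : ℤ)) σ} ≤
        Real.exp (-(p ^ g * (1 - q) ^ ((6 * g + 1) ^ 2) / 2 * (m : ℝ) ^ 2))

/-- **SUM** (from CHN, ALP, GDP, CLP, TRI, SITE). Union bound; `M = 3 m`. -/
def S_SUM : Prop :=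
  ∀ (μ : Measure (V → Fin 3)) (p q : ℝ), Prod3 μ p q → ∀ (g : ℕ) (δ : ℝ), 1 ≤ g →
    (∀ z, μ.real {σ | ¬ Good g (cen g z) σ} ≤ δ) → 16 ^ 4 * δ ≤ 1 / 2 →
    ∀ J m ℓ L : ℕ, 1 ≤ J → 1 ≤ m → 100 * g * (16 ^ J * (3 * m)) + 104 * g ≤ ℓ →
      ℓ + (2 * ℓ + 1) ^ 2 + 1 ≤ L →
      μ.real {σ | ¬ ∃ t : ℕ, step^[t] σ 0 = 1} ≤ q +
        2 * (2 * L + 1) ^ 2 * (4 * (10 * g) + 3) ^ 2 * (2 * (4 * (10 * g) + 3) * q) ^ (10 * g + 1) +
        9 * (m : ℝ) ^ 2 * (1 / 16 ^ 4 * (1 / 2) ^ (2 ^ J)) + 50 * δ +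
        Real.exp (-(p ^ g * (1 - q) ^ ((6 * g + 1) ^ 2) / 2 * (m : ℝ) ^ 2))

/-! ## Asymptotics: `m = ⌈1/p⌉`, `g = 4 m λ`, `λ = Nat.clog 2 m` -/

/-- the length `g` -/
def gg (m : ℕ) : ℕ := 4 * m * Nat.clog 2 m

/-- the level `J`: `4 g m ≤ 2 ^ J < 8 g m` -/
def JJ (m : ℕ) : ℕ := Nat.clog 2 (4 * gg m * m)

/-- the radius `ℓ` -/
def ll (m : ℕ) : ℕ := 100 * gg m * (16 ^ JJ m * (3 * m ^ gg m)) + 104 * gg m

/-- the radius `L` -/
def LL (m : ℕ) : ℕ := ll m + (2 * ll m + 1) ^ 2 + 1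

/-- **AS1**. `(1-p)^g ≤ exp(-p g) ≤ exp(-4 λ) ≤ m ^ (-4)`; `q ≤ 4 ε / m²` (`p ≤ 2/m`); all other terms tend to 0 as
`m → ∞` (`λ ≤ 2 log₂ m`). -/
def S_AS1 : Prop :=
  ∀ δ : ℝ, 0 < δ → ∃ ε : ℝ, 0 < ε ∧ ∃ m₀ : ℕ, ∀ m : ℕ, m₀ ≤ m → ∀ p q : ℝ, 1 / (m : ℝ) ≤ p →
    p ≤ 2 / (m : ℝ) → 0 ≤ q → q ≤ ε * p ^ 2 →
    24 * (251 * (gg m : ℝ)) ^ 2 * q ^ 2 + 6 * (209 * (gg m : ℝ)) ^ 3 * q ^ 2 +
      2 * (209 * (gg m : ℝ)) ^ 2 * (1 - p) ^ gg m + 2000 * q / p ^ 2 ≤ δ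

/-- **AS2**. `g = gg m ≤ m ^ 3`, `16 ^ J = (2 ^ J) ^ 4 ≤ (8 g m) ^ 4`, `ℓ ≤ m ^ (g + 40)`, `L ≤ m ^ (2g + 90)`, and
`2 (40 g + 3) q ≤ 86 g / m² = 344 λ / m ≤ m ^ (-1/2)`. So the left side is at most `m ^ (4 g + 300 - 5 g)`. -/
def S_AS2 : Prop :=
  ∀ θ : ℝ, 0 < θ → ∃ m₀ : ℕ, ∀ m : ℕ, m₀ ≤ m → ∀ q : ℝ, 0 ≤ q → q ≤ 1 / (m : ℝ) ^ 2 →
    2 * (2 * (LL m : ℝ) + 1) ^ 2 * (4 * (10 * (gg m : ℝ)) + 3) ^ 2 *
      (2 * (4 * (10 * (gg m : ℝ)) + 3) * q) ^ (10 * gg m + 1) ≤ θ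

/-- **AS3**. `m ^ (2 g) ≤ 2 ^ (2 g m)`, `2 ^ J ≥ 4 g m`. -/
def S_AS3 : Prop :=
  ∀ θ : ℝ, 0 < θ → ∃ m₀ : ℕ, ∀ m : ℕ, m₀ ≤ m →
    9 * ((m : ℝ) ^ gg m) ^ 2 * (1 / 16 ^ 4 * (1 / 2) ^ (2 ^ JJ m)) ≤ θ

/-- **AS4**. `p ^ g ≥ m ^ (-g)`, `(1 - 1/m²) ^ (m²) ≥ 1/4`, `(6g+1)² ≤ 49 g² = 784 m² λ²`; so the exponent is at most
`- m ^ g 4 ^ (- 784 λ²) / 2`, and `m ^ g ≥ 2 ^ (4 m λ)`. -/
def S_AS4 : Prop :=
  ∀ θ : ℝ, 0 < θ → ∃ m₀ : ℕ, ∀ m : ℕ, m₀ ≤ m → ∀ p q : ℝ, 1 / (m : ℝ) ≤ p → p ≤ 1 → 0 ≤ q →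
    q ≤ 1 / (m : ℝ) ^ 2 →
    Real.exp (-(p ^ gg m * (1 - q) ^ ((6 * gg m + 1) ^ 2) / 2 * ((m ^ gg m : ℕ) : ℝ) ^ 2)) ≤ θ

/-- **MAIN** (from SUM, GP0–GP3, AS1–AS4), `m = ⌈1/p⌉₊`, `J = JJ m`, `δ = min (2^(-17)) (θ/300)`. -/
def S_MAIN : Prop :=
  ∀ θ : ℝ, 0 < θ → ∃ ε p₀ : ℝ, 0 < ε ∧ 0 < p₀ ∧ ∀ (μ : Measure (V → Fin 3)) (p q : ℝ),
    Prod3 μ p q → 0 < p → p < p₀ → 0 ≤ q → q ≤ ε * p ^ 2 →
    1 - θ ≤ μ.real {σ | ∃ t : ℕ, step^[t] σ 0 = 1}

/-! ## The model on a probability space -/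

/-- **TRA** (from MAIN). The law of `ω ↦ (x ↦ ξ x ω)` is `Prod3`; (`P.map f` of a set is at most…: use a measurable set: the event
`{σ | ∃ t, step^[t] σ 0 = 1}` is measurable, as `step` is measurable coordinatewise). -/
def S_TRA : Prop :=
  ∀ θ : ℝ, 0 < θ → ∃ ε p₀ : ℝ, 0 < ε ∧ 0 < p₀ ∧ ∀ (Ω : Type u) (_ : MeasurableSpace Ω)
    (P : Measure Ω) (ξ : V → Ω → Fin 3) (p q : ℝ), IsProbabilityMeasure P →
    (∀ x, Measurable (ξ x)) → iIndepFun ξ P →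
    (∀ x, P.real {ω | ξ x ω = 1} = p) → (∀ x, P.real {ω | ξ x ω = 2} = q) →
    0 < p → p < p₀ → q ≤ ε * p ^ 2 →
    1 - θ ≤ P.real {ω | ∃ t : ℕ, step^[t] (fun x => ξ x ω) 0 = 1}

/-- the exchange of the states 1 and 2 -/
def sw (i : Fin 3) : Fin 3 := if i = 1 then 2 else if i = 2 then 1 else 0

/-- **SYM**. The dynamics commutes with the exchange of the states 1 and 2. -/
def S_SYM : Prop :=
  ∀ (ξ : V → Fin 3) (t : ℕ) (x : V), step^[t] (fun y => sw (ξ y)) x = sw (step^[t] ξ x)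

end Pool.Agent.T5h70.TT
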