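import Pool.Agent.T5h70.TT.Stm

/-! Project TT, task AL: merging of rectangles. -/

set_option autoImplicit false

namespace Pool.Agent.T5h70.TT.AL

/-- membership in a rectangle `(a, b, c, d)` -/
def InR (r : ℤ × ℤ × ℤ × ℤ) (x : V) : Prop :=
  r.1 ≤ x.1 ∧ x.1 ≤ r.2.1 ∧ r.2.2.1 ≤ x.2 ∧ x.2 ≤ r.2.2.2

/-- admissible rectangles -/
def Adm (σ : V → Fin 3) (L K : ℤ) (r : ℤ × ℤ × ℤ × ℤ) : Prop :=
  -L ≤ r.1 ∧ r.2.1 ≤ L ∧ -L ≤ r.2.2.1 ∧ r.2.2.2 ≤ L ∧ Sp σ r.1 r.2.1 r.2.2.1 r.2.2.2 ∧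
    r.2.1 - r.1 ≤ K ∧ r.2.2.2 - r.2.2.1 ≤ K ∧
    ((r.1 = r.2.1 ∧ r.2.2.1 = r.2.2.2) ∨
      ∃ y z, y ≠ z ∧ σ y = 2 ∧ σ z = 2 ∧ Nr 2 y z ∧ InR r y ∧ InR r z)

/-- near rectangles -/
def Near (r s : ℤ × ℤ × ℤ × ℤ) : Prop :=
  s.1 ≤ r.2.1 + 2 ∧ r.1 ≤ s.2.1 + 2 ∧ s.2.2.1 ≤ r.2.2.2 + 2 ∧ r.2.2.1 ≤ s.2.2.2 + 2

/-- the bounding rectangle -/
def bd (r s : ℤ × ℤ × ℤ × ℤ) : ℤ × ℤ × ℤ × ℤ :=
  (min r.1 s.1, max r.2.1 s.2.1, min r.2.2.1 s.2.2.1, max r.2.2.2 s.2.2.2)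

lemma inR_bd_left {r s : ℤ × ℤ × ℤ × ℤ} {x : V} (h : InR r x) : InR (bd r s) x := by
  obtain ⟨h1, h2, h3, h4⟩ := h
  exact ⟨(min_le_left _ _).trans h1, h2.trans (le_max_left _ _), (min_le_left _ _).trans h3,
    h4.trans (le_max_left _ _)⟩

lemma inR_bd_right {r s : ℤ × ℤ × ℤ × ℤ} {x : V} (h : InR s x) : InR (bd r s) x := by
  obtain ⟨h1, h2, h3, h4⟩ := h
  exact ⟨(min_le_right _ _).trans h1, h2.trans (le_max_right _ _), (min_le_right _ _).trans h3,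
    h4.trans (le_max_right _ _)⟩

lemma pt_two {σ : V → Fin 3} {L K : ℤ} {r : ℤ × ℤ × ℤ × ℤ} (h : Adm σ L K r)
    (h1 : r.1 = r.2.1) (h2 : r.2.2.1 = r.2.2.2) : σ (r.1, r.2.2.1) = 2 ∧ InR r (r.1, r.2.2.1) := by
  obtain ⟨-, -, -, -, ⟨-, -, h3, -⟩, -⟩ := h
  obtain ⟨z, hz, z1, z2, z3, z4, -⟩ := h3 r.1 (by omega) (by omega)
  have : z = (r.1, r.2.2.1) := by
    ext
    · show z.1 = r.1; omega
    · show z.2 = r.2.2.1; omega
  rw [this] at hz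
  exact ⟨hz, ⟨le_rfl, h1.le, le_rfl, h2.le⟩⟩

lemma adm_bd {σ : V → Fin 3} {L K : ℤ} (hB : ¬ Big L K σ) {r s : ℤ × ℤ × ℤ × ℤ}
    (hr : Adm σ L K r) (hs : Adm σ L K s) (hrs : r ≠ s) (hn : Near r s) : Adm σ L K (bd r s) := by
  have hr0 := hr
  have hs0 := hs
  obtain ⟨r1, r2, r3, r4, ⟨p1, p2, p3, p4⟩, r5, r6, r7⟩ := hr
  obtain ⟨s1, s2, s3, s4, ⟨q1, q2, q3, q4⟩, s5, s6, s7⟩ := hs
  obtain ⟨n1, n2, n3, n4⟩ := hn
  have hSp : Sp σ (bd r s).1 (bd r s).2.1 (bd r s).2.2.1 (bd r s).2.2.2 := by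
    refine ⟨?_, ?_, ?_, ?_⟩
    · show min r.1 s.1 ≤ max r.2.1 s.2.1
      omega
    · show min r.2.2.1 s.2.2.1 ≤ max r.2.2.2 s.2.2.2
      omega
    · intro i hi1 hi2
      have hi1' : min r.1 s.1 - 1 ≤ i := hi1
      have hi2' : i ≤ max r.2.1 s.2.1 := hi2
      have : (r.1 - 1 ≤ i ∧ i ≤ r.2.1) ∨ (s.1 - 1 ≤ i ∧ i ≤ s.2.1) := by omega
      rcases this with ⟨e1, e2⟩ | ⟨e1, e2⟩
      · obtain ⟨z, z0, z1, z2, z3, z4, z5⟩ := p3 i e1 e2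
        obtain ⟨w1, w2, w3, w4⟩ := inR_bd_left (s := s) (show InR r z from ⟨z1, z2, z3, z4⟩)
        exact ⟨z, z0, w1, w2, w3, w4, z5⟩
      · obtain ⟨z, z0, z1, z2, z3, z4, z5⟩ := q3 i e1 e2
        obtain ⟨w1, w2, w3, w4⟩ := inR_bd_right (r := r) (show InR s z from ⟨z1, z2, z3, z4⟩)
        exact ⟨z, z0, w1, w2, w3, w4, z5⟩
    · intro i hi1 hi2
      have hi1' : min r.2.2.1 s.2.2.1 - 1 ≤ i := hi1
      have hi2' : i ≤ max r.2.2.2 s.2.2.2 := hi2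
      have : (r.2.2.1 - 1 ≤ i ∧ i ≤ r.2.2.2) ∨ (s.2.2.1 - 1 ≤ i ∧ i ≤ s.2.2.2) := by omega
      rcases this with ⟨e1, e2⟩ | ⟨e1, e2⟩
      · obtain ⟨z, z0, z1, z2, z3, z4, z5⟩ := p4 i e1 e2
        obtain ⟨w1, w2, w3, w4⟩ := inR_bd_left (s := s) (show InR r z from ⟨z1, z2, z3, z4⟩)
        exact ⟨z, z0, w1, w2, w3, w4, z5⟩
      · obtain ⟨z, z0, z1, z2, z3, z4, z5⟩ := q4 i e1 e2
        obtain ⟨w1, w2, w3, w4⟩ := inR_bd_right (r := r) (show InR s z from ⟨z1, z2, z3, z4⟩)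
        exact ⟨z, z0, w1, w2, w3, w4, z5⟩
  have b1 : -L ≤ (bd r s).1 := by show -L ≤ min r.1 s.1; omega
  have b2 : (bd r s).2.1 ≤ L := by show max r.2.1 s.2.1 ≤ L; omega
  have b3 : -L ≤ (bd r s).2.2.1 := by show -L ≤ min r.2.2.1 s.2.2.1; omega
  have b4 : (bd r s).2.2.2 ≤ L := by show max r.2.2.2 s.2.2.2 ≤ L; omega
  have b5 : (bd r s).2.1 - (bd r s).1 ≤ 2 * K + 2 := by
    show max r.2.1 s.2.1 - min r.1 s.1 ≤ 2 * K + 2; omega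
  have b6 : (bd r s).2.2.2 - (bd r s).2.2.1 ≤ 2 * K + 2 := by
    show max r.2.2.2 s.2.2.2 - min r.2.2.1 s.2.2.1 ≤ 2 * K + 2; omega
  have b7 : max ((bd r s).2.1 - (bd r s).1) ((bd r s).2.2.2 - (bd r s).2.2.1) ≤ K := by
    by_contra hlt
    exact hB ⟨_, _, _, _, b1, b2, b3, b4, hSp, not_le.1 hlt, max_le b5 b6⟩
  refine ⟨b1, b2, b3, b4, hSp, (le_max_left _ _).trans b7, (le_max_right _ _).trans b7, Or.inr ?_⟩
  rcases r7 with ⟨e1, e2⟩ | ⟨y, z, h1, h2, h3, h4, h5, h6⟩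
  · rcases s7 with ⟨e3, e4⟩ | ⟨y, z, h1, h2, h3, h4, h5, h6⟩
    · obtain ⟨f1, f2⟩ := pt_two hr0 e1 e2
      obtain ⟨f3, f4⟩ := pt_two hs0 e3 e4
      refine ⟨_, _, ?_, f1, f3, ?_, inR_bd_left f2, inR_bd_right f4⟩
      · intro h
        rw [Prod.mk.injEq] at h
        apply hrs
        ext
        · exact h.1
        · show r.2.1 = s.2.1; omega
        · exact h.2
        · show r.2.2.2 = s.2.2.2; omega
      · constructor
        · show |r.1 - s.1| ≤ 2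
          rw [abs_le]; omega
        · show |r.2.2.1 - s.2.2.1| ≤ 2
          rw [abs_le]; omega
    · exact ⟨y, z, h1, h2, h3, h4, inR_bd_right h5, inR_bd_right h6⟩
  · exact ⟨y, z, h1, h2, h3, h4, inR_bd_left h5, inR_bd_left h6⟩

/-- admissible families -/
def Fam (σ : V → Fin 3) (L K : ℤ) (R : Finset (ℤ × ℤ × ℤ × ℤ)) : Prop :=
  (∀ r ∈ R, Adm σ L K r) ∧ ∀ x, Nr L x 0 → σ x = 2 → ∃ r ∈ R, InR r x

lemma exists_fam (σ : V → Fin 3) (L K : ℤ) (hK : 0 ≤ K) : ∃ R, Fam σ L K R := by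
  classical
  refine ⟨((Finset.Icc (-L) L ×ˢ Finset.Icc (-L) L).filter fun x => σ x = 2).image
    (fun x => (x.1, x.1, x.2, x.2)), ?_, ?_⟩
  · intro r hr
    obtain ⟨x, hx, rfl⟩ := Finset.mem_image.1 hr
    rw [Finset.mem_filter, Finset.mem_product, Finset.mem_Icc, Finset.mem_Icc] at hx
    obtain ⟨⟨⟨x1, x2⟩, x3, x4⟩, x5⟩ := hx
    refine ⟨x1, x2, x3, x4, ⟨le_rfl, le_rfl, ?_, ?_⟩, ?_, ?_, Or.inl ⟨rfl, rfl⟩⟩
    · intro i hi1 hi2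
      simp only at hi1 hi2
      exact ⟨x, x5, le_rfl, le_rfl, le_rfl, le_rfl, by omega⟩
    · intro i hi1 hi2
      simp only at hi1 hi2
      exact ⟨x, x5, le_rfl, le_rfl, le_rfl, le_rfl, by omega⟩
    · simp only; omega
    · simp only; omega
  · intro x hx h2
    refine ⟨(x.1, x.1, x.2, x.2), Finset.mem_image.2 ⟨x, ?_, rfl⟩, le_rfl, le_rfl, le_rfl, le_rfl⟩
    have h3 : |x.1 - 0| ≤ L := hx.1
    have h4 : |x.2 - 0| ≤ L := hx.2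
    rw [abs_le] at h3 h4
    rw [Finset.mem_filter, Finset.mem_product, Finset.mem_Icc, Finset.mem_Icc]
    exact ⟨⟨⟨by omega, by omega⟩, by omega, by omega⟩, h2⟩

/-- a family without near members -/
lemma exists_far (σ : V → Fin 3) (L K : ℤ) (hK : 0 ≤ K) (hB : ¬ Big L K σ) :
    ∃ R, Fam σ L K R ∧ ∀ r ∈ R, ∀ s ∈ R, Near r s → r = s := by
  classical
  have hex : ∃ k, ∃ R, Fam σ L K R ∧ R.card = k := by
    obtain ⟨R, hR⟩ := exists_fam σ L K hK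
    exact ⟨_, R, hR, rfl⟩
  obtain ⟨R, hR, hc⟩ := Nat.find_spec hex
  refine ⟨R, hR, fun r hr s hs hn => ?_⟩
  by_contra hrs
  have hlt : (insert (bd r s) ((R.erase r).erase s)).card < R.card := by
    have h1 : s ∈ R.erase r := Finset.mem_erase.2 ⟨fun h => hrs h.symm, hs⟩
    have h2 := Finset.card_erase_of_mem h1
    have h3 := Finset.card_erase_of_mem hr
    have h4 := Finset.card_insert_le (bd r s) ((R.erase r).erase s)
    have h5 : 0 < (R.erase r).card := Finset.card_pos.2 ⟨s, h1⟩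
    omega
  refine Nat.find_min hex (m := (insert (bd r s) ((R.erase r).erase s)).card) (hc ▸ hlt)
    ⟨_, ⟨?_, ?_⟩, rfl⟩
  · intro t ht
    rcases Finset.mem_insert.1 ht with rfl | ht
    · exact adm_bd hB (hR.1 r hr) (hR.1 s hs) hrs hn
    · exact hR.1 t (Finset.mem_of_mem_erase (Finset.mem_of_mem_erase ht))
  · intro x hx h2
    obtain ⟨t, ht, hxt⟩ := hR.2 x hx h2
    by_cases h3 : t = r
    · subst h3
      exact ⟨_, Finset.mem_insert_self _ _, inR_bd_left hxt⟩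
    · by_cases h4 : t = s
      · subst h4
        exact ⟨_, Finset.mem_insert_self _ _, inR_bd_right hxt⟩
      · exact ⟨t, Finset.mem_insert_of_mem (Finset.mem_erase.2 ⟨h4, Finset.mem_erase.2 ⟨h3, ht⟩⟩),
          hxt⟩

lemma mem_nbrs {x y : V} : y ∈ nbrs x ↔ y = (x.1 + 1, x.2) ∨ y = (x.1 - 1, x.2) ∨
    y = (x.1, x.2 + 1) ∨ y = (x.1, x.2 - 1) := by
  unfold nbrs
  simp only [Finset.mem_insert, Finset.mem_singleton]

theorem t_AL : S_AL := by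
  intro σ L K hK hB
  obtain ⟨R, hR, hfar⟩ := exists_far σ L K hK hB
  refine ⟨{x | ∃ r ∈ R, InR r x}, fun x hx h2 => hR.2 x hx h2, ?_, ?_⟩
  · rintro x hx y hy z hz ⟨r, hr, hyr⟩ ⟨s, hs, hzs⟩
    by_contra hyz
    have hrs : r = s := by
      apply hfar r hr s hs
      obtain ⟨a1, a2, a3, a4⟩ := hyr
      obtain ⟨c1, c2, c3, c4⟩ := hzs
      rw [mem_nbrs] at hy hz
      have e : |y.1 - z.1| ≤ 2 ∧ |y.2 - z.2| ≤ 2 := by
        rcases hy with rfl | rfl | rfl | rfl <;> rcases hz with rfl | rfl | rfl | rfl <;>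
          (constructor <;> (rw [abs_le]; simp only; omega))
      rw [abs_le, abs_le] at e
      refine ⟨?_, ?_, ?_, ?_⟩ <;> omega
    subst hrs
    apply hx
    refine ⟨r, hr, ?_⟩
    obtain ⟨a1, a2, a3, a4⟩ := hyr
    obtain ⟨c1, c2, c3, c4⟩ := hzs
    rw [mem_nbrs] at hy hz
    rcases hy with rfl | rfl | rfl | rfl <;> rcases hz with rfl | rfl | rfl | rfl <;>
      simp only at a1 a2 a3 a4 c1 c2 c3 c4 <;>
      first
        | exact absurd rfl hyz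
        | exact ⟨by omega, by omega, by omega, by omega⟩
  · rintro x ⟨r, hr, hxr⟩
    have hA := hR.1 r hr
    have hA0 := hA
    obtain ⟨r1, r2, r3, r4, -, r5, r6, r7⟩ := hA
    obtain ⟨x1, x2, x3, x4⟩ := hxr
    rcases r7 with ⟨e1, e2⟩ | ⟨y, z, h1, h2, h3, h4, ⟨y1, y2, y3, y4⟩, ⟨z1, z2, z3, z4⟩⟩
    · left
      have : x = (r.1, r.2.2.1) := by
        ext
        · show x.1 = r.1; omega
        · show x.2 = r.2.2.1; omega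
      rw [this]
      exact (pt_two hA0 e1 e2).1
    · right
      refine ⟨y, z, h1, h2, h3, h4, ⟨?_, ?_⟩, ?_, ?_⟩ <;> (rw [abs_le]; omega)

end Pool.Agent.T5h70.TT.AL
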