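import Pool.Agent.T5h70.TT.Stm

/-!
# Project TT, task FKG: the Harris inequality (helper60)
-/

set_option autoImplicit false
set_option linter.all false

namespace Pool.Agent.T5h70.TT.FKG

open Pool.Agent.T5h70.TT
open MeasureTheory ProbabilityTheory Filter Topology

/-- the recoding: `0 ↦ 2`, `1 ↦ 0`, `2 ↦ 1` -/
def cd (i : Fin 3) : Fin 3 := if i = 0 then 2 else if i = 1 then 0 else 1

/-- the inverse -/
def dc (i : Fin 3) : Fin 3 := if i = 2 then 0 else if i = 0 then 1 else 2

lemma dc_cd : ∀ i, dc (cd i) = i := by decide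
lemma cd_dc : ∀ i, cd (dc i) = i := by decide
lemma cd_mono1 : ∀ i j : Fin 3, i ≤ j → cd i = 1 → cd j = 1 := by decide
lemma cd_mono2 : ∀ i j : Fin 3, i ≤ j → cd j = 2 → cd i = 2 := by decide

/-- the configuration with the code `η` on `s` -/
def ext (s : Finset V) (η : s → Fin 3) (x : V) : Fin 3 := if h : x ∈ s then cd (η ⟨x, h⟩) else 0

/-- the code of the restriction of a configuration -/
def res (s : Finset V) (σ : V → Fin 3) (i : s) : Fin 3 := dc (σ i)

lemma res_meas (s : Finset V) : Measurable (res s) := by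
  refine measurable_pi_lambda _ fun i => ?_
  exact (measurable_of_finite dc).comp (measurable_pi_apply _)

lemma ext_res (s : Finset V) (σ : V → Fin 3) (x : V) (hx : x ∈ s) : ext s (res s σ) x = σ x := by
  unfold ext res
  rw [dif_pos hx, cd_dc]

lemma meas_all {s : Finset V} (A : Set (s → Fin 3)) : MeasurableSet A := A.toFinite.measurableSet

theorem t_FKG : S_FKG := by
  classical
  intro μ p q hμ S F G hS hF hG hFi hGi
  have := hμ.prob
  obtain ⟨s, hs⟩ : ∃ s : Finset V, s = hS.toFinset := ⟨_, rfl⟩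
  have hsS : ∀ x, x ∈ s ↔ x ∈ S := fun x => by rw [hs, Set.Finite.mem_toFinset]
  obtain ⟨w, hw⟩ : ∃ w : (s → Fin 3) → ℝ, w = fun η => μ.real {σ | res s σ = η} := ⟨_, rfl⟩
  obtain ⟨v, hv⟩ : ∃ v : V → Fin 3 → ℝ, v = fun x i => μ.real {σ | dc (σ x) = i} := ⟨_, rfl⟩
  have hprod : ∀ η, w η = ∏ i : s, v i (η i) := by
    intro η
    have h1 := hμ.ind.measure_inter_preimage_eq_mul s
      (sets := fun x => {a | ∀ h : x ∈ s, dc a = η ⟨x, h⟩}) (fun x _ => Set.toFinite _ |>.measurableSet)
    have e1 : (⋂ i ∈ s, (fun σ : V → Fin 3 => σ i) ⁻¹' {a | ∀ h : i ∈ s, dc a = η ⟨i, h⟩}) =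
        {σ | res s σ = η} := by
      ext σ
      simp only [Set.mem_iInter, Set.mem_preimage, Set.mem_setOf_eq]
      constructor
      · intro h
        funext i
        exact h i i.2 i.2
      · intro h i hi hi'
        rw [← h]
        rfl
    rw [e1] at h1
    rw [hw]
    simp only
    rw [measureReal_def, h1, ENNReal.toReal_prod, ← Finset.prod_coe_sort, hv]
    refine Finset.prod_congr rfl fun i _ => ?_
    simp only
    rw [measureReal_def]
    congr 2
    ext σ
    simp only [Set.mem_preimage, Set.mem_setOf_eq]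
    constructor
    · intro h
      exact h i.2
    · intro h _
      exact h
  -- the law of the restriction
  have hlaw : ∀ K : (V → Fin 3) → Prop, DepOn S K →
      μ.real {σ | K σ} = ∑ η, w η * (if K (ext s η) then 1 else 0) := by
    intro K hK
    have hKe : ∀ σ, K σ ↔ K (ext s (res s σ)) := by
      intro σ
      constructor
      · exact hK σ _ fun x hx => (ext_res s σ x ((hsS x).2 hx)).symm
      · exact hK _ σ fun x hx => ext_res s σ x ((hsS x).2 hx)
    have e1 : {σ | K σ} = res s ⁻¹' {η | K (ext s η)} := by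
      ext σ
      exact hKe σ
    have e2 : {η | K (ext s η)} = ((Finset.univ.filter fun η => K (ext s η) : Finset (s → Fin 3)) :
        Set (s → Fin 3)) := by
      ext η
      simp
    rw [e1, ← map_measureReal_apply (res_meas s) (meas_all _), e2]
    have hp : IsProbabilityMeasure (μ.map (res s)) :=
      Measure.isProbabilityMeasure_map (res_meas s).aemeasurable
    rw [← sum_measureReal_singleton, Finset.sum_filter]
    refine Finset.sum_congr rfl fun η _ => ?_
    split_ifs
    · rw [mul_one, map_measureReal_apply (res_meas s) (meas_all _), hw]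
      rfl
    · rw [mul_zero]
  have hone : ∑ η, w η = 1 := by
    have h1 := hlaw (fun _ => True) (fun _ _ _ _ => trivial)
    simp only [if_true, mul_one] at h1
    rw [← h1]
    simp
  have hmono : ∀ K : (V → Fin 3) → Prop, Inc K →
      Monotone (fun η : s → Fin 3 => (if K (ext s η) then (1 : ℝ) else 0)) := by
    intro K hK η η' hηη'
    have h1 : K (ext s η) → K (ext s η') := by
      refine hK _ _ fun x => ?_
      unfold ext
      by_cases hx : x ∈ s
      · rw [dif_pos hx, dif_pos hx]
        exact ⟨cd_mono1 _ _ (hηη' ⟨x, hx⟩), cd_mono2 _ _ (hηη' ⟨x, hx⟩)⟩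
      · rw [dif_neg hx, dif_neg hx]
        exact ⟨id, id⟩
    simp only
    split_ifs with h2 h3 h3
    · exact le_rfl
    · exact absurd (h1 h2) h3
    · exact zero_le_one
    · exact le_rfl
  have hnn : ∀ K : (V → Fin 3) → Prop, (0 : (s → Fin 3) → ℝ) ≤
      fun η : s → Fin 3 => (if K (ext s η) then (1 : ℝ) else 0) := by
    intro K η
    simp only [Pi.zero_apply]
    split_ifs
    · exact zero_le_one
    · exact le_rfl
  have h1 := fkg (fun η : s → Fin 3 => (if F (ext s η) then (1 : ℝ) else 0))
    (fun η : s → Fin 3 => (if G (ext s η) then (1 : ℝ) else 0)) w ?_ (hnn F) (hnn G) (hmono F hFi)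
    (hmono G hGi) ?_
  · rw [hone, one_mul] at h1
    rw [hlaw F hF, hlaw G hG, hlaw (fun σ => F σ ∧ G σ) fun σ τ hστ h =>
      ⟨hF σ τ hστ h.1, hG σ τ hστ h.2⟩]
    refine h1.trans (le_of_eq (Finset.sum_congr rfl fun η _ => ?_))
    congr 1
    by_cases h2 : F (ext s η)
    · by_cases h3 : G (ext s η)
      · simp [h2, h3]
      · simp [h2, h3]
    · simp [h2]
  · intro η
    rw [hw]
    exact measureReal_nonneg
  · intro a b
    rw [hprod, hprod, hprod, hprod, ← Finset.prod_mul_distrib, ← Finset.prod_mul_distrib]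
    refine le_of_eq (Finset.prod_congr rfl fun i _ => ?_)
    rcases le_total (a i) (b i) with h2 | h2
    · rw [Pi.inf_apply, Pi.sup_apply, inf_eq_left.2 h2, sup_eq_right.2 h2]
    · rw [Pi.inf_apply, Pi.sup_apply, inf_eq_right.2 h2, sup_eq_left.2 h2, mul_comm]

end Pool.Agent.T5h70.TT.FKG
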