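import Pool.Agent.T5h70.TT.Stm

/-! Project TT, task NUCF (helper85) -/

set_option autoImplicit false

namespace Pool.Agent.T5h70.TT.NUCF

open Pool.Agent.T5h70.TT

theorem mem_nb (x y : V) : y ∈ nbrs x ↔ (y.1 = x.1 + 1 ∧ y.2 = x.2) ∨ (y.1 = x.1 - 1 ∧ y.2 = x.2) ∨
    (y.1 = x.1 ∧ y.2 = x.2 + 1) ∨ (y.1 = x.1 ∧ y.2 = x.2 - 1) := by
  simp only [nbrs, Finset.mem_insert, Finset.mem_singleton, Prod.ext_iff]

theorem spread {P : ℤ → Prop} {A B w : ℤ} (hw : A ≤ w) (hw' : w ≤ B) (hP : P w)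
    (hup : ∀ v, A ≤ v → v + 1 ≤ B → P v → P (v + 1))
    (hdn : ∀ v, A ≤ v → v + 1 ≤ B → P (v + 1) → P v) : ∀ v, A ≤ v → v ≤ B → P v := by
  have h1 : ∀ n : ℕ, w + n ≤ B → P (w + n) := by
    intro n
    induction n with
    | zero => intro _; simpa using hP
    | succ n ih =>
      intro h
      push_cast at h ⊢
      have := hup (w + n) (by omega) (by omega) (ih (by omega))
      rw [← add_assoc]
      exact this
  have h2 : ∀ n : ℕ, A ≤ w - n → P (w - n) := by
    intro n
    induction n with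
    | zero => intro _; simpa using hP
    | succ n ih =>
      intro h
      push_cast at h ⊢
      refine hdn _ (by omega) (by omega) ?_
      have := ih (by omega)
      have e : w - ((n : ℤ) + 1) + 1 = w - n := by ring
      rw [e]
      exact this
  intro v hA hB
  rcases le_total w v with h | h
  · have := h1 (v - w).toNat (by omega)
    have e : w + ((v - w).toNat : ℤ) = v := by omega
    rwa [e] at this
  · have := h2 (w - v).toNat (by omega)
    have e : w - ((w - v).toNat : ℤ) = v := by omega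
    rwa [e] at this

theorem t_NUCF : S_NUCF := by
  intro σ O g c hg hE hG hN
  have hg' : (1 : ℤ) ≤ g := by exact_mod_cast hg
  have grow : ∀ x : V, Nr (3 * g) x c → ∀ y ∈ nbrs x, ∀ z ∈ nbrs x, y ≠ z → y ∈ O → z ∈ O →
      x ∈ O := by
    intro x hx
    refine hE.2 x ?_ (hN.2 x hx)
    unfold Nr at hx ⊢
    exact ⟨by linarith [hx.1], by linarith [hx.2]⟩
  have init : ∀ x : V, Nr (3 * g) x c → σ x = 1 → x ∈ O := by
    intro x hx
    refine hE.1 x ?_
    unfold Nr at hx ⊢
    exact ⟨by linarith [hx.1], by linarith [hx.2]⟩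
  -- growth in coordinates
  have gr : ∀ u v u' v' u'' v'' : ℤ, |u| ≤ 3 * g → |v| ≤ 3 * g →
      ((c.1 + u', c.2 + v') : V) ∈ nbrs (c.1 + u, c.2 + v) →
      ((c.1 + u'', c.2 + v'') : V) ∈ nbrs (c.1 + u, c.2 + v) → ¬ (u' = u'' ∧ v' = v'') →
      ((c.1 + u', c.2 + v') : V) ∈ O → ((c.1 + u'', c.2 + v'') : V) ∈ O →
      ((c.1 + u, c.2 + v) : V) ∈ O := by
    intro u v u' v' u'' v'' hu hv h1 h2 hne h3 h4
    refine grow _ ?_ _ h1 _ h2 ?_ h3 h4
    · unfold Nr
      simp only [add_sub_cancel_left]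
      exact ⟨hu, hv⟩
    · intro h
      rw [Prod.ext_iff] at h
      simp only [add_right_inj] at h
      exact hne h
  -- rows
  have row : ∀ r r' : ℤ, |r| ≤ 3 * g → |r'| ≤ 3 * g → (r' = r + 1 ∨ r' = r - 1) →
      (∀ k : ℤ, 0 ≤ k → k ≤ g - 1 → ((c.1 + k, c.2 + r) : V) ∈ O) →
      (∀ k : ℤ, 0 ≤ k → k ≤ g - 1 → ((c.1 + k, c.2 + r') : V) ∈ O) := by
    intro r r' hr hr' hrr h
    have hr1 := abs_le.1 hr
    have hr1' := abs_le.1 hr'
    obtain ⟨k0, hk0, hk1, hk2⟩ := hG.1 c.1 (c.2 + r') (by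
        unfold Nr
        simp only [sub_self, abs_zero, add_sub_cancel_left]
        exact ⟨by linarith, by linarith⟩) (by
        unfold Nr
        simp only [abs_le]
        refine ⟨⟨?_, ?_⟩, ?_, ?_⟩ <;> linarith)
    have hin : ((c.1 + k0, c.2 + r') : V) ∈ O := by
      refine init _ ?_ hk2
      unfold Nr
      simp only [add_sub_cancel_left, abs_le]
      refine ⟨⟨?_, ?_⟩, ?_, ?_⟩ <;> linarith
    refine spread (P := fun k => ((c.1 + k, c.2 + r') : V) ∈ O) hk0 (by linarith) hin ?_ ?_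
    · intro v hv0 hv1 hv
      refine gr (v + 1) r' v r' (v + 1) r (by rw [abs_le]; constructor <;> linarith) hr' ?_ ?_ ?_
        hv (h _ (by linarith) hv1)
      · rw [mem_nb]; dsimp only; omega
      · rw [mem_nb]; dsimp only; omega
      · omega
    · intro v hv0 hv1 hv
      refine gr v r' (v + 1) r' v r (by rw [abs_le]; constructor <;> linarith) hr' ?_ ?_ ?_
        hv (h _ (by linarith) (by linarith))
      · rw [mem_nb]; dsimp only; omega
      · rw [mem_nb]; dsimp only; omega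
      · omega
  have rows : ∀ r : ℤ, -(3 * g) ≤ r → r ≤ 3 * g → ∀ k : ℤ, 0 ≤ k → k ≤ g - 1 →
      ((c.1 + k, c.2 + r) : V) ∈ O := by
    refine spread (P := fun r => ∀ k : ℤ, 0 ≤ k → k ≤ g - 1 → ((c.1 + k, c.2 + r) : V) ∈ O)
      (w := 0) (by linarith) (by linarith) ?_ ?_ ?_
    · intro k hk0 hk1
      refine init _ ?_ ?_
      · unfold Nr
        simp only [add_sub_cancel_left, abs_le]
        refine ⟨⟨?_, ?_⟩, ?_, ?_⟩ <;> linarith
      · rw [add_zero]
        exact hN.1 k hk0 (by linarith)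
    · intro v hv0 hv1 hv
      exact row v (v + 1) (by rw [abs_le]; constructor <;> linarith)
        (by rw [abs_le]; constructor <;> linarith) (Or.inl rfl) hv
    · intro v hv0 hv1 hv
      exact row (v + 1) v (by rw [abs_le]; constructor <;> linarith)
        (by rw [abs_le]; constructor <;> linarith) (Or.inr (by ring)) hv
  -- columns
  have col : ∀ u u' : ℤ, |u| ≤ 3 * g → |u'| ≤ 3 * g → (u' = u + 1 ∨ u' = u - 1) →
      (∀ r : ℤ, -(3 * g) ≤ r → r ≤ 3 * g → ((c.1 + u, c.2 + r) : V) ∈ O) →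
      (∀ r : ℤ, -(3 * g) ≤ r → r ≤ 3 * g → ((c.1 + u', c.2 + r) : V) ∈ O) := by
    intro u u' hr hr' hrr h
    have hr1 := abs_le.1 hr
    have hr1' := abs_le.1 hr'
    obtain ⟨k0, hk0, hk1, hk2⟩ := hG.2 (c.1 + u') c.2 (by
        unfold Nr
        simp only [sub_self, abs_zero, add_sub_cancel_left]
        exact ⟨by linarith, by linarith⟩) (by
        unfold Nr
        simp only [abs_le]
        refine ⟨⟨?_, ?_⟩, ?_, ?_⟩ <;> linarith)
    have hin : ((c.1 + u', c.2 + k0) : V) ∈ O := by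
      refine init _ ?_ hk2
      unfold Nr
      simp only [add_sub_cancel_left, abs_le]
      refine ⟨⟨?_, ?_⟩, ?_, ?_⟩ <;> linarith
    refine spread (P := fun k => ((c.1 + u', c.2 + k) : V) ∈ O) (by linarith) (by linarith) hin
      ?_ ?_
    · intro v hv0 hv1 hv
      refine gr u' (v + 1) u' v u (v + 1) hr' (by rw [abs_le]; constructor <;> linarith) ?_ ?_ ?_
        hv (h _ (by linarith) hv1)
      · rw [mem_nb]; dsimp only; omega
      · rw [mem_nb]; dsimp only; omega
      · omega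
    · intro v hv0 hv1 hv
      refine gr u' v u' (v + 1) u v hr' (by rw [abs_le]; constructor <;> linarith) ?_ ?_ ?_
        hv (h _ (by linarith) (by linarith))
      · rw [mem_nb]; dsimp only; omega
      · rw [mem_nb]; dsimp only; omega
      · omega
  have cols : ∀ u : ℤ, -(3 * g) ≤ u → u ≤ 3 * g → ∀ r : ℤ, -(3 * g) ≤ r → r ≤ 3 * g →
      ((c.1 + u, c.2 + r) : V) ∈ O := by
    refine spread (P := fun u => ∀ r : ℤ, -(3 * g) ≤ r → r ≤ 3 * g →
      ((c.1 + u, c.2 + r) : V) ∈ O) (w := 0) (by linarith) (by linarith) ?_ ?_ ?_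
    · intro r hr0 hr1
      exact rows r hr0 hr1 0 le_rfl (by linarith)
    · intro v hv0 hv1 hv
      exact col v (v + 1) (by rw [abs_le]; constructor <;> linarith)
        (by rw [abs_le]; constructor <;> linarith) (Or.inl rfl) hv
    · intro v hv0 hv1 hv
      exact col (v + 1) v (by rw [abs_le]; constructor <;> linarith)
        (by rw [abs_le]; constructor <;> linarith) (Or.inr (by ring)) hv
  intro x hx
  unfold Nr at hx
  simp only [abs_le] at hx
  have := cols (x.1 - c.1) (by linarith [hx.1.1]) (by linarith [hx.1.2]) (x.2 - c.2)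
    (by linarith [hx.2.1]) (by linarith [hx.2.2])
  have e : ((c.1 + (x.1 - c.1), c.2 + (x.2 - c.2)) : V) = x := by
    ext <;> simp only <;> ring
  rwa [e] at this

end Pool.Agent.T5h70.TT.NUCF
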